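import Pool.Agent.H.MP_dd1c2e_lc.ro.E

/-!
# Blocky matrices: elementary properties
-/

namespace Pool.Agent.H.MP_dd1c2e_lc.RO

open Finset Pool.Agent.H.MP_dd1c2e_lc.Alt

/-- `b = true`: `Z = Unit`. `b = false`: `Z = Bool`, `α x = true`, `β y = false`. -/
theorem Blocky.const {X Y : Type} (b : Bool) : Blocky (fun (_ : X) (_ : Y) => b) := by
  cases b with
  | false => exact ⟨Bool, inferInstance, fun _ => true, fun _ => false, fun x y => by simp⟩
  | true => exact ⟨Unit, inferInstance, fun _ => (), fun _ => (), fun x y => by simp⟩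

/-- `Z × Z'`. -/
theorem Blocky.and {X Y : Type} {F G : X → Y → Bool} (hF : Blocky F) (hG : Blocky G) :
    Blocky (fun x y => F x y && G x y) := by
  obtain ⟨Z, hZ, α, β, h⟩ := hF
  obtain ⟨Z', hZ', α', β', h'⟩ := hG
  refine ⟨Z × Z', inferInstance, fun x => (α x, α' x), fun y => (β y, β' y), fun x y => ?_⟩
  rw [Bool.and_eq_true, h, h', Prod.mk.injEq]

theorem Blocky.pull {X Y X' Y' : Type} {F : X → Y → Bool} (hF : Blocky F) (α : X' → X) (β : Y' → Y) :
    Blocky (fun x y => F (α x) (β y)) := by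
  obtain ⟨Z, hZ, a, b, h⟩ := hF
  exact ⟨Z, hZ, fun x => a (α x), fun y => b (β y), fun x y => h (α x) (β y)⟩

theorem Blocky.swap {X Y : Type} {F : X → Y → Bool} (hF : Blocky F) : Blocky (fun y x => F x y) := by
  obtain ⟨Z, hZ, a, b, h⟩ := hF
  exact ⟨Z, hZ, b, a, fun y x => (h x y).trans eq_comm⟩

/-- `Z = Bool`, `α = a`, `β = true`. -/
theorem Blocky.ofA {X Y : Type} (a : X → Bool) : Blocky (fun x (_ : Y) => a x) := by
  exact ⟨Bool, inferInstance, a, fun _ => true, fun _ _ => Iff.rfl⟩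

theorem Blocky.ofB {X Y : Type} (b : Y → Bool) : Blocky (fun (_ : X) y => b y) := by
  exact ⟨Bool, inferInstance, fun _ => true, b, fun _ _ => eq_comm⟩

theorem TwoBlocky.swap {X Y : Type} {F : X → Y → Bool} (hF : TwoBlocky F) : TwoBlocky (fun y x => F x y) := by
  obtain ⟨h, x, x', y, y', h1, h2, h3, h4⟩ := hF
  exact ⟨h.swap, y, y', x, x', h1, h2, h4, h3⟩

end Pool.Agent.H.MP_dd1c2e_lc.RO
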