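import Pool.Agent.H.MP_dd1c2e_lc.ro.Bl

/-!
# Matrices that are not blocky, blocky matrices with one block, matrices that are not of xor type
-/

namespace Pool.Agent.H.MP_dd1c2e_lc.RO

open Finset Pool.Agent.H.MP_dd1c2e_lc.Alt

/-- A matrix that is not blocky contains `a ∨ b`.

Proof. If there are `x`, `x'`, `y`, `y'` with `F x y = F x y' = F x' y = true` and `F x' y' = false`, then the map
`c ↦ if c 0 then x else x'` for the rows and `c ↦ if c 0 then y else y'` for the columns shows `Sub F (AO 1)`.
Otherwise two rows whose supports `{y | F x y = true}` meet in some `y` are equal: if `F x y = F x' y = true` and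
`F x y' = true` then `F x' y' = true`. Let `Z = Option (Set Y)` (finite), `α x = some {y | F x y = true}` and
`β y = some {y' | F x y' = true}` for a chosen `x` with `F x y = true` if there is one, and `β y = none` otherwise. If
`F x y = true` then the supports of `x` and of the chosen `x₀` meet in `y`, so `α x = β y`. If `α x = β y` then `β y` is
the support of the chosen `x₀`, which contains `y`, so `F x y = true`. So `F` is blocky. -/
theorem sub_AO_one {X Y : Type} [Finite Y] (F : X → Y → Bool) (h : ¬ Blocky F) : Sub F (AO 1) := by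
  classical
  by_contra hs
  apply h
  have hp : ∀ x x' y y', F x y = true → F x y' = true → F x' y = true → F x' y' = true := by
    intro x x' y y' h1 h2 h3
    by_contra h4
    have h4' : F x' y' = false := by simpa using h4
    apply hs
    refine ⟨fun c => if c 0 = true then x else x', fun c => if c 0 = true then y else y', ?_⟩
    intro c d
    rcases hc : c 0 <;> rcases hd : d 0 <;> simp [AO, hc, hd, h1, h2, h3, h4']
  refine ⟨Option (Set Y), inferInstance, fun x => some {y | F x y = true},
    fun y => if hx : ∃ x, F x y = true then some {y' | F hx.choose y' = true} else none, ?_⟩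
  intro x y
  constructor
  · intro hxy
    have hx : ∃ x, F x y = true := ⟨x, hxy⟩
    have hx0 := hx.choose_spec
    simp only [dif_pos hx, Option.some.injEq]
    ext y'
    simp only [Set.mem_ofPred_eq]
    exact ⟨fun h1 => hp x _ y y' hxy h1 hx0, fun h1 => hp _ x y y' hx0 h1 hxy⟩
  · intro he
    by_cases hx : ∃ x, F x y = true
    · have hx0 := hx.choose_spec
      simp only [dif_pos hx, Option.some.injEq] at he
      have : y ∈ {y | F x y = true} := by
        rw [he]
        exact hx0
      exact this
    · simp [dif_neg hx] at he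

/-- A blocky matrix with at most one block is a rectangle.

Proof. Let `a x = decide (∃ y, F x y = true)`, `b y = decide (∃ x, F x y = true)` (classical). If `a x` and `b y`, say
`F x y₁ = true` and `F x₁ y = true`, and `F x y = false`: then `F x₁ y₁ = false` (otherwise `α x₁ = β y₁ = α x`, and
`α x₁ = β y`, so `F x y = true`), so `x, x₁, y₁, y` show that `F` is `TwoBlocky`. -/
theorem rect_of_blocky {X Y : Type} (F : X → Y → Bool) (h : Blocky F) (h2 : ¬ TwoBlocky F) :
    ∃ (a : X → Bool) (b : Y → Bool), ∀ x y, F x y = (a x && b y) := by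
  classical
  obtain ⟨Z, hZ, α, β, hab⟩ := h
  refine ⟨fun x => decide (∃ y, F x y = true), fun y => decide (∃ x, F x y = true), ?_⟩
  intro x y
  rcases hF : F x y with _ | _
  · symm
    rw [Bool.and_eq_false_iff]
    by_contra hcon
    push Not at hcon
    obtain ⟨h3, h4⟩ := hcon
    have h3' : ∃ y, F x y = true := by simpa using h3
    have h4' : ∃ x, F x y = true := by simpa using h4
    obtain ⟨y₁, hy₁⟩ := h3'
    obtain ⟨x₁, hx₁⟩ := h4'
    have h5 : F x₁ y₁ = false := by
      by_contra h6
      have h6' : F x₁ y₁ = true := by simpa using h6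
      have h7 : α x = β y := by
        rw [(hab x y₁).1 hy₁, ← (hab x₁ y₁).1 h6', (hab x₁ y).1 hx₁]
      have h8 := (hab x y).2 h7
      rw [hF] at h8
      exact absurd h8 (by simp)
    exact h2 ⟨⟨Z, hZ, α, β, hab⟩, x, x₁, y₁, y, hy₁, hx₁, hF, h5⟩
  · have h3 : ∃ y, F x y = true := ⟨y, hF⟩
    have h4 : ∃ x, F x y = true := ⟨x, hF⟩
    simp [h3, h4]

private theorem bl2_ip {X Y : Type} (F : X → Y → Bool) (c : Bool) (x1 x2 : X) (y1 y2 : Y)
    (h11 : F x1 y1 = c) (h12 : F x1 y2 = c) (h21 : F x2 y1 = c) (h22 : F x2 y2 = !c) :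
    Sub F (IPc c 1) := by
  refine ⟨fun u => if u 0 = true then x2 else x1, fun v => if v 0 = true then y2 else y1, ?_⟩
  intro u v
  rcases hu : u 0 <;> rcases hv : v 0 <;>
    simp [IPc, hu, hv, h11, h12, h21, h22, Finset.filter_true_of_mem, Finset.filter_false_of_mem]

/-- A matrix that is not of the form `a x ⊕ b y` contains `c ⊕ (a ∧ b)`.

Proof. If `X` or `Y` is empty the hypothesis fails. Fix `x₀`, `y₀`. If
`F x y = F x₀ y ⊕ F x y₀ ⊕ F x₀ y₀` for all `x`, `y` then `F x y = a x ⊕ b y` with `a x = F x y₀`,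
`b y = F x₀ y ⊕ F x₀ y₀`. Otherwise for some `x`, `y` the `2 × 2` submatrix with the rows `x₀`, `x` and the columns `y₀`,
`y` has an odd number of entries `true`, one or three; so exactly one entry differs from the three others, whose value is
`c`. Map the bit `true` of Alice (Bob) to the row (column) of this entry and the bit `false` to the other row (column):
`IPc c 1 x y = c ⊕ (x 0 && y 0)` (check by cases). -/
theorem sub_IP_one {X Y : Type} (F : X → Y → Bool)
    (h : ¬ ∃ (a : X → Bool) (b : Y → Bool), ∀ x y, F x y = Bool.xor (a x) (b y)) : ∃ c, Sub F (IPc c 1) := by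
  classical
  by_contra hs
  apply h
  rcases isEmpty_or_nonempty X with hX | ⟨⟨x₀⟩⟩
  · exact ⟨fun _ => true, fun _ => true, fun x => (hX.false x).elim⟩
  rcases isEmpty_or_nonempty Y with hY | ⟨⟨y₀⟩⟩
  · exact ⟨fun _ => true, fun _ => true, fun _ y => (hY.false y).elim⟩
  refine ⟨fun x => F x y₀, fun y => Bool.xor (F x₀ y) (F x₀ y₀), ?_⟩
  intro x y
  show F x y = Bool.xor (F x y₀) (Bool.xor (F x₀ y) (F x₀ y₀))
  rcases hp : F x₀ y₀ <;> rcases hq : F x₀ y <;> rcases hr : F x y₀ <;> rcases ht : F x y <;>
    first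
    | rfl
    | exact absurd ⟨_, bl2_ip F _ x₀ x y₀ y hp (hq.trans rfl) (hr.trans rfl) (ht.trans rfl)⟩ hs
    | exact absurd ⟨_, bl2_ip F _ x x₀ y₀ y hr (ht.trans rfl) (hp.trans rfl) (hq.trans rfl)⟩ hs
    | exact absurd ⟨_, bl2_ip F _ x₀ x y y₀ hq (hp.trans rfl) (ht.trans rfl) (hr.trans rfl)⟩ hs
    | exact absurd ⟨_, bl2_ip F _ x x₀ y y₀ ht (hr.trans rfl) (hq.trans rfl) (hp.trans rfl)⟩ hs

end Pool.Agent.H.MP_dd1c2e_lc.RO
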