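import Pool.Agent.H.MP_dd1c2e_lc.ro.E

/-!
# The number of changes in a list of bits
-/

namespace Pool.Agent.H.MP_dd1c2e_lc.RO

open Finset

theorem cg_cons2 (a b : Bool) (l : List Bool) :
    chg (a :: b :: l) = (if a = b then 0 else 1) + chg (b :: l) := rfl

/-- Induction, with `chg (a :: b :: l) = (if a = b then 0 else 1) + chg (b :: l)`. -/
theorem chg_not (l : List Bool) : chg (l.map (fun b => !b)) = chg l := by
  induction l with
  | nil => rfl
  | cons a l ih =>
    cases l with
    | nil => rfl
    | cons b l =>
      rw [List.map_cons, List.map_cons, cg_cons2, cg_cons2, ← List.map_cons (f := fun b => !b), ih]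
      cases a <;> cases b <;> rfl

theorem cg_tri (a b : Bool) (m : List Bool) :
    chg (a :: m) ≤ (if a = b then 0 else 1) + chg (b :: m) := by
  cases m with
  | nil => exact Nat.zero_le _
  | cons c m =>
    rw [cg_cons2, cg_cons2, ← Nat.add_assoc]
    refine Nat.add_le_add_right ?_ _
    cases a <;> cases b <;> cases c <;> decide

theorem cg_le_cons (b : Bool) (m : List Bool) : chg m ≤ chg (b :: m) := by
  cases m with
  | nil => exact Nat.zero_le _
  | cons c m =>
    rw [cg_cons2]
    exact Nat.le_add_left _ _

theorem cg_rep (n : ℕ) (a : Bool) (m : List Bool) :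
    chg (a :: (List.replicate n a ++ m)) = chg (a :: m) := by
  induction n with
  | zero => rfl
  | succ n ih =>
    rw [List.replicate_succ, List.cons_append, cg_cons2, ih, if_pos rfl, Nat.zero_add]

theorem cg_flat (l : List (ℕ × Bool)) (a : Bool) :
    chg (a :: l.flatMap (fun p => List.replicate p.1 p.2)) ≤ chg (a :: l.map Prod.snd) := by
  induction l generalizing a with
  | nil => exact le_rfl
  | cons p l ih =>
    obtain ⟨n, b⟩ := p
    rw [List.flatMap_cons, List.map_cons, cg_cons2]
    cases n with
    | zero =>
      rw [List.replicate_zero, List.nil_append]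
      exact (cg_tri a b _).trans (Nat.add_le_add_left (ih b) _)
    | succ n =>
      rw [List.replicate_succ, List.cons_append, cg_cons2, cg_rep]
      exact Nat.add_le_add_left (ih b) _

/-- Repeating entries (possibly zero times) does not create changes.

Proof. Induction on `l`. It is convenient to prove first: `chg (a :: m) ≤ (if a = b then 0 else 1) + chg (b :: m)` (triangle
inequality for changes; deleting or inserting an element), `chg m ≤ chg (b :: m)`, and
`chg (List.replicate (n + 1) a ++ m) = chg (a :: m)`; and then the claim in the form: for all `a`,
`chg (a :: l.flatMap ...) ≤ chg (a :: l.map Prod.snd)` (if the multiplicity of the first entry `b` of `l` is zero use the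
triangle inequality), from which the claim without `a` follows in the same way. -/
theorem chg_flatMap (l : List (ℕ × Bool)) : chg (l.flatMap (fun p => List.replicate p.1 p.2)) ≤ chg (l.map Prod.snd) := by
  cases l with
  | nil => exact le_rfl
  | cons p l =>
    obtain ⟨n, b⟩ := p
    rw [List.flatMap_cons, List.map_cons]
    cases n with
    | zero =>
      rw [List.replicate_zero, List.nil_append]
      exact (cg_le_cons b _).trans (cg_flat l b)
    | succ n =>
      rw [List.replicate_succ, List.cons_append, cg_rep]
      exact cg_flat l b

theorem cg_end (l : List Bool) (a b : Bool) : chg (l ++ [a]) ≤ chg (l ++ [b]) + 1 := by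
  induction l with
  | nil => exact Nat.zero_le _
  | cons c l ih =>
    cases l with
    | nil => cases a <;> cases b <;> cases c <;> decide
    | cons d l =>
      rw [List.cons_append, List.cons_append, cg_cons2, List.cons_append, List.cons_append, cg_cons2,
        Nat.add_assoc]
      rw [List.cons_append, List.cons_append] at ih
      exact Nat.add_le_add_left ih _

theorem cg_le_end (l : List Bool) (a : Bool) : chg l ≤ chg (l ++ [a]) := by
  induction l with
  | nil => exact Nat.zero_le _
  | cons c l ih =>
    cases l with
    | nil => exact Nat.zero_le _
    | cons d l =>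
      rw [List.cons_append, List.cons_append, cg_cons2, cg_cons2]
      rw [List.cons_append] at ih
      exact Nat.add_le_add_left ih _

/-- Changing the two end values creates at most two changes. (`chg (a :: l) ≤ chg (b :: l) + 1`, and the same at the other
end, by induction.) -/
theorem chg_pad (e : Bool) (m : List Bool) : chg ((!e) :: (m ++ [!e])) ≤ chg (e :: (m ++ [e])) + 2 := by
  have h1 := cg_tri (!e) e (m ++ [!e])
  have h2 : (if (!e) = e then 0 else 1) = 1 := by cases e <;> rfl
  rw [h2] at h1
  have h3 := cg_end (e :: m) (!e) e
  rw [List.cons_append, List.cons_append] at h3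
  omega

/-- Dropping the end values does not create changes. -/
theorem chg_drop (e e' : Bool) (m : List Bool) : chg m ≤ chg (e :: (m ++ [e'])) :=
  (cg_le_end m e').trans (cg_le_cons e _)

/-- A list all of whose entries are equal to `e` has no changes. -/
theorem chg_const (e : Bool) (l : List Bool) (h : ∀ b ∈ l, b = e) : chg l = 0 := by
  induction l with
  | nil => rfl
  | cons a l ih =>
    cases l with
    | nil => rfl
    | cons b l =>
      have h1 := h a List.mem_cons_self
      have h2 := h b (List.mem_cons_of_mem _ List.mem_cons_self)
      rw [cg_cons2, ih fun c hc => h c (List.mem_cons_of_mem _ hc), h1, h2, if_pos rfl]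

end Pool.Agent.H.MP_dd1c2e_lc.RO
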