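import Pool.Agent.H.MP_dd1c2e_lc.ro.E
import Pool.Agent.H.MP_dd1c2e_lc.alt.Lits

/-!
# Mistake trees: relabelling and complement
-/

namespace Pool.Agent.H.MP_dd1c2e_lc.RO

open Finset Pool.Agent.H.MP_dd1c2e_lc.Alt

/-- Relabelling the rows by `i` and the columns by `j`.

Proof. Induction on `l`, for all `A`, `A'`. `l = 0`: nonempty. `l + 1`: if `y` is the column for `F`, take `j y`; the
hypotheses hold for `{x | x ∈ A ∧ F x y = b}` and `{x' | x' ∈ A' ∧ F' x' (j y) = b}`. -/
theorem lit_emb {X Y X' Y' : Type} {F : X → Y → Bool} {F' : X' → Y' → Bool} (i : X → X') (j : Y → Y') {l : ℕ}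
    {A : Set X} {A' : Set X'} (hA : ∀ x ∈ A, i x ∈ A') (hF : ∀ x ∈ A, ∀ y, F' (i x) (j y) = F x y)
    (h : Lit F l A) : Lit F' l A' := by
  induction l generalizing A A' with
  | zero =>
    obtain ⟨x, hx⟩ := h
    exact ⟨i x, hA x hx⟩
  | succ l ih =>
    obtain ⟨y, h1, h2⟩ := h
    refine ⟨j y, ih ?_ ?_ h1, ih ?_ ?_ h2⟩
    · intro x hx
      exact ⟨hA x hx.1, (hF x hx.1 y).trans hx.2⟩
    · intro x hx
      exact hF x hx.1
    · intro x hx
      exact ⟨hA x hx.1, (hF x hx.1 y).trans hx.2⟩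
    · intro x hx
      exact hF x hx.1

/-- Exchange the two children of every inner vertex. -/
theorem lit_not {X Y : Type} {F : X → Y → Bool} {l : ℕ} {A : Set X} (h : Lit F l A) :
    Lit (fun x y => !(F x y)) l A := by
  induction l generalizing A with
  | zero => exact h
  | succ l ih =>
    obtain ⟨y, h1, h2⟩ := h
    refine ⟨y, (ih h2).mono ?_, (ih h1).mono ?_⟩
    · intro x hx
      exact ⟨hx.1, by simp [hx.2]⟩
    · intro x hx
      exact ⟨hx.1, by simp [hx.2]⟩

/-- If all rows of `A` have a value `xor` a constant, the mistake tree is the same: relabelled rows `i x` with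
`F' (i x) (j y) = c ⊕ F x y`. (`lit_emb` and, if `c = true`, `lit_not`.) -/
theorem lit_flip {X Y X' Y' : Type} {F : X → Y → Bool} {F' : X' → Y' → Bool} (c : Bool) (i : X → X') (j : Y → Y')
    {l : ℕ} {A : Set X} {A' : Set X'} (hA : ∀ x ∈ A, i x ∈ A')
    (hF : ∀ x ∈ A, ∀ y, F' (i x) (j y) = Bool.xor c (F x y)) (h : Lit F l A) : Lit F' l A' := by
  cases c
  · exact lit_emb i j hA (fun x hx y => by rw [hF x hx y, Bool.false_xor]) h
  · exact lit_emb i j hA (fun x hx y => by rw [hF x hx y, Bool.true_xor]) (lit_not h)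

end Pool.Agent.H.MP_dd1c2e_lc.RO
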