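import Pool.Agent.H.MP_dd1c2e_lc.ro.Bl
import Pool.Agent.H.MP_dd1c2e_lc.ro.Le

/-!
# The flips of Alice: steps of Alice and Bob without flips
-/

namespace Pool.Agent.H.MP_dd1c2e_lc.RO

open Finset Pool.Agent.H.MP_dd1c2e_lc.Alt

/-!
In the definition of `FlipA G φ`: `s`, `fl`, `k`, `r` with (a) `φ x y = fl x (s x y)`, (b) `s x y ≤ k + (if r then 1 else
0)`, (c) `i ≤ s x y` is blocky for all `i`, (d) `Lit G k univ`, (e) if `r = true`: `Lit G k {x | G x y = e}` for some `e`,
`y`, and `fl x 0 = false` for all `x`.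
-/

/-- `s = 0`, `fl = false`, `k = 0`, `r = false`. -/
theorem FlipA.const {X Y : Type} [Nonempty X] (b : Bool) :
    FlipA (fun (_ : X) (_ : Y) => b) (fun _ _ => false) := by
  refine ⟨fun _ _ => 0, fun _ _ => false, 0, false, fun _ _ => rfl, fun _ _ => Nat.zero_le _, fun i => ?_,
    ⟨Classical.arbitrary X, trivial⟩, fun h => absurd h (by decide)⟩
  exact Blocky.const (decide (i ≤ 0))

/-- The same `s`, `fl`, `k`, `r`; `lit_not`. -/
theorem FlipA.not {X Y : Type} {G φ : X → Y → Bool} (h : FlipA G φ) : FlipA (fun x y => !(G x y)) φ := by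
  obtain ⟨s, fl, k, r, ha, hb, hc, hd, he⟩ := h
  refine ⟨s, fl, k, r, ha, hb, hc, lit_not hd, fun hr => ?_⟩
  obtain ⟨⟨e, y, hL⟩, h0⟩ := he hr
  refine ⟨⟨!e, y, ?_⟩, h0⟩
  refine (lit_not hL).mono ?_
  intro x hx
  show (!(G x y)) = !e
  rw [show G x y = e from hx]

/-- A step of Alice: `s' (x₁, x) y = s x y`, `fl' (x₁, x) i = if a x₁ then fl x i else false`, the same `k`, `r`.

Proof. Let `a x₁ = true`. (c) `Blocky.pull`. (d), (e): `lit_emb` with `x ↦ (x₁, x)`, `y ↦ y`. -/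
theorem FlipA.gateA {X Y X1 : Type} {G φ : X → Y → Bool} (a : X1 → Bool) (ha : ∃ x, a x = true) (e : Bool)
    (h : FlipA G φ) :
    FlipA (fun (x : X1 × X) (y : Y) => if a x.1 then G x.2 y else e)
      (fun (x : X1 × X) (y : Y) => if a x.1 then φ x.2 y else false) := by
  obtain ⟨s, fl, k, r, hφ, hb, hc, hd, he⟩ := h
  obtain ⟨x₁, hx₁⟩ := ha
  refine ⟨fun x y => s x.2 y, fun x i => if a x.1 then fl x.2 i else false, k, r, ?_, fun x y => hb x.2 y,
    fun i => (hc i).pull Prod.snd id, ?_, fun hr => ?_⟩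
  · rintro ⟨x, x'⟩ y
    show (if a x then φ x' y else false) = if a x then fl x' (s x' y) else false
    rw [hφ]
  · refine lit_emb (fun x => (x₁, x)) id (fun x _ => Set.mem_univ _) (fun x _ y => ?_) hd
    show (if a x₁ then G x y else e) = G x y
    rw [hx₁, if_pos rfl]
  · obtain ⟨⟨e', y, hL⟩, h0⟩ := he hr
    refine ⟨⟨e', y, ?_⟩, ?_⟩
    · refine lit_emb (fun x => (x₁, x)) id (fun x hx => ?_) (fun x _ y => ?_) hL
      · show (if a x₁ then G x y else e) = e'
        rw [hx₁, if_pos rfl]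
        exact hx
      · show (if a x₁ then G x y else e) = G x y
        rw [hx₁, if_pos rfl]
    · rintro ⟨x, x'⟩
      show (if a x then fl x' 0 else false) = false
      rw [h0 x', ite_self]

/-- A flip of Bob: `s' x (y₁, y) = s x y`, the same `fl`, `k`, `r`; `lit_emb` with `x ↦ x`, `y ↦ (y₁, y)` where
`b y₁ = false`. -/
theorem FlipA.xorB {X Y Y1 : Type} {G φ : X → Y → Bool} (b : Y1 → Bool) (hb : ∃ y, b y = false) (h : FlipA G φ) :
    FlipA (fun (x : X) (y : Y1 × Y) => Bool.xor (b y.1) (G x y.2)) (fun (x : X) (y : Y1 × Y) => φ x y.2) := by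
  obtain ⟨s, fl, k, r, hφ, hs, hc, hd, he⟩ := h
  obtain ⟨y₁, hy₁⟩ := hb
  refine ⟨fun x y => s x y.2, fl, k, r, fun x y => hφ x y.2, fun x y => hs x y.2,
    fun i => (hc i).pull id Prod.snd, ?_, fun hr => ?_⟩
  · refine lit_emb id (fun y => (y₁, y)) (fun x _ => Set.mem_univ _) (fun x _ y => ?_) hd
    show Bool.xor (b y₁) (G x y) = G x y
    rw [hy₁, Bool.false_xor]
  · obtain ⟨⟨e', y, hL⟩, h0⟩ := he hr
    refine ⟨⟨e', (y₁, y), ?_⟩, h0⟩
    refine lit_emb id (fun y => (y₁, y)) (fun x hx => ?_) (fun x _ y => ?_) hL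
    · show Bool.xor (b y₁) (G x y) = e'
      rw [hy₁, Bool.false_xor]
      exact hx
    · show Bool.xor (b y₁) (G x y) = G x y
      rw [hy₁, Bool.false_xor]

/-- A flip of Alice: `s' (x₁, x) y = s x y`, `fl' (x₁, x) i = a x₁ ⊕ fl x i`, `r' = false`, and `k' = k + 1` if
`r = true`, `k' = k` if `r = false`.

Proof. Let `a x₁ = true`, `a x₁' = false`, `G'` the new matrix. (b): if `r = true`, `s x y ≤ k + 1 = k'`. (d) for
`r = false`: `lit_emb` with `x ↦ (x₁', x)`. (d) for `r = true`: let `e`, `y₀` be as in (e), `A = {x | G x y₀ = e}`. In the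
column `y₀` of `G'` the rows `(x₁', x)`, `x ∈ A`, have the value `e` and the rows `(x₁, x)`, `x ∈ A`, have the value `!e`;
both sets of rows carry mistake trees of depth `k` for `G'` (`lit_flip` with `c = false` and `c = true`), so `Lit.join`
gives `Lit G' (k + 1) univ`. -/
theorem FlipA.xorA {X Y X1 : Type} {G φ : X → Y → Bool} (a : X1 → Bool) (ha : ∃ x, a x = true)
    (ha' : ∃ x, a x = false) (h : FlipA G φ) :
    FlipA (fun (x : X1 × X) (y : Y) => Bool.xor (a x.1) (G x.2 y))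
      (fun (x : X1 × X) (y : Y) => Bool.xor (a x.1) (φ x.2 y)) := by
  obtain ⟨s, fl, k, r, hφ, hs, hc, hd, he⟩ := h
  obtain ⟨x₁, hx₁⟩ := ha
  obtain ⟨x₂, hx₂⟩ := ha'
  cases r with
  | false =>
    refine ⟨fun x y => s x.2 y, fun x i => Bool.xor (a x.1) (fl x.2 i), k, false, ?_, fun x y => hs x.2 y,
      fun i => (hc i).pull Prod.snd id, ?_, fun hr => absurd hr (by decide)⟩
    · rintro ⟨x, x'⟩ y
      show Bool.xor (a x) (φ x' y) = Bool.xor (a x) (fl x' (s x' y))
      rw [hφ]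
    · refine lit_emb (fun x => (x₂, x)) id (fun x _ => Set.mem_univ _) (fun x _ y => ?_) hd
      show Bool.xor (a x₂) (G x y) = G x y
      rw [hx₂, Bool.false_xor]
  | true =>
    refine ⟨fun x y => s x.2 y, fun x i => Bool.xor (a x.1) (fl x.2 i), k + 1, false, ?_, fun x y => hs x.2 y,
      fun i => (hc i).pull Prod.snd id, ?_, fun hr => absurd hr (by decide)⟩
    · rintro ⟨x, x'⟩ y
      show Bool.xor (a x) (φ x' y) = Bool.xor (a x) (fl x' (s x' y))
      rw [hφ]
    · obtain ⟨⟨e, y₀, hL⟩, -⟩ := he rfl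
      have h1 : Lit (fun (x : X1 × X) (y : Y) => Bool.xor (a x.1) (G x.2 y)) k
          {x | a x.1 = false ∧ G x.2 y₀ = e} := by
        refine lit_flip false (fun x => (x₂, x)) id (fun x hx => ⟨hx₂, hx⟩) (fun x _ y => ?_) hL
        show Bool.xor (a x₂) (G x y) = Bool.xor false (G x y)
        rw [hx₂]
      have h2 : Lit (fun (x : X1 × X) (y : Y) => Bool.xor (a x.1) (G x.2 y)) k
          {x | a x.1 = true ∧ G x.2 y₀ = e} := by
        refine lit_flip true (fun x => (x₁, x)) id (fun x hx => ⟨hx₁, hx⟩) (fun x _ y => ?_) hL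
        show Bool.xor (a x₁) (G x y) = Bool.xor true (G x y)
        rw [hx₁]
      refine Lit.join (y := y₀) (b := e) (b' := !e) (Set.subset_univ _) (Set.subset_univ _) ?_ ?_ ?_ h1 h2
      · rintro ⟨x, x'⟩ ⟨h3, h4⟩
        show Bool.xor (a x) (G x' y₀) = e
        rw [show a x = false from h3, show G x' y₀ = e from h4, Bool.false_xor]
      · rintro ⟨x, x'⟩ ⟨h3, h4⟩
        show Bool.xor (a x) (G x' y₀) = !e
        rw [show a x = true from h3, show G x' y₀ = e from h4, Bool.true_xor]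
      · cases e <;> decide

end Pool.Agent.H.MP_dd1c2e_lc.RO
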