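import Pool.Agent.H.MP_dd1c2e_lc.ro.Bl
import Pool.Agent.H.MP_dd1c2e_lc.ro.Le

/-!
# The flips of Alice: two-sided steps and steps of Bob
-/

namespace Pool.Agent.H.MP_dd1c2e_lc.RO

open Finset Pool.Agent.H.MP_dd1c2e_lc.Alt

/-!
In the definition of `FlipA G φ`: `s`, `fl`, `k`, `r` with (a) `φ x y = fl x (s x y)`, (b) `s x y ≤ k + (if r then 1 else
0)`, (c) `i ≤ s x y` is blocky for all `i`, (d) `Lit G k univ`, (e) if `r = true`: `Lit G k {x | G x y = e}` for some `e`,
`y`, and `fl x 0 = false` for all `x`.
-/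

private theorem Sd2_gen {X Y X' Y' : Type} {G φ : X → Y → Bool} {g : X' → Y' → Bool}
    (hg : Blocky g) (pX : X' → X) (pY : Y' → Y) (i0 : X → X') (j0 : Y → Y')
    (h0 : ∀ x y, g (i0 x) (j0 y) = true) (hi0 : ∀ x, pX (i0 x) = x) (hj0 : ∀ y, pY (j0 y) = y)
    (i1 : X → X') (j2 : Y → Y') (yy : Y') (h1 : ∀ x, g (i1 x) yy = false)
    (h2 : ∀ x y, g (i1 x) (j2 y) = true) (hi1 : ∀ x, pX (i1 x) = x) (hj2 : ∀ y, pY (j2 y) = y)
    (e : Bool) (h : FlipA G φ) :
    FlipA (fun x y => if g x y then G (pX x) (pY y) else e)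
      (fun x y => if g x y then φ (pX x) (pY y) else false) := by
  obtain ⟨s, fl, k, r, ha, hb, hc, hd, he⟩ := h
  have hd' : Lit (fun x y => if g x y then G (pX x) (pY y) else e) k Set.univ := by
    refine lit_emb i0 j0 (fun x _ => Set.mem_univ _) (fun x _ y => ?_) hd
    rw [if_pos (h0 x y), hi0, hj0]
  have he' : ∃ (e' : Bool) (y : Y'), Lit (fun x y => if g x y then G (pX x) (pY y) else e) k
      {x | (if g x y then G (pX x) (pY y) else e) = e'} := by
    refine ⟨e, yy, lit_emb i1 j2 (fun x _ => ?_) (fun x _ y => ?_) hd⟩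
    · show (if g (i1 x) yy then G (pX (i1 x)) (pY yy) else e) = e
      rw [h1 x]
      rfl
    · rw [if_pos (h2 x y), hi1, hj2]
  cases r with
  | true =>
    refine ⟨fun x y => if g x y then s (pX x) (pY y) else 0, fun x i => fl (pX x) i, k, true,
      ?_, ?_, ?_, hd', fun _ => ⟨he', fun x => (he rfl).2 _⟩⟩
    · intro x y
      dsimp only
      cases hgx : g x y
      · simp only [Bool.false_eq_true, if_false]
        exact ((he rfl).2 _).symm
      · simp only [if_true]
        exact ha _ _
    · intro x y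
      dsimp only
      cases hgx : g x y
      · exact Nat.zero_le _
      · exact hb _ _
    · intro i
      cases i with
      | zero =>
        have h3 : (fun (x : X') (y : Y') => decide (0 ≤ if g x y then s (pX x) (pY y) else 0)) =
            fun _ _ => true := by
          funext x y
          exact decide_eq_true (Nat.zero_le _)
        rw [h3]
        exact Blocky.const true
      | succ i =>
        have h3 : (fun (x : X') (y : Y') => decide (i + 1 ≤ if g x y then s (pX x) (pY y) else 0)) =
            fun x y => g x y && decide (i + 1 ≤ s (pX x) (pY y)) := by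
          funext x y
          cases hgx : g x y <;> simp
        rw [h3]
        exact hg.and ((hc (i + 1)).pull pX pY)
  | false =>
    refine ⟨fun x y => if g x y then s (pX x) (pY y) + 1 else 0,
      fun x i => match i with
        | 0 => false
        | i + 1 => fl (pX x) i, k, true,
      ?_, ?_, ?_, hd', fun _ => ⟨he', fun x => rfl⟩⟩
    · intro x y
      dsimp only
      cases hgx : g x y
      · simp
      · simp only [if_true]
        exact ha _ _
    · intro x y
      dsimp only
      have h3 := hb (pX x) (pY y)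
      simp only [Bool.false_eq_true, if_false, add_zero] at h3
      cases hgx : g x y
      · exact Nat.zero_le _
      · exact Nat.succ_le_succ h3
    · intro i
      cases i with
      | zero =>
        have h3 : (fun (x : X') (y : Y') =>
            decide (0 ≤ if g x y then s (pX x) (pY y) + 1 else 0)) = fun _ _ => true := by
          funext x y
          exact decide_eq_true (Nat.zero_le _)
        rw [h3]
        exact Blocky.const true
      | succ i =>
        have h3 : (fun (x : X') (y : Y') =>
            decide (i + 1 ≤ if g x y then s (pX x) (pY y) + 1 else 0)) =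
            fun x y => g x y && decide (i ≤ s (pX x) (pY y)) := by
          funext x y
          cases hgx : g x y <;> simp
        rw [h3]
        exact hg.and ((hc i).pull pX pY)

/-- A step that is not decided by Alice alone: it joins the first group if `r = true` and opens a new group if `r = false`.
This covers two-sided steps and steps of Bob (`X1 = Unit`-like).

Let `k' = k`, `r' = true`. If `r = true`: `s' (x₁, x) (y₁, y) = if g x₁ y₁ then s x y else 0`,
`fl' (x₁, x) i = fl x i`. If `r = false`: `s' (x₁, x) (y₁, y) = if g x₁ y₁ then s x y + 1 else 0`,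
`fl' (x₁, x) 0 = false`, `fl' (x₁, x) (i + 1) = fl x i`.

Proof. Let `G'` be the new matrix, `g p₀ q₀ = true` and `g p₁ q₁ = false`, `g p₁ q₂ = true`. (a) by cases (if `g x₁ y₁` is
false, both sides are `false`, in the case `r = true` by (e)). (b) `s x y + 1 ≤ k + 1`. (c) for `i = 0` the matrix is
constant `true`; for `i ≥ 1` it is the conjunction of `g x₁ y₁` and of `i ≤ s x y` (if `r = true`) or `i - 1 ≤ s x y`
(if `r = false`): `Blocky.and`, `Blocky.pull`. (d): `lit_emb` with `x ↦ (p₀, x)`, `y ↦ (q₀, y)`. (e): in the column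
`(q₁, y)` (any `y`) all rows `(p₁, x)` have the value `e`, and `lit_emb` with `x ↦ (p₁, x)`, `y ↦ (q₂, y)` gives
`Lit G' k {x' | G' x' (q₁, y) = e}`. (If `Y` is empty there is no such `y`: therefore the hypothesis `Nonempty Y`.) -/
theorem FlipA.gate {X Y X1 Y1 : Type} [Nonempty Y] {G φ : X → Y → Bool} {g : X1 → Y1 → Bool} (hg : Blocky g)
    (h1 : ∃ p q, g p q = true) (h2 : ∃ p q q', g p q = false ∧ g p q' = true) (e : Bool) (h : FlipA G φ) :
    FlipA (fun (x : X1 × X) (y : Y1 × Y) => if g x.1 y.1 then G x.2 y.2 else e)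
      (fun (x : X1 × X) (y : Y1 × Y) => if g x.1 y.1 then φ x.2 y.2 else false) := by
  obtain ⟨p0, q0, h0⟩ := h1
  obtain ⟨p1, q1, q2, h3, h4⟩ := h2
  obtain ⟨y0⟩ := (inferInstance : Nonempty Y)
  exact Sd2_gen (g := fun (x : X1 × X) (y : Y1 × Y) => g x.1 y.1) (hg.pull Prod.fst Prod.fst) Prod.snd Prod.snd
    (fun x => (p0, x)) (fun y => (q0, y)) (fun _ _ => h0) (fun _ => rfl) (fun _ => rfl)
    (fun x => (p1, x)) (fun y => (q2, y)) (q1, y0) (fun _ => h3) (fun _ _ => h4) (fun _ => rfl)
    (fun _ => rfl) e h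

/-- A step of Bob: the same proof (or relabel `FlipA.gate` with `X1 = Unit`, `g _ y₁ = b y₁`). -/
theorem FlipA.gateB {X Y Y1 : Type} [Nonempty Y] {G φ : X → Y → Bool} (b : Y1 → Bool) (hb : ∃ y, b y = true)
    (hb' : ∃ y, b y = false) (e : Bool) (h : FlipA G φ) :
    FlipA (fun (x : X) (y : Y1 × Y) => if b y.1 then G x y.2 else e)
      (fun (x : X) (y : Y1 × Y) => if b y.1 then φ x y.2 else false) := by
  obtain ⟨q0, h0⟩ := hb
  obtain ⟨q1, h3⟩ := hb'
  obtain ⟨y0⟩ := (inferInstance : Nonempty Y)
  exact Sd2_gen (g := fun (_ : X) (y : Y1 × Y) => b y.1) (Blocky.ofB fun y : Y1 × Y => b y.1) id Prod.snd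
    id (fun y => (q0, y)) (fun _ _ => h0) (fun _ => rfl) (fun _ => rfl)
    id (fun y => (q0, y)) (q1, y0) (fun _ => h3) (fun _ _ => h0) (fun _ => rfl)
    (fun _ => rfl) e h

end Pool.Agent.H.MP_dd1c2e_lc.RO
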