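import Pool.Agent.H.MP_dd1c2e_lc.ro.Gd3
import Pool.Agent.H.MP_dd1c2e_lc.ro.Sd1
import Pool.Agent.H.MP_dd1c2e_lc.ro.Sd2

/-!
# Chain functions: steps of Alice or Bob
-/

namespace Pool.Agent.H.MP_dd1c2e_lc.RO

open Finset Pool.Agent.H.MP_dd1c2e_lc.Alt

/-- A step of Alice with the value `e`.

`φA' (x₁, x) y = if a x₁ then φA x y else false`, the same for `φB`, `oA' (x₁, x) = if a x₁ then oA x else e`,
`Gc' c (x₁, x) y = if c = e then (if a x₁ then Gc c x y else e) else Gc c x y`.
The identity: if `a x₁ = false` then `G' = e` and the right side is `false ⊕ false ⊕ Gc' e = e`. If `a x₁ = true` the right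
side is `φA x y ⊕ φB x y ⊕ Gc' (oA x) (x₁, x) y` and `Gc' (oA x) (x₁, x) y = Gc (oA x) x y` in both cases.
`FlipA.gateA` for `φA`; for `φB` use `FlipA.gateB` for the transposed matrices. `Good`: for `c = e` `Good.gateA`, otherwise
`Good.liftX`. `Sub G' (Gc' c)`: let `Gc c x y = G (p x) (p' y)`, `a x₁⁺ = true`. For `c = e`: `(x₁, x) ↦ (x₁, p x)`,
`y ↦ p' y`; for `c ≠ e`: `(x₁, x) ↦ (x₁⁺, p x)`. -/
theorem Ev.gateA {X Y X1 : Type} [Finite X1] [Nonempty X] [Nonempty Y] {G : X → Y → Bool} (a : X1 → Bool)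
    (ha : ∃ x, a x = true) (ha' : ∃ x, a x = false) (e : Bool) (h : Ev G) :
    Ev (fun (x : X1 × X) (y : Y) => if a x.1 then G x.2 y else e) := by
  obtain ⟨φA, φB, oA, Gc, hG, hA, hB, hc⟩ := h
  obtain ⟨x1, hx1⟩ := ha
  have hne : Nonempty X1 := ⟨x1⟩
  refine ⟨fun x y => if a x.1 then φA x.2 y else false, fun x y => if a x.1 then φB x.2 y else false,
    fun x => if a x.1 then oA x.2 else e,
    fun c x y => if c = e then (if a x.1 then Gc c x.2 y else e) else Gc c x.2 y, ?_,
    FlipA.gateA a ⟨x1, hx1⟩ e hA, FlipA.gateB a ⟨x1, hx1⟩ ha' e hB, fun c => ?_⟩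
  · intro x y
    by_cases hx : a x.1 = true
    · simp only [hx, if_true, ite_self]
      exact hG _ _
    · simp [hx]
  · obtain ⟨hgood, p, p', hp⟩ := hc c
    by_cases hce : c = e
    · subst hce
      simp only [if_true]
      refine ⟨Good.gateA a ⟨x1, hx1⟩ ha' hgood, fun x => (x.1, p x.2), p', fun x y => ?_⟩
      by_cases hx : a x.1 = true
      · simp only [hx, if_true]
        exact hp _ _
      · simp [hx]
    · simp only [if_neg hce]
      refine ⟨Good.liftX X1 hgood, fun x => (x1, p x.2), p', fun x y => ?_⟩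
      simp only [hx1, if_true]
      exact hp _ _

/-- A step of Bob with the value `e`: `φA' x (y₁, y) = if b y₁ then φA x y else false`, the same for `φB`, `oA' = oA`,
`Gc' c x (y₁, y) = if b y₁ then Gc c x y else e`. `FlipA.gateB` for `φA`, `FlipA.gateA` for the transposed matrices for
`φB`, `Good.gateB`. -/
theorem Ev.gateB {X Y Y1 : Type} [Nonempty X] [Nonempty Y] {G : X → Y → Bool} (b : Y1 → Bool)
    (hb : ∃ y, b y = true) (hb' : ∃ y, b y = false) (e : Bool) (h : Ev G) :
    Ev (fun (x : X) (y : Y1 × Y) => if b y.1 then G x y.2 else e) := by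
  obtain ⟨φA, φB, oA, Gc, hG, hA, hB, hc⟩ := h
  refine ⟨fun x y => if b y.1 then φA x y.2 else false, fun x y => if b y.1 then φB x y.2 else false,
    oA, fun c x y => if b y.1 then Gc c x y.2 else e, ?_,
    FlipA.gateB b hb hb' e hA, FlipA.gateA b hb e hB, fun c => ?_⟩
  · intro x y
    by_cases hy : b y.1 = true
    · simp only [hy, if_true]
      exact hG _ _
    · simp [hy]
  · obtain ⟨hgood, p, p', hp⟩ := hc c
    refine ⟨Good.gateB b hb hb' e hgood, p, fun y => (y.1, p' y.2), fun x y => ?_⟩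
    by_cases hy : b y.1 = true
    · simp only [hy, if_true]
      exact hp _ _
    · simp [hy]

end Pool.Agent.H.MP_dd1c2e_lc.RO
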