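import Pool.Agent.H.MP_dd1c2e_lc.ro.Gd3
import Pool.Agent.H.MP_dd1c2e_lc.ro.Sd1
import Pool.Agent.H.MP_dd1c2e_lc.ro.Sd2

/-!
# Chain functions: flips of Alice or Bob
-/

namespace Pool.Agent.H.MP_dd1c2e_lc.RO

open Finset Pool.Agent.H.MP_dd1c2e_lc.Alt

/-- A flip of Alice: `φA' (x₁, x) y = a x₁ ⊕ φA x y`, `φB' (x₁, x) y = φB x y`, `oA' (x₁, x) = oA x`,
`Gc' c (x₁, x) y = Gc c x y`. `FlipA.xorA` for `φA`; `FlipA.xorB` for the transposed matrices for `φB`; `Good.liftX`.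
`Sub`: `(x₁, x) ↦ (x₁⁰, p x)` with `a x₁⁰ = false`. -/
theorem Ev.xorA {X Y X1 : Type} [Finite X1] {G : X → Y → Bool} (a : X1 → Bool) (ha : ∃ x, a x = true)
    (ha' : ∃ x, a x = false) (h : Ev G) :
    Ev (fun (x : X1 × X) (y : Y) => Bool.xor (a x.1) (G x.2 y)) := by
  obtain ⟨φA, φB, oA, Gc, hid, hA, hB, hG⟩ := h
  haveI : Nonempty X1 := ⟨ha.choose⟩
  refine ⟨fun x y => Bool.xor (a x.1) (φA x.2 y), fun x y => φB x.2 y, fun x => oA x.2,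
    fun c x y => Gc c x.2 y, fun x y => ?_, FlipA.xorA a ha ha' hA, ?_, fun c => ⟨?_, ?_⟩⟩
  · show Bool.xor (a x.1) (G x.2 y) = Bool.xor (Bool.xor (a x.1) (φA x.2 y))
      (Bool.xor (φB x.2 y) (Gc (oA x.2) x.2 y))
    rw [hid, Bool.xor_assoc]
  · exact FlipA.xorB (G := fun y x => G x y) (φ := fun y x => φB x y) a ha' hB
  · exact Good.liftX X1 (hG c).1
  · obtain ⟨x0, hx0⟩ := ha'
    obtain ⟨p, p', hp⟩ := (hG c).2
    refine ⟨fun x => (x0, p x.2), p', fun x y => ?_⟩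
    show Bool.xor (a x0) (G (p x.2) (p' y)) = Gc c x.2 y
    rw [hx0, Bool.false_xor]
    exact hp x.2 y

/-- A flip of Bob: `φA' x (y₁, y) = φA x y`, `φB' x (y₁, y) = b y₁ ⊕ φB x y`, `oA' = oA`, `Gc' c x (y₁, y) = Gc c x y`.
`FlipA.xorB` for `φA`; `FlipA.xorA` for the transposed matrices for `φB`; `Good.liftY`. -/
theorem Ev.xorB {X Y Y1 : Type} {G : X → Y → Bool} (b : Y1 → Bool) (hb : ∃ y, b y = true)
    (hb' : ∃ y, b y = false) (h : Ev G) :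
    Ev (fun (x : X) (y : Y1 × Y) => Bool.xor (b y.1) (G x y.2)) := by
  obtain ⟨φA, φB, oA, Gc, hid, hA, hB, hG⟩ := h
  haveI : Nonempty Y1 := ⟨hb.choose⟩
  refine ⟨fun x y => φA x y.2, fun x y => Bool.xor (b y.1) (φB x y.2), oA,
    fun c x y => Gc c x y.2, fun x y => ?_, FlipA.xorB b hb' hA, ?_, fun c => ⟨?_, ?_⟩⟩
  · show Bool.xor (b y.1) (G x y.2) = Bool.xor (φA x y.2)
      (Bool.xor (Bool.xor (b y.1) (φB x y.2)) (Gc (oA x) x y.2))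
    rw [hid, Bool.xor_assoc (b y.1), Bool.xor_left_comm]
  · exact FlipA.xorA (G := fun y x => G x y) (φ := fun y x => φB x y) b hb hb' hB
  · exact Good.liftY Y1 (hG c).1
  · obtain ⟨y0, hy0⟩ := hb'
    obtain ⟨p, p', hp⟩ := (hG c).2
    refine ⟨p, fun y => (y0, p' y.2), fun x y => ?_⟩
    show Bool.xor (b y0) (G (p x) (p' y.2)) = Gc c x y.2
    rw [hy0, Bool.false_xor]
    exact hp x y.2

end Pool.Agent.H.MP_dd1c2e_lc.RO
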