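import Pool.Agent.H.MP_dd1c2e_lc.ro.Ev1
import Pool.Agent.H.MP_dd1c2e_lc.ro.Ev2
import Pool.Agent.H.MP_dd1c2e_lc.ro.Ev3

/-!
# Chains
-/

namespace Pool.Agent.H.MP_dd1c2e_lc.RO

open Finset Pool.Agent.H.MP_dd1c2e_lc.Alt

/-!
`CH u v fA fB` says: `u` is blocky, has an entry `true`, and for both `b` the matrix
`cf u v fA fB b = (if u then fA ⊕ fB ⊕ b else v)` satisfies `Ev`. In every proof: `Blocky.and`, `Blocky.pull`,
`Blocky.ofA`, `Blocky.ofB` for the first part, and for the third part rewrite `cf` of the new chain (by cases on the bits) as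
the new matrix in the corresponding lemma on `Ev`.
-/

private lemma ev_congr {X Y : Type} {F G : X → Y → Bool} (h : Ev G) (hFG : ∀ x y, F x y = G x y) :
    Ev F := by
  have : F = G := by
    funext x y
    exact hFG x y
  rw [this]
  exact h

/-- The empty chain; `cf` is constant `b`. -/
theorem CH.nil : CH (fun (_ : Unit) (_ : Unit) => true) (fun _ _ => false) (fun _ => false) (fun _ => false) := by
  refine ⟨Blocky.const true, ⟨(), (), rfl⟩, fun b => ?_⟩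
  refine ev_congr (Ev.const b) fun x y => ?_
  unfold cf
  beta_reduce
  cases b <;> rfl

/-- `cf u (!v) fA fB b = !(cf u v fA fB (!b))`. -/
theorem CH.not {X Y : Type} {u v : X → Y → Bool} {fA : X → Bool} {fB : Y → Bool} (h : CH u v fA fB) :
    CH u (fun x y => !(v x y)) fA fB := by
  obtain ⟨h1, h2, h3⟩ := h
  refine ⟨h1, h2, fun b => ?_⟩
  refine ev_congr (h3 (!b)).not fun x y => ?_
  unfold cf
  beta_reduce
  cases u x y <;> cases v x y <;> cases fA x <;> cases fB y <;> cases b <;> rfl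

/-- `cf` of the new chain is `if g then cf u v fA fB b else e`: `Ev.gate`. (`X`, `Y` are nonempty by the second part of
`CH u v fA fB`.) -/
theorem CH.gate {X Y X1 Y1 : Type} [Finite X1] {u v : X → Y → Bool} {fA : X → Bool} {fB : Y → Bool}
    {g : X1 → Y1 → Bool} (hg : TwoBlocky g) (e : Bool) (h : CH u v fA fB) :
    CH (fun (x : X1 × X) (y : Y1 × Y) => g x.1 y.1 && u x.2 y.2)
      (fun (x : X1 × X) (y : Y1 × Y) => if g x.1 y.1 then v x.2 y.2 else e) (fun x => fA x.2) (fun y => fB y.2) := by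
  obtain ⟨h1, ⟨x0, y0, h2⟩, h3⟩ := h
  haveI : Nonempty X := ⟨x0⟩
  haveI : Nonempty Y := ⟨y0⟩
  obtain ⟨x1, x1', y1, y1', g1, g2, g3, g4⟩ := hg.2
  refine ⟨Blocky.and (hg.1.pull Prod.fst Prod.fst) (h1.pull Prod.snd Prod.snd),
    ⟨(x1, x0), (y1, y0), ?_⟩, fun b => ?_⟩
  · simp only
    rw [g1, h2]
    rfl
  · refine ev_congr ((h3 b).gate hg e) fun x y => ?_
    unfold cf
    beta_reduce
    cases g x.1 y.1 <;> cases u x.2 y.2 <;> rfl

/-- `Ev.gateA`. -/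
theorem CH.gateA {X Y X1 : Type} [Finite X1] {u v : X → Y → Bool} {fA : X → Bool} {fB : Y → Bool}
    (a : X1 → Bool) (ha : ∃ x, a x = true) (ha' : ∃ x, a x = false) (e : Bool) (h : CH u v fA fB) :
    CH (fun (x : X1 × X) (y : Y) => a x.1 && u x.2 y)
      (fun (x : X1 × X) (y : Y) => if a x.1 then v x.2 y else e) (fun x => fA x.2) fB := by
  obtain ⟨h1, ⟨x0, y0, h2⟩, h3⟩ := h
  haveI : Nonempty X := ⟨x0⟩
  haveI : Nonempty Y := ⟨y0⟩
  obtain ⟨x1, g1⟩ := ha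
  refine ⟨Blocky.and (Blocky.ofA (fun x : X1 × X => a x.1)) (h1.pull Prod.snd id),
    ⟨(x1, x0), y0, ?_⟩, fun b => ?_⟩
  · simp only
    rw [g1, h2]
    rfl
  · refine ev_congr ((h3 b).gateA a ⟨x1, g1⟩ ha' e) fun x y => ?_
    unfold cf
    beta_reduce
    cases a x.1 <;> cases u x.2 y <;> rfl

/-- `Ev.gateB`. -/
theorem CH.gateB {X Y Y1 : Type} {u v : X → Y → Bool} {fA : X → Bool} {fB : Y → Bool}
    (b : Y1 → Bool) (hb : ∃ y, b y = true) (hb' : ∃ y, b y = false) (e : Bool) (h : CH u v fA fB) :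
    CH (fun (x : X) (y : Y1 × Y) => b y.1 && u x y.2)
      (fun (x : X) (y : Y1 × Y) => if b y.1 then v x y.2 else e) fA (fun y => fB y.2) := by
  obtain ⟨h1, ⟨x0, y0, h2⟩, h3⟩ := h
  haveI : Nonempty X := ⟨x0⟩
  haveI : Nonempty Y := ⟨y0⟩
  obtain ⟨y1, g1⟩ := hb
  refine ⟨Blocky.and (Blocky.ofB (fun y : Y1 × Y => b y.1)) (h1.pull id Prod.snd),
    ⟨x0, (y1, y0), ?_⟩, fun c => ?_⟩
  · simp only
    rw [g1, h2]
    rfl
  · refine ev_congr ((h3 c).gateB b ⟨y1, g1⟩ hb' e) fun x y => ?_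
    unfold cf
    beta_reduce
    cases b y.1 <;> cases u x y.2 <;> rfl

/-- `Ev.xorA`: `cf` of the new chain is `a x₁ ⊕ cf u v fA fB b x y`. -/
theorem CH.xorA {X Y X1 : Type} [Finite X1] {u v : X → Y → Bool} {fA : X → Bool} {fB : Y → Bool}
    (a : X1 → Bool) (ha : ∃ x, a x = true) (ha' : ∃ x, a x = false) (h : CH u v fA fB) :
    CH (fun (x : X1 × X) (y : Y) => u x.2 y) (fun (x : X1 × X) (y : Y) => Bool.xor (a x.1) (v x.2 y))
      (fun x => Bool.xor (a x.1) (fA x.2)) fB := by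
  obtain ⟨h1, ⟨x0, y0, h2⟩, h3⟩ := h
  obtain ⟨x1, g1⟩ := ha
  refine ⟨h1.pull Prod.snd id, ⟨(x1, x0), y0, h2⟩, fun b => ?_⟩
  refine ev_congr ((h3 b).xorA a ⟨x1, g1⟩ ha') fun x y => ?_
  unfold cf
  beta_reduce
  cases a x.1 <;> cases u x.2 y <;> cases v x.2 y <;> cases fA x.2 <;> cases fB y <;> cases b <;> rfl

/-- `Ev.xorB`. -/
theorem CH.xorB {X Y Y1 : Type} {u v : X → Y → Bool} {fA : X → Bool} {fB : Y → Bool}
    (b : Y1 → Bool) (hb : ∃ y, b y = true) (hb' : ∃ y, b y = false) (h : CH u v fA fB) :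
    CH (fun (x : X) (y : Y1 × Y) => u x y.2) (fun (x : X) (y : Y1 × Y) => Bool.xor (b y.1) (v x y.2)) fA
      (fun y => Bool.xor (b y.1) (fB y.2)) := by
  obtain ⟨h1, ⟨x0, y0, h2⟩, h3⟩ := h
  obtain ⟨y1, g1⟩ := hb
  refine ⟨h1.pull id Prod.snd, ⟨x0, (y1, y0), h2⟩, fun c => ?_⟩
  refine ev_congr ((h3 c).xorB b ⟨y1, g1⟩ hb') fun x y => ?_
  unfold cf
  beta_reduce
  cases b y.1 <;> cases u x y.2 <;> cases v x y.2 <;> cases fA x <;> cases fB y.2 <;> cases c <;> rfl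

end Pool.Agent.H.MP_dd1c2e_lc.RO
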