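import Pool.Agent.H.MP_dd1c2e_lc.alt.D

/-!
# Read-once compositions

The remaining definition used in the statement of the result on read-once compositions.
-/

namespace Pool.Agent.H.MP_dd1c2e_lc.RO

/-- `ReadOnce 𝒢 X Y F`: the function `F` of an input `x : X` of Alice and an input `y : Y` of Bob is a read-once
composition of functions from the class `𝒢`: it is built from members of `𝒢` by the connectives not, and, or, xor, where
the two arguments of a binary connective are functions of disjoint parts of the input. -/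
inductive ReadOnce (𝒢 : (X Y : Type) → (X → Y → Bool) → Prop) : (X Y : Type) → (X → Y → Bool) → Prop
  | leaf (X Y : Type) (g : X → Y → Bool) (h : 𝒢 X Y g) : ReadOnce 𝒢 X Y g
  | not (X Y : Type) (F : X → Y → Bool) (h : ReadOnce 𝒢 X Y F) : ReadOnce 𝒢 X Y (fun x y => !(F x y))
  | and (X Y X' Y' : Type) (F : X → Y → Bool) (F' : X' → Y' → Bool) (h : ReadOnce 𝒢 X Y F) (h' : ReadOnce 𝒢 X' Y' F') :
      ReadOnce 𝒢 (X × X') (Y × Y') (fun x y => F x.1 y.1 && F' x.2 y.2)
  | or (X Y X' Y' : Type) (F : X → Y → Bool) (F' : X' → Y' → Bool) (h : ReadOnce 𝒢 X Y F) (h' : ReadOnce 𝒢 X' Y' F') :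
      ReadOnce 𝒢 (X × X') (Y × Y') (fun x y => F x.1 y.1 || F' x.2 y.2)
  | xor (X Y X' Y' : Type) (F : X → Y → Bool) (F' : X' → Y' → Bool) (h : ReadOnce 𝒢 X Y F) (h' : ReadOnce 𝒢 X' Y' F') :
      ReadOnce 𝒢 (X × X') (Y × Y') (fun x y => Bool.xor (F x.1 y.1) (F' x.2 y.2))

end Pool.Agent.H.MP_dd1c2e_lc.RO
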