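import Pool.Agent.H.MP_dd1c2e_lc.ro.Pt2

/-!
# The norm of the pattern matrix
-/

namespace Pool.Agent.H.MP_dd1c2e_lc.RO

open Finset

/-- The number of extensions of a partial selector is `2^(t - |dm T|)`. (The extensions correspond to the functions on the
complement of `dm T`; e.g. the product over `i` of the number of admissible values, `Fintype.card_piFinset`.) -/
theorem card_ext {t : ℕ} (T : Fin t → Option Bool) :
    (univ.filter fun V : Fin t → Bool => Ext T V).card * 2 ^ (dm T).card = 2 ^ t := by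
  have h1 : (univ.filter fun V : Fin t → Bool => Ext T V) =
      Fintype.piFinset (fun i => (match T i with | none => (univ : Finset Bool) | some b => {b})) := by
    ext V
    simp only [mem_filter, mem_univ, true_and, Fintype.mem_piFinset]
    unfold Ext
    constructor
    · intro h i
      cases hT : T i with
      | none => simp
      | some b => simp [h i b hT]
    · intro h i b hb
      have := h i
      rw [hb] at this
      simpa using this
  have h2 : (2 : ℕ) ^ (dm T).card = ∏ i, (if (T i).isSome = true then 2 else 1) := by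
    rw [Finset.prod_ite]
    simp [dm]
  rw [h1, Fintype.card_piFinset, h2, ← Finset.prod_mul_distrib]
  have h3 : ∀ i : Fin t, ((match T i with | none => (univ : Finset Bool) | some b => {b}) : Finset Bool).card *
      (if (T i).isSome = true then 2 else 1) = 2 := by
    intro i
    cases T i <;> simp
  rw [Finset.prod_congr rfl (fun i _ => h3 i)]
  simp

/-- Double counting: `∑_T ∑_{V extends T} g (dm T) V = ∑_S ∑_V g S V` (the pairs `(T, V)` with `Ext T V` correspond to the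
pairs `(S, V)` by `T = rst S V`; `ext_iff_rst`, `dm_rst`). -/
theorem sum_ext {t : ℕ} (g : Finset (Fin t) → (Fin t → Bool) → ℝ) :
    ∑ T : Fin t → Option Bool, ∑ V ∈ univ.filter (fun V => Ext T V), g (dm T) V = ∑ S, ∑ V, g S V := by
  have h1 : ∑ T : Fin t → Option Bool, ∑ V ∈ univ.filter (fun V => Ext T V), g (dm T) V =
      ∑ V : Fin t → Bool, ∑ T ∈ univ.filter (fun T : Fin t → Option Bool => Ext T V), g (dm T) V := by
    simp only [Finset.sum_filter]
    exact Finset.sum_comm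
  rw [h1]
  have h2 : ∑ S, ∑ V, g S V = ∑ V : Fin t → Bool, ∑ S, g S V := Finset.sum_comm
  rw [h2]
  refine Finset.sum_congr rfl (fun V _ => ?_)
  refine Finset.sum_nbij' (fun T => dm T) (fun S => rst S V) ?_ ?_ ?_ ?_ ?_
  · intro T _
    exact mem_univ _
  · intro S _
    rw [mem_filter]
    refine ⟨mem_univ _, ?_⟩
    rw [ext_iff_rst, dm_rst]
  · intro T hT
    rw [mem_filter] at hT
    exact (ext_iff_rst T V).1 hT.2
  · intro S _
    exact dm_rst S V
  · intro T _
    rfl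

/-- The norm of the pattern matrix (Sherstov).

Proof. `pat_expand` and `chT_parseval`: the left side is `4^t ∑_T |hat ψ (dm T)|² ‖∑_{V ext T} cS v (dm T) V‖²`. For
`|dm T| < d` the coefficient is `0`. For `|dm T| ≥ d`: `|hat ψ| ≤ M / 2^t` (`hat_le`), and by Cauchy-Schwarz and `card_ext`
`‖∑_{V ext T} ..‖² ≤ 2^(t - |dm T|) ∑_{V ext T} ‖..‖² ≤ 2^t / 2^d ∑_{V ext T} ‖cS v (dm T) V‖²`. With `sum_ext` and
`chi_parseval` the left side is at most `4^t (M / 2^t)² (2^t / 2^d) ∑_V ∑_S ‖cS v S V‖² =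
M² (2^t / 2^d) ∑_V 2^t ∑_w ‖v (V, w)‖² = M² 4^t / 2^d ∑_p ‖v p‖²`. -/
theorem pat_norm {t : ℕ} (ψ : (Fin t → Bool) → ℝ) (d : ℕ) (M : ℝ) (hM : ∑ z, |ψ z| ≤ M)
    (hd : ∀ S : Finset (Fin t), S.card < d → hat ψ S = 0) (v : (Fin t → Bool) × (Fin t → Bool) → ℂ) :
    ∑ x : Fin t → Bool → Bool, ‖∑ p, (ψ (pt x p) : ℂ) * v p‖ ^ 2 ≤ M ^ 2 * 4 ^ t / 2 ^ d * ∑ p, ‖v p‖ ^ 2 := by
  have h2t : (0 : ℝ) < 2 ^ t := by positivity
  have h2d : (0 : ℝ) < 2 ^ d := by positivity
  have e1 : ∑ x : Fin t → Bool → Bool, ‖∑ p, (ψ (pt x p) : ℂ) * v p‖ ^ 2 =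
      4 ^ t * ∑ T : Fin t → Option Bool,
        ‖(hat ψ (dm T) : ℂ) * ∑ V ∈ univ.filter (fun V => Ext T V), cS v (dm T) V‖ ^ 2 := by
    rw [← chT_parseval]
    refine Finset.sum_congr rfl (fun x _ => ?_)
    rw [pat_expand]
  have e2 : ∀ T : Fin t → Option Bool,
      ‖(hat ψ (dm T) : ℂ) * ∑ V ∈ univ.filter (fun V => Ext T V), cS v (dm T) V‖ ^ 2 ≤
        ((M / 2 ^ t) ^ 2 * (2 ^ t / 2 ^ d)) * ∑ V ∈ univ.filter (fun V => Ext T V), ‖cS v (dm T) V‖ ^ 2 := by
    intro T
    have hnn : 0 ≤ ∑ V ∈ univ.filter (fun V => Ext T V), ‖cS v (dm T) V‖ ^ 2 :=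
      Finset.sum_nonneg (fun _ _ => by positivity)
    by_cases hc : (dm T).card < d
    · rw [hd _ hc]
      have : ‖((0 : ℝ) : ℂ) * ∑ V ∈ univ.filter (fun V => Ext T V), cS v (dm T) V‖ ^ 2 = 0 := by simp
      rw [this]
      positivity
    · push Not at hc
      have hcard : (((univ.filter fun V : Fin t → Bool => Ext T V).card : ℕ) : ℝ) ≤ 2 ^ t / 2 ^ d := by
        rw [le_div_iff₀ h2d]
        have h3 : (((univ.filter fun V : Fin t → Bool => Ext T V).card : ℕ) : ℝ) * 2 ^ (dm T).card = 2 ^ t := by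
          exact_mod_cast card_ext T
        rw [← h3]
        refine mul_le_mul_of_nonneg_left ?_ (by positivity)
        exact pow_le_pow_right₀ (by norm_num) hc
      have hh : |hat ψ (dm T)| ≤ M / 2 ^ t :=
        (hat_le ψ (dm T)).trans (div_le_div_of_nonneg_right hM h2t.le)
      have hM0 : 0 ≤ M / 2 ^ t := (abs_nonneg _).trans hh
      have hh2 : ‖(hat ψ (dm T) : ℂ)‖ ^ 2 ≤ (M / 2 ^ t) ^ 2 := by
        rw [Complex.norm_real, Real.norm_eq_abs]
        exact pow_le_pow_left₀ (abs_nonneg _) hh 2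
      have hs : ‖∑ V ∈ univ.filter (fun V => Ext T V), cS v (dm T) V‖ ^ 2 ≤
          (2 ^ t / 2 ^ d) * ∑ V ∈ univ.filter (fun V => Ext T V), ‖cS v (dm T) V‖ ^ 2 := by
        have h4 : ‖∑ V ∈ univ.filter (fun V => Ext T V), cS v (dm T) V‖ ^ 2 ≤
            (∑ V ∈ univ.filter (fun V => Ext T V), ‖cS v (dm T) V‖) ^ 2 :=
          pow_le_pow_left₀ (norm_nonneg _) (norm_sum_le _ _) 2
        have h5 := sq_sum_le_card_mul_sum_sq (s := univ.filter (fun V => Ext T V)) (f := fun V => ‖cS v (dm T) V‖)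
        refine h4.trans (h5.trans ?_)
        exact mul_le_mul_of_nonneg_right hcard hnn
      rw [norm_mul, mul_pow, mul_assoc]
      exact mul_le_mul hh2 hs (by positivity) (by positivity)
  have e3 : ∑ T : Fin t → Option Bool, ∑ V ∈ univ.filter (fun V => Ext T V), ‖cS v (dm T) V‖ ^ 2 =
      2 ^ t * ∑ p, ‖v p‖ ^ 2 := by
    have h6 := sum_ext (t := t) (fun S V => ‖cS v S V‖ ^ 2)
    rw [h6, Finset.sum_comm]
    have h7 : ∀ V : Fin t → Bool, ∑ S : Finset (Fin t), ‖cS v S V‖ ^ 2 = 2 ^ t * ∑ w, ‖v (V, w)‖ ^ 2 := by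
      intro V
      exact chi_parseval (fun w => v (V, w))
    rw [Finset.sum_congr rfl (fun V _ => h7 V), ← Finset.mul_sum, Fintype.sum_prod_type]
  rw [e1]
  have e4 : ∑ T : Fin t → Option Bool,
        ‖(hat ψ (dm T) : ℂ) * ∑ V ∈ univ.filter (fun V => Ext T V), cS v (dm T) V‖ ^ 2 ≤
      ((M / 2 ^ t) ^ 2 * (2 ^ t / 2 ^ d)) * (2 ^ t * ∑ p, ‖v p‖ ^ 2) := by
    rw [← e3, Finset.mul_sum]
    exact Finset.sum_le_sum (fun T _ => e2 T)
  refine (mul_le_mul_of_nonneg_left e4 (by positivity)).trans (le_of_eq ?_)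
  field_simp

end Pool.Agent.H.MP_dd1c2e_lc.RO
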