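import Pool.Agent.H.MP_dd1c2e_lc.ro.Ps
import Pool.Agent.H.MP_dd1c2e_lc.ro.Pt3
import Pool.Agent.H.MP_dd1c2e_lc.G2

/-!
# A matrix that approximates the pattern matrix of the conjunction has a large norm
-/

namespace Pool.Agent.H.MP_dd1c2e_lc.RO

open Finset

/-- The number of pairs `(x, p)` with `pt x p = z` is `8^t`: for all `x` and `V` there is exactly one `w`. -/
theorem card_pt {t : ℕ} (z : Fin t → Bool) :
    (univ.filter fun q : (Fin t → Bool → Bool) × ((Fin t → Bool) × (Fin t → Bool)) => pt q.1 q.2 = z).card = 8 ^ t := by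
  have h1 : (univ.filter fun q : (Fin t → Bool → Bool) × ((Fin t → Bool) × (Fin t → Bool)) =>
      pt q.1 q.2 = z).card = (univ : Finset ((Fin t → Bool → Bool) × (Fin t → Bool))).card := by
    refine Finset.card_nbij' (fun q => (q.1, q.2.1))
      (fun r => (r.1, (r.2, fun i => Bool.xor (r.1 i (r.2 i)) (z i)))) ?_ ?_ ?_ ?_
    · intro q _
      exact Finset.mem_coe.2 (Finset.mem_univ _)
    · intro r _
      rw [Finset.mem_coe, Finset.mem_filter]
      refine ⟨Finset.mem_univ _, ?_⟩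
      funext i
      simp [pt]
    · rintro ⟨x, V, w⟩ hq
      rw [Finset.mem_coe, Finset.mem_filter] at hq
      have h := hq.2
      have hw : (fun i => Bool.xor (x i (V i)) (z i)) = w := by
        funext i
        rw [← h]
        simp [pt]
      simp only
      rw [hw]
    · rintro ⟨x, V⟩ _
      rfl
  rw [h1, Finset.card_univ, Fintype.card_prod, Fintype.card_fun, Fintype.card_fun,
    Fintype.card_fun, Fintype.card_bool, Fintype.card_fin, ← mul_pow]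
  norm_num

/-- Lower bound for the correlation: `∑_{x, p} psi (pt x p) P x p ≥ 8^t om m 0 / 6`. Group by `z = pt x p` and apply
`psi_corr` to the averages `Pb z` of `P` over the `8^t` pairs with `pt x p = z` (`card_pt`). -/
theorem corr_low {t m : ℕ} (ht : 1 ≤ t) (hm : 9 * m ^ 2 ≤ t)
    (P : (Fin t → Bool → Bool) → ((Fin t → Bool) × (Fin t → Bool)) → ℝ) (h01 : ∀ x p, 0 ≤ P x p ∧ P x p ≤ 1)
    (h1 : ∀ x p, (∀ i, pt x p i = true) → 2 / 3 ≤ P x p) (h0 : ∀ x p, (¬ ∀ i, pt x p i = true) → P x p ≤ 1 / 3) :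
    8 ^ t * (om m 0 / 6) ≤ ∑ x, ∑ p, psi t m (pt x p) * P x p := by
  have h8 : (0 : ℝ) < 8 ^ t := by positivity
  obtain ⟨Pb, hPb⟩ : ∃ Pb : (Fin t → Bool) → ℝ, ∀ z, Pb z =
      (∑ q ∈ univ.filter (fun q : (Fin t → Bool → Bool) × ((Fin t → Bool) × (Fin t → Bool)) =>
        pt q.1 q.2 = z), P q.1 q.2) / 8 ^ t := ⟨_, fun _ => rfl⟩
  have e1 : ∑ x, ∑ p, psi t m (pt x p) * P x p = ∑ z, psi t m z * (8 ^ t * Pb z) := by
    have e2 : ∑ x, ∑ p, psi t m (pt x p) * P x p =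
        ∑ q : (Fin t → Bool → Bool) × ((Fin t → Bool) × (Fin t → Bool)),
          psi t m (pt q.1 q.2) * P q.1 q.2 := by rw [Fintype.sum_prod_type]
    rw [e2, ← Finset.sum_fiberwise (s := univ)
      (g := fun q : (Fin t → Bool → Bool) × ((Fin t → Bool) × (Fin t → Bool)) => pt q.1 q.2)]
    refine Finset.sum_congr rfl fun z _ => ?_
    rw [hPb, mul_div_cancel₀ _ h8.ne', Finset.mul_sum]
    refine Finset.sum_congr rfl fun q hq => ?_
    rw [(Finset.mem_filter.1 hq).2]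
  have hcard : ∀ z : Fin t → Bool, ∀ c : ℝ,
      ∑ _q ∈ univ.filter (fun q : (Fin t → Bool → Bool) × ((Fin t → Bool) × (Fin t → Bool)) =>
        pt q.1 q.2 = z), c = 8 ^ t * c := by
    intro z c
    rw [Finset.sum_const, card_pt, nsmul_eq_mul]
    push_cast
    ring
  have key := psi_corr t m ht hm Pb (fun z hz => ?_) (fun z hz => ⟨?_, ?_⟩)
  · rw [e1]
    have e3 : ∑ z, psi t m z * (8 ^ t * Pb z) = 8 ^ t * ∑ z, psi t m z * Pb z := by
      rw [Finset.mul_sum]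
      refine Finset.sum_congr rfl fun z _ => ?_
      ring
    rw [e3]
    exact mul_le_mul_of_nonneg_left key h8.le
  · rw [hPb, le_div_iff₀ h8, mul_comm, ← hcard z]
    refine Finset.sum_le_sum fun q hq => h1 q.1 q.2 fun i => ?_
    rw [(Finset.mem_filter.1 hq).2]
    by_contra hi
    have h2 : z i = false := by simpa using hi
    have h3 : 0 < zc z := Finset.card_pos.2 ⟨i, by simp [h2]⟩
    omega
  · rw [hPb]
    exact div_nonneg (Finset.sum_nonneg fun q _ => (h01 q.1 q.2).1) h8.le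
  · rw [hPb, div_le_iff₀ h8, mul_comm, ← hcard z]
    refine Finset.sum_le_sum fun q hq => h0 q.1 q.2 fun hall => hz ?_
    rw [(Finset.mem_filter.1 hq).2] at hall
    unfold zc
    rw [Finset.card_eq_zero, Finset.filter_eq_empty_iff]
    intro i _ hi
    rw [hall i] at hi
    exact Bool.noConfusion hi

/-- Upper bound for the correlation: if `P x p = ∑ k, u x k * w p k` with `∑ k ‖u x k‖² ≤ g`, `∑ k ‖w p k‖² ≤ g`, then
`|∑ psi(pt x p) P x p|² ≤ (4^t g) (M² 4^t / 2^(m+1) * 4^t g)` with `M = 3 om m 0`.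

Proof. The sum is `∑_k ∑_x u x k * (∑_p psi (pt x p) w p k)`; by Cauchy-Schwarz over the pairs `(k, x)` its square is at most
`(∑_k ∑_x ‖u x k‖²) (∑_k ∑_x ‖∑_p psi (pt x p) w p k‖²)`. The first factor is at most `4^t g` (there are `4^t` tables `x`),
the second one is at most `M² 4^t / 2^(m+1) ∑_k ∑_p ‖w p k‖² ≤ M² 4^t / 2^(m+1) * 4^t g` by `pat_norm` with `d = m + 1`
(`psi_hat`, and `∑ |psi| ≤ 3 om m 0` by `psi_abs`, `om_abs_sum`). -/
theorem corr_up {t m : ℕ} (ht : 1 ≤ t) (hm : 9 * m ^ 2 ≤ t)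
    (P : (Fin t → Bool → Bool) → ((Fin t → Bool) × (Fin t → Bool)) → ℝ) (g : ℝ)
    (hP : G2 (fun x p => (P x p : ℂ)) g) :
    (∑ x, ∑ p, psi t m (pt x p) * P x p) ^ 2 ≤ (4 ^ t * g) * ((3 * om m 0) ^ 2 * 4 ^ t / 2 ^ (m + 1) * (4 ^ t * g)) := by
  have hg : 0 ≤ g := G2.nonneg hP
  obtain ⟨ι, hι, u, w, e, hu, hw⟩ := hP
  have e : ∀ x p, (P x p : ℂ) = ∑ k, u x k * w p k := e
  obtain ⟨B, hB⟩ : ∃ B : (Fin t → Bool → Bool) → ι → ℂ, ∀ x k, B x k =
      ∑ p, (psi t m (pt x p) : ℂ) * w p k := ⟨_, fun _ _ => rfl⟩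
  have hM : ∑ z, |psi t m z| ≤ 3 * om m 0 := by
    rw [psi_abs t m ht hm]
    exact om_abs_sum m
  have hd : ∀ S : Finset (Fin t), S.card < m + 1 → hat (psi t m) S = 0 := fun S hS =>
    psi_hat t m ht hm S (by omega)
  have e1 : ((∑ x, ∑ p, psi t m (pt x p) * P x p : ℝ) : ℂ) =
      ∑ q : (Fin t → Bool → Bool) × ι, u q.1 q.2 * B q.1 q.2 := by
    rw [Fintype.sum_prod_type]
    push_cast
    refine Finset.sum_congr rfl fun x _ => ?_
    have e2 : ∑ p, (psi t m (pt x p) : ℂ) * (P x p : ℂ) =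
        ∑ p, ∑ k, u x k * ((psi t m (pt x p) : ℂ) * w p k) := by
      refine Finset.sum_congr rfl fun p _ => ?_
      rw [e x p, Finset.mul_sum]
      refine Finset.sum_congr rfl fun k _ => ?_
      ring
    rw [e2, Finset.sum_comm]
    refine Finset.sum_congr rfl fun k _ => ?_
    rw [hB, Finset.mul_sum]
  have h1 : |∑ x, ∑ p, psi t m (pt x p) * P x p| ≤
      ∑ q : (Fin t → Bool → Bool) × ι, ‖u q.1 q.2‖ * ‖B q.1 q.2‖ := by
    have h2 : |∑ x, ∑ p, psi t m (pt x p) * P x p| =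
        ‖((∑ x, ∑ p, psi t m (pt x p) * P x p : ℝ) : ℂ)‖ := by
      rw [Complex.norm_real, Real.norm_eq_abs]
    rw [h2, e1]
    refine (norm_sum_le _ _).trans (le_of_eq ?_)
    refine Finset.sum_congr rfl fun q _ => ?_
    rw [norm_mul]
  have h3 := Finset.sum_mul_sq_le_sq_mul_sq (univ : Finset ((Fin t → Bool → Bool) × ι))
    (fun q => ‖u q.1 q.2‖) (fun q => ‖B q.1 q.2‖)
  have h4 : (∑ x, ∑ p, psi t m (pt x p) * P x p) ^ 2 ≤
      (∑ q : (Fin t → Bool → Bool) × ι, ‖u q.1 q.2‖ * ‖B q.1 q.2‖) ^ 2 := by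
    rw [← sq_abs]
    exact pow_le_pow_left₀ (abs_nonneg _) h1 2
  have hcX : (Fintype.card (Fin t → Bool → Bool) : ℝ) = 4 ^ t := by
    rw [Fintype.card_fun, Fintype.card_fun, Fintype.card_bool, Fintype.card_fin]
    push_cast
    norm_num
  have hcY : (Fintype.card ((Fin t → Bool) × (Fin t → Bool)) : ℝ) = 4 ^ t := by
    rw [Fintype.card_prod, Fintype.card_fun, Fintype.card_bool, Fintype.card_fin, ← mul_pow]
    push_cast
    norm_num
  have h5 : ∑ q : (Fin t → Bool → Bool) × ι, ‖u q.1 q.2‖ ^ 2 ≤ 4 ^ t * g := by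
    rw [Fintype.sum_prod_type]
    refine (Finset.sum_le_sum fun x _ => hu x).trans (le_of_eq ?_)
    rw [Finset.sum_const, nsmul_eq_mul, Finset.card_univ, hcX]
  have hC : (0 : ℝ) ≤ (3 * om m 0) ^ 2 * 4 ^ t / 2 ^ (m + 1) := by positivity
  have h6 : ∑ q : (Fin t → Bool → Bool) × ι, ‖B q.1 q.2‖ ^ 2 ≤
      (3 * om m 0) ^ 2 * 4 ^ t / 2 ^ (m + 1) * (4 ^ t * g) := by
    rw [Fintype.sum_prod_type, Finset.sum_comm]
    have h7 : ∀ k : ι, ∑ x, ‖B x k‖ ^ 2 ≤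
        (3 * om m 0) ^ 2 * 4 ^ t / 2 ^ (m + 1) * ∑ p, ‖w p k‖ ^ 2 := by
      intro k
      have h8 := pat_norm (psi t m) (m + 1) (3 * om m 0) hM hd (fun p => w p k)
      simp only [hB]
      exact h8
    refine (Finset.sum_le_sum fun k _ => h7 k).trans ?_
    rw [← Finset.mul_sum, Finset.sum_comm]
    refine mul_le_mul_of_nonneg_left ?_ hC
    refine (Finset.sum_le_sum fun p _ => hw p).trans (le_of_eq ?_)
    rw [Finset.sum_const, nsmul_eq_mul, Finset.card_univ, hcY]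
  refine h4.trans (h3.trans ?_)
  exact mul_le_mul h5 h6 (Finset.sum_nonneg fun _ _ => sq_nonneg _) (by positivity)

/-- Conclusion: `2^(m+1) ≤ 324 g²`. From `corr_low` and `corr_up`:
`64^t (om/6)² ≤ 9 om² 64^t g² / 2^(m+1)`, divide by `64^t om²` (`om_zero_pos`). -/
theorem key_ineq {t m : ℕ} (ht : 1 ≤ t) (hm : 9 * m ^ 2 ≤ t)
    (P : (Fin t → Bool → Bool) → ((Fin t → Bool) × (Fin t → Bool)) → ℝ) (g : ℝ)
    (hP : G2 (fun x p => (P x p : ℂ)) g) (h01 : ∀ x p, 0 ≤ P x p ∧ P x p ≤ 1)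
    (h1 : ∀ x p, (∀ i, pt x p i = true) → 2 / 3 ≤ P x p) (h0 : ∀ x p, (¬ ∀ i, pt x p i = true) → P x p ≤ 1 / 3) :
    (2 : ℝ) ^ (m + 1) ≤ 324 * g ^ 2 := by
  have hlow := corr_low ht hm P h01 h1 h0
  have hup := corr_up ht hm P g hP
  have hom := om_zero_pos m
  have h8 : (0 : ℝ) < 8 ^ t := by positivity
  have h2 : (0 : ℝ) < 2 ^ (m + 1) := by positivity
  have hsq : (8 ^ t * (om m 0 / 6)) ^ 2 ≤ (∑ x, ∑ p, psi t m (pt x p) * P x p) ^ 2 :=
    pow_le_pow_left₀ (by positivity) hlow 2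
  have h3 := hsq.trans hup
  have e8 : ((8 : ℝ) ^ t) ^ 2 = (4 ^ t) ^ 3 := by
    rw [← pow_mul, ← pow_mul, mul_comm t 2, mul_comm t 3, pow_mul, pow_mul]
    norm_num
  have e4 : (0 : ℝ) < (4 ^ t) ^ 3 * om m 0 ^ 2 := by positivity
  have e5 : (8 ^ t * (om m 0 / 6)) ^ 2 = ((4 ^ t) ^ 3 * om m 0 ^ 2) * (1 / 36) := by
    rw [mul_pow, e8]
    ring
  have e6 : (4 ^ t * g) * ((3 * om m 0) ^ 2 * 4 ^ t / 2 ^ (m + 1) * (4 ^ t * g)) =
      ((4 ^ t) ^ 3 * om m 0 ^ 2) * (9 * g ^ 2 / 2 ^ (m + 1)) := by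
    ring
  rw [e5, e6] at h3
  have h4 := le_of_mul_le_mul_left h3 e4
  rw [le_div_iff₀ h2] at h4
  linarith

end Pool.Agent.H.MP_dd1c2e_lc.RO
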