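import Pool.Agent.H.MP_dd1c2e_lc.ro.Bl2

/-!
# Patterns in compositions
-/

namespace Pool.Agent.H.MP_dd1c2e_lc.RO

open Finset Pool.Agent.H.MP_dd1c2e_lc.Alt

/-- Fix the second input at a point where `op (F ..) (F' x₀ y₀)` is the identity or the complement of `F`. -/
theorem sub_left {X Y X' Y' : Type} (F : X → Y → Bool) (F' : X' → Y' → Bool) (op : Bool → Bool → Bool) (x₀ : X')
    (y₀ : Y') (h : ∀ b, op b (F' x₀ y₀) = b) :
    Sub (fun (x : X × X') (y : Y × Y') => op (F x.1 y.1) (F' x.2 y.2)) F :=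
  ⟨fun x => (x, x₀), fun y => (y, y₀), fun x y => h (F x y)⟩

theorem sub_right {X Y X' Y' : Type} (F : X → Y → Bool) (F' : X' → Y' → Bool) (op : Bool → Bool → Bool) (x₀ : X)
    (y₀ : Y) (h : ∀ b, op (F x₀ y₀) b = b) :
    Sub (fun (x : X × X') (y : Y × Y') => op (F x.1 y.1) (F' x.2 y.2)) F' :=
  ⟨fun x => (x₀, x), fun y => (y₀, y), fun x y => h (F' x y)⟩

private theorem pj_forall {a a' : ℕ} (P : Fin (a + a') → Prop) :
    (∀ i, P i) ↔ (∀ i, P (Fin.castAdd a' i)) ∧ ∀ i, P (Fin.natAdd a i) := by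
  constructor
  · intro h
    exact ⟨fun i => h _, fun i => h _⟩
  · rintro ⟨h1, h2⟩ i
    exact Fin.addCases (motive := P) h1 h2 i

/-- Split `Fin (a + a')` into `Fin a` and `Fin a'` (`Fin.append`, `Fin.castAdd`, `Fin.natAdd`): row
`x ↦ (p (fun i => x (castAdd i)), p' (fun i => x (natAdd i)))`. -/
theorem sub_AO_add {X Y X' Y' : Type} {F : X → Y → Bool} {F' : X' → Y' → Bool} {a a' : ℕ} (h : Sub F (AO a))
    (h' : Sub F' (AO a')) : Sub (fun (x : X × X') (y : Y × Y') => F x.1 y.1 && F' x.2 y.2) (AO (a + a')) := by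
  obtain ⟨p, q, hpq⟩ := h
  obtain ⟨p', q', hpq'⟩ := h'
  refine ⟨fun c => (p (fun i => c (Fin.castAdd a' i)), p' (fun i => c (Fin.natAdd a i))),
    fun c => (q (fun i => c (Fin.castAdd a' i)), q' (fun i => c (Fin.natAdd a i))), fun c d => ?_⟩
  show (F (p _) (q _) && F' (p' _) (q' _)) = _
  rw [hpq, hpq']
  unfold AO
  rw [← Bool.decide_and, decide_eq_decide, pj_forall]

/-- The same; the number of common ones is the sum, and parity is additive. -/
theorem sub_IP_add {X Y X' Y' : Type} {F : X → Y → Bool} {F' : X' → Y' → Bool} {c c' : Bool} {z z' : ℕ}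
    (h : Sub F (IPc c z)) (h' : Sub F' (IPc c' z')) :
    Sub (fun (x : X × X') (y : Y × Y') => Bool.xor (F x.1 y.1) (F' x.2 y.2)) (IPc (Bool.xor c c') (z + z')) := by
  obtain ⟨p, q, hpq⟩ := h
  obtain ⟨p', q', hpq'⟩ := h'
  refine ⟨fun u => (p (fun i => u (Fin.castAdd z' i)), p' (fun i => u (Fin.natAdd z i))),
    fun u => (q (fun i => u (Fin.castAdd z' i)), q' (fun i => u (Fin.natAdd z i))), fun u v => ?_⟩
  show Bool.xor (F (p _) (q _)) (F' (p' _) (q' _)) = _
  rw [hpq, hpq']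
  unfold IPc
  have h1 : (univ.filter fun i : Fin (z + z') => (u i && v i) = true).card =
      (univ.filter fun i : Fin z => (u (Fin.castAdd z' i) && v (Fin.castAdd z' i)) = true).card +
      (univ.filter fun i : Fin z' => (u (Fin.natAdd z i) && v (Fin.natAdd z i)) = true).card := by
    rw [Finset.card_filter, Finset.card_filter, Finset.card_filter, Fin.sum_univ_add]
  rw [h1]
  generalize (univ.filter fun i : Fin z => (u (Fin.castAdd z' i) && v (Fin.castAdd z' i)) = true).card = m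
  generalize (univ.filter fun i : Fin z' => (u (Fin.natAdd z i) && v (Fin.natAdd z i)) = true).card = m'
  rcases Nat.mod_two_eq_zero_or_one m with hm | hm <;> rcases Nat.mod_two_eq_zero_or_one m' with hm' | hm' <;>
    cases c <;> cases c' <;> simp [Nat.add_mod, hm, hm']

/-- `!(AO a x y) = OA a (!x) (!y)`. -/
theorem sub_OA_of_AO {X Y : Type} {F : X → Y → Bool} {a : ℕ} (h : Sub F (AO a)) :
    Sub (fun x y => !(F x y)) (OA a) := by
  obtain ⟨p, q, hpq⟩ := h
  refine ⟨fun c => p (fun i => !(c i)), fun d => q (fun i => !(d i)), fun c d => ?_⟩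
  show (!(F (p _) (q _))) = _
  rw [hpq]
  unfold AO OA
  rw [← decide_not, decide_eq_decide]
  push Not
  refine exists_congr fun i => ?_
  cases c i <;> cases d i <;> simp

theorem sub_AO_of_OA {X Y : Type} {F : X → Y → Bool} {a : ℕ} (h : Sub F (OA a)) :
    Sub (fun x y => !(F x y)) (AO a) := by
  obtain ⟨p, q, hpq⟩ := h
  refine ⟨fun c => p (fun i => !(c i)), fun d => q (fun i => !(d i)), fun c d => ?_⟩
  show (!(F (p _) (q _))) = _
  rw [hpq]
  unfold AO OA
  rw [← decide_not, decide_eq_decide]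
  push Not
  refine forall_congr' fun i => ?_
  cases c i <;> cases d i <;> simp

theorem sub_IP_not {X Y : Type} {F : X → Y → Bool} {c : Bool} {z : ℕ} (h : Sub F (IPc c z)) :
    Sub (fun x y => !(F x y)) (IPc (!c) z) := by
  obtain ⟨p, q, hpq⟩ := h
  refine ⟨p, q, fun x y => ?_⟩
  show (!(F (p _) (q _))) = _
  rw [hpq]
  unfold IPc
  cases c <;> simp

end Pool.Agent.H.MP_dd1c2e_lc.RO
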