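import Pool.Agent.H.MP_dd1c2e_lc.ro.E
import Pool.Agent.H.MP_dd1c2e_lc.Uni
import Pool.Agent.H.MP_dd1c2e_lc.alt.PercB

/-!
# Quantum protocols: submatrices, complement, transposed mistake trees
-/

namespace Pool.Agent.H.MP_dd1c2e_lc.RO

open Finset Pool.Agent.H.MP_dd1c2e_lc.Alt

/-- Relabelling the inputs of both parties. Induction over the protocol, as in `Reach.pull` in `Uni.lean`. -/
theorem reach_pull {X X' Y Y' : Type} (α : X' → X) (β : Y' → Y) {q : ℕ} {A : Type} [Fintype A] {B : Type} [Fintype B]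
    {ψ : X → Y → A → B → ℂ} (h : Reach X Y q A B ψ) : Reach X' Y' q A B (fun x y => ψ (α x) (β y)) := by
  induction h with
  | start A B ψ h => exact Reach.start A B ψ h
  | alice A' V hV _ ih => exact Reach.alice A' (fun x => V (α x)) (fun x => hV (α x)) ih
  | bob B' W hW _ ih => exact Reach.bob B' (fun y => W (β y)) (fun y => hW (β y)) ih

/-- A submatrix is not harder. As `QuantumComputes.pull` in `Uni.lean`, with `reach_pull`; the submatrix condition
`F (α x) (β y) = G x y` is used to rewrite the register `F x y`. -/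
theorem quantum_sub {X Y X' Y' : Type} {F : X → Y → Bool} {G : X' → Y' → Bool} {q : ℕ} (h : QuantumComputes F q)
    (hs : Sub F G) : QuantumComputes G q := by
  obtain ⟨α, β, hab⟩ := hs
  obtain ⟨A, hA, B, hB, ψ, hψ, h⟩ := h
  refine ⟨A, hA, B, hB, fun x y => ψ (α x) (β y), reach_pull α β hψ, ?_⟩
  rcases h with ⟨A', hA', V, hV, h⟩ | ⟨B', hB', W, hW, h⟩
  · refine Or.inl ⟨A', hA', fun x => V (α x), fun x => hV (α x), fun x y => ?_⟩
    rw [← hab x y]
    exact h (α x) (β y)
  · refine Or.inr ⟨B', hB', fun y => W (β y), fun y => hW (β y), fun x y => ?_⟩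
    rw [← hab x y]
    exact h (α x) (β y)

theorem isIsometry_not {A' A : Type} [Fintype A'] [Fintype A] {V : A' × Bool → A → ℂ} (h : IsIsometry V) :
    IsIsometry (fun (i : A' × Bool) a => V (i.1, !i.2) a) := by
  intro v
  rw [← h v]
  exact Equiv.sum_comp (Equiv.prodCongr (Equiv.refl A') Equiv.boolNot)
    (fun i : A' × Bool => ‖∑ a, V i a * v a‖ ^ 2)

/-- Complement: exchange the two values of the measured qubit: replace the last isometry `V x (a', c) a` by
`V x (a', !c) a` (an isometry: reindex the sum over `A' × Bool` by `(a', c) ↦ (a', !c)`). -/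
theorem quantum_not {X Y : Type} {F : X → Y → Bool} {q : ℕ} (h : QuantumComputes F q) :
    QuantumComputes (fun x y => !(F x y)) q := by
  obtain ⟨A, hA, B, hB, ψ, hψ, h⟩ := h
  refine ⟨A, hA, B, hB, ψ, hψ, ?_⟩
  rcases h with ⟨A', hA', V, hV, h⟩ | ⟨B', hB', W, hW, h⟩
  · refine Or.inl ⟨A', hA', fun x i a => V x (i.1, !i.2) a, fun x => isIsometry_not (hV x),
      fun x y => ?_⟩
    refine (h x y).trans (le_of_eq ?_)
    refine Finset.sum_congr rfl fun a' _ => Finset.sum_congr rfl fun b _ => ?_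
    unfold aliceSend
    simp only [Bool.not_not]
  · refine Or.inr ⟨B', hB', fun y i b => W y (i.1, !i.2) b, fun y => isIsometry_not (hW y),
      fun x y => ?_⟩
    refine (h x y).trans (le_of_eq ?_)
    refine Finset.sum_congr rfl fun a' _ => Finset.sum_congr rfl fun b _ => ?_
    unfold bobSend
    simp only [Bool.not_not]

/-- Mistake trees with leaves `y`. The proof of `lit_quantum` in `alt/PercB.lean` with the two vectors of `real_factor`
exchanged (`perc_bound` for `fun y x => F x y`, `V`, `U`). -/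
theorem lit_quantum_T {X Y : Type} (F : X → Y → Bool) (q l : ℕ) (h : QuantumComputes F q) (hl : DB F l Set.univ) :
    l ≤ 36 * (4 ^ q + 1) ^ 2 := by
  obtain ⟨P, hP, h01, ht, hf⟩ := quantum_G2 h
  obtain ⟨ι, hι, U, V, hUV, hU, hV⟩ := real_factor P _ hP
  have hg : (0 : ℝ) ≤ 4 ^ q + 1 := by positivity
  have hVU : ∀ x y, ∑ k, V y k * U x k = P x y - 1 / 2 := by
    intro x y
    rw [← hUV x y]
    exact Finset.sum_congr rfl fun k _ => mul_comm _ _
  have h2 := perc_bound (fun y x => F x y) V U ((4 : ℝ) ^ q + 1) ((4 : ℝ) ^ q + 1) hg hg hV hU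
    (fun y x hxy => by
      rw [hVU x y]
      have := ht x y hxy
      linarith)
    (fun y x hxy => by
      rw [hVU x y]
      have := hf x y hxy
      linarith) l Set.univ hl
  have h3 : (l : ℝ) ≤ ((36 * (4 ^ q + 1) ^ 2 : ℕ) : ℝ) := by
    push_cast
    linarith
  exact_mod_cast h3

end Pool.Agent.H.MP_dd1c2e_lc.RO
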