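import Pool.Agent.H.MP_dd1c2e_lc.ro.Dj1
import Pool.Agent.H.MP_dd1c2e_lc.ro.Pj
import Pool.Agent.H.MP_dd1c2e_lc.ro.Qs
import Pool.Agent.H.MP_dd1c2e_lc.QAcc

/-!
# Lower bounds for the conjunction of disjunctions (disjointness)
-/

namespace Pool.Agent.H.MP_dd1c2e_lc.RO

open Finset Pool.Agent.H.MP_dd1c2e_lc.Alt

/-- The conjunction of the `t` bits of `pt x p` is contained in `AO k` if `4 t ≤ k`.

Proof. `pt x p i = true` for all `i` if and only if for all `i` and all `r : Bool × Bool` one has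
`(x i false, x i true) ≠ r` or `(if V i then r.2 else r.1) ⊕ w i = true`: for `r = (x i false, x i true)` this is
`pt x p i = true`. So with an injection `e : Fin t × Bool × Bool → Fin k` (there are `4 t ≤ k` triples), Alice maps `x` to
the row with the entry `decide ((x i false, x i true) ≠ r)` at `e (i, r)` and `true` outside of the range of `e`, Bob maps
`(V, w)` to the column with the entry `(if V i then r.2 else r.1) ⊕ w i` at `e (i, r)` and `true` (any value) elsewhere. -/
theorem sub_AO_pt (t k : ℕ) (h : 4 * t ≤ k) :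
    Sub (AO k) (fun (x : Fin t → Bool → Bool) (p : (Fin t → Bool) × (Fin t → Bool)) => decide (∀ i, pt x p i = true)) := by
  classical
  have hcard : Fintype.card (Fin t × Bool × Bool) ≤ Fintype.card (Fin k) := by
    rw [Fintype.card_prod, Fintype.card_prod, Fintype.card_bool, Fintype.card_fin,
      Fintype.card_fin]
    omega
  obtain ⟨e⟩ := Function.Embedding.nonempty_of_card_le hcard
  have hval : ∀ (x : Fin t → Bool → Bool) (p : (Fin t → Bool) × (Fin t → Bool)) (i : Fin t),
      Bool.xor (if p.1 i then x i true else x i false) (p.2 i) = pt x p i := by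
    intro x p i
    unfold pt
    cases p.1 i <;> rfl
  refine ⟨fun x j => decide (∀ i r, e (i, r) = j → (x i false, x i true) ≠ r),
    fun p j => decide (∀ i r, e (i, r) = j → Bool.xor (if p.1 i then r.2 else r.1) (p.2 i) = true),
    fun x p => ?_⟩
  unfold AO
  rw [decide_eq_decide]
  constructor
  · intro hall i
    have h1 := hall (e (i, (x i false, x i true)))
    rw [Bool.or_eq_true, decide_eq_true_eq, decide_eq_true_eq] at h1
    rcases h1 with h1 | h1
    · exact absurd rfl (h1 i _ rfl)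
    · rw [← hval x p i]
      exact h1 i _ rfl
  · intro hall j
    rw [Bool.or_eq_true, decide_eq_true_eq, decide_eq_true_eq]
    by_cases hj : ∀ i r, e (i, r) = j → (x i false, x i true) ≠ r
    · exact Or.inl hj
    · right
      push Not at hj
      obtain ⟨i, r, hir, hr⟩ := hj
      intro i' r' hir'
      have h2 : (i', r') = (i, r) := e.injective (hir'.trans hir.symm)
      have h3 : i' = i := congrArg Prod.fst h2
      have h4 : r' = r := congrArg Prod.snd h2
      subst h3
      rw [h4, ← hr]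
      exact (hval x p i').trans (hall i')

/-- Proof. Let `t = k / 4`; if `t = 0` then `k ≤ 3`. Otherwise let `m = Nat.sqrt (t / 9)`, so `9 m² ≤ t < 9 (m + 1)²`.
`quantum_sub`, `sub_AO_pt`, `quantum_G2` and `key_ineq` with `g = 4^q` give `2^(m+1) ≤ 324 * 16^q < 2^(4 q + 9)`, so
`m + 1 ≤ 4 q + 8`, `t < 9 (4 q + 8)²` and `k ≤ 4 t + 3 ≤ 36 (4 q + 8)² + 3 ≤ 2400 (q + 1)²`. -/
theorem AO_bound {X Y : Type} {F : X → Y → Bool} {q k : ℕ} (hq : QuantumComputes F q) (h : Sub F (AO k)) :
    k ≤ 2400 * (q + 1) ^ 2 := by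
  have hq1 : 1 ≤ (q + 1) ^ 2 := Nat.one_le_pow _ _ (Nat.succ_pos q)
  by_cases ht : k / 4 = 0
  · omega
  · have ht1 : 1 ≤ k / 4 := Nat.one_le_iff_ne_zero.2 ht
    have hk4 : 4 * (k / 4) ≤ k := by omega
    have hm : 9 * Nat.sqrt (k / 4 / 9) ^ 2 ≤ k / 4 := by
      have h1 := Nat.sqrt_le (k / 4 / 9)
      have h2 : Nat.sqrt (k / 4 / 9) ^ 2 ≤ k / 4 / 9 := by rw [pow_two]; exact h1
      omega
    have hm2 : k / 4 < 9 * (Nat.sqrt (k / 4 / 9) + 1) ^ 2 := by
      have h1 := Nat.lt_succ_sqrt (k / 4 / 9)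
      have h2 : k / 4 / 9 < (Nat.sqrt (k / 4 / 9) + 1) ^ 2 := by rw [pow_two]; exact h1
      omega
    have hG := quantum_sub hq (h.trans (sub_AO_pt (k / 4) k hk4))
    obtain ⟨P, hP, h01, h1, h0⟩ := quantum_G2 hG
    have key := key_ineq ht1 hm P ((4 : ℝ) ^ q) hP h01
      (fun x p hxp => h1 x p (decide_eq_true hxp))
      (fun x p hxp => h0 x p (decide_eq_false hxp))
    generalize Nat.sqrt (k / 4 / 9) = m at *
    have h3 : (2 : ℝ) ^ (m + 1) < 2 ^ (4 * q + 9) := by
      refine lt_of_le_of_lt key ?_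
      have e1 : ((4 : ℝ) ^ q) ^ 2 = 2 ^ (4 * q) := by
        rw [← pow_mul, mul_comm q 2, pow_mul, pow_mul]
        norm_num
      rw [e1, pow_add, mul_comm ((2 : ℝ) ^ (4 * q))]
      have : (0 : ℝ) < 2 ^ (4 * q) := by positivity
      nlinarith
    have h4 : m + 1 < 4 * q + 9 := (pow_lt_pow_iff_right₀ (by norm_num : (1 : ℝ) < 2)).1 h3
    have h5 : (m + 1) ^ 2 ≤ (4 * q + 8) ^ 2 := Nat.pow_le_pow_left (by omega) 2
    have h6 : (4 * q + 8) ^ 2 ≤ 64 * (q + 1) ^ 2 := by nlinarith
    have h7 : k < 4 * (k / 4) + 4 := by omega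
    nlinarith

/-- Complement: `sub_AO_of_OA`, `quantum_not`. -/
theorem OA_bound {X Y : Type} {F : X → Y → Bool} {q k : ℕ} (hq : QuantumComputes F q) (h : Sub F (OA k)) :
    k ≤ 2400 * (q + 1) ^ 2 :=
  AO_bound (quantum_not hq) (sub_AO_of_OA h)

end Pool.Agent.H.MP_dd1c2e_lc.RO
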