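import Pool.Agent.H.MP_dd1c2e_lc.ro.D

/-!
# Submatrices, blocky matrices, patterns, randomized protocols with error `δ`

Auxiliary definitions of the proof.
-/

namespace Pool.Agent.H.MP_dd1c2e_lc.RO

open Finset Pool.Agent.H.MP_dd1c2e_lc.Alt

/-- The matrix `G` is contained in `F` (rows and columns of `F` may be repeated). -/
def Sub {X Y X' Y' : Type} (F : X → Y → Bool) (G : X' → Y' → Bool) : Prop :=
  ∃ (a : X' → X) (b : Y' → Y), ∀ x y, F (a x) (b y) = G x y

theorem Sub.refl {X Y : Type} (F : X → Y → Bool) : Sub F F := ⟨id, id, fun _ _ => rfl⟩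

theorem Sub.trans {X Y X' Y' X'' Y'' : Type} {F : X → Y → Bool} {G : X' → Y' → Bool} {H : X'' → Y'' → Bool}
    (h : Sub F G) (h' : Sub G H) : Sub F H := by
  obtain ⟨a, b, hab⟩ := h
  obtain ⟨a', b', hab'⟩ := h'
  exact ⟨fun x => a (a' x), fun y => b (b' y), fun x y => (hab _ _).trans (hab' x y)⟩

theorem Sub.not {X Y X' Y' : Type} {F : X → Y → Bool} {G : X' → Y' → Bool} (h : Sub F G) :
    Sub (fun x y => !(F x y)) (fun x y => !(G x y)) := by
  obtain ⟨a, b, hab⟩ := h
  exact ⟨a, b, fun x y => congrArg (fun t => !t) (hab x y)⟩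

/-- Not constant. -/
def NC {X Y : Type} (F : X → Y → Bool) : Prop := (∃ x y, F x y = true) ∧ ∃ x y, F x y = false

/-- A blocky matrix: `G x y = true` if and only if `α x = β y`. -/
def Blocky {X Y : Type} (G : X → Y → Bool) : Prop :=
  ∃ (Z : Type) (_ : Finite Z) (α : X → Z) (β : Y → Z), ∀ x y, G x y = true ↔ α x = β y

/-- A blocky matrix with at least two blocks. -/
def TwoBlocky {X Y : Type} (G : X → Y → Bool) : Prop :=
  Blocky G ∧ ∃ x x' y y', G x y = true ∧ G x' y' = true ∧ G x y' = false ∧ G x' y = false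

/-- The conjunction of `k` copies of `a ∨ b`. -/
def AO (k : ℕ) : (Fin k → Bool) → (Fin k → Bool) → Bool := fun x y => decide (∀ i, (x i || y i) = true)

/-- The disjunction of `k` copies of `a ∧ b` (intersecting sets). -/
def OA (k : ℕ) : (Fin k → Bool) → (Fin k → Bool) → Bool := fun x y => decide (∃ i, (x i && y i) = true)

/-- The inner product modulo two of `k` bits, plus the constant `c`. -/
def IPc (c : Bool) (k : ℕ) : (Fin k → Bool) → (Fin k → Bool) → Bool :=
  fun x y => Bool.xor c (decide ((univ.filter fun i => (x i && y i) = true).card % 2 = 1))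

/-- `F` is computed by a randomized protocol with public coins, at most `k` bits and error at most `δ` on every input
(the coins are uniformly distributed on a set with `2 ^ r` elements). -/
def RandE {X Y : Type} (F : X → Y → Bool) (k : ℕ) (δ : ℝ) : Prop :=
  ∃ (Ω : Type) (_ : Fintype Ω) (r : ℕ) (P : Ω → DProt X Y), Fintype.card Ω = 2 ^ r ∧ (∀ ω, (P ω).depth ≤ k) ∧
    ∀ x y, ((univ.filter fun ω => (P ω).run x y ≠ F x y).card : ℝ) ≤ δ * (Fintype.card Ω : ℝ)

/-- The number of changes in a list of bits. -/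
def chg : List Bool → ℕ
  | [] => 0
  | [_] => 0
  | a :: b :: l => (if a = b then 0 else 1) + chg (b :: l)

/-- There is an order of the rows in which every column, preceded and followed by the value `e`, has at most `2 n`
changes. -/
def PO {X Y : Type} (G : X → Y → Bool) (e : Bool) (n : ℕ) : Prop :=
  ∃ l : List X, l.Nodup ∧ (∀ x, x ∈ l) ∧ ∀ y, chg (e :: (l.map (fun x => G x y) ++ [e])) ≤ 2 * n

/-- Mistake trees whose leaves are inputs `y` of Bob, and whose inner vertices are inputs `x` of Alice. -/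
def DB {X Y : Type} (G : X → Y → Bool) (l : ℕ) (S : Set Y) : Prop := Lit (fun y x => G x y) l S

/-- The invariant of chain functions in which all steps decided by Alice alone have the value `true`. -/
def GoodT {X Y : Type} (G : X → Y → Bool) : Prop :=
  ∃ n0 n1 : ℕ, PO G false n0 ∧ PO G true n1 ∧ DB G (n1 / 2) Set.univ ∧ DB G ((n0 - 1) / 2) Set.univ ∧
    (1 ≤ n0 → ∃ x, DB G ((n0 - 1) / 2) {y | G x y = true}) ∧ (1 ≤ n1 → ∃ x, DB G ((n1 - 2) / 2) {y | G x y = false})

/-- The invariant of chain functions in which all steps decided by Alice alone have the value `c`. -/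
def Good {X Y : Type} (c : Bool) (G : X → Y → Bool) : Prop := GoodT (fun x y => Bool.xor (G x y) (!c))

/-- `φ` is the total flip of Alice: `s x y` is the number of the first group of steps (not decided by Alice alone) in which
the value is determined, `fl x i` is the flip of Alice before that. The number of groups is bounded by the depth `k` of a
mistake tree. (`r` tells whether the top step of the chain belongs to a group.) -/
def FlipA {X Y : Type} (G φ : X → Y → Bool) : Prop :=
  ∃ (s : X → Y → ℕ) (fl : X → ℕ → Bool) (k : ℕ) (r : Bool), (∀ x y, φ x y = fl x (s x y)) ∧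
    (∀ x y, s x y ≤ k + (if r then 1 else 0)) ∧ (∀ i, Blocky (fun x y => decide (i ≤ s x y))) ∧
    Lit G k Set.univ ∧ (r = true → (∃ e y, Lit G k {x | G x y = e}) ∧ ∀ x, fl x 0 = false)

/-- The same for Bob. -/
def FlipB {X Y : Type} (G φ : X → Y → Bool) : Prop := FlipA (fun y x => G x y) (fun y x => φ x y)

/-- A chain function: up to a flip of Alice and a flip of Bob it is one of two matrices (the choice is made by Alice) that
satisfy `Good`. -/
def Ev {X Y : Type} (G : X → Y → Bool) : Prop :=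
  ∃ (φA φB : X → Y → Bool) (oA : X → Bool) (Gc : Bool → X → Y → Bool),
    (∀ x y, G x y = Bool.xor (φA x y) (Bool.xor (φB x y) (Gc (oA x) x y))) ∧
      FlipA G φA ∧ FlipB G φB ∧ ∀ c, Good c (Gc c) ∧ Sub G (Gc c)

/-- The function of a chain `(u, v, fA, fB)` applied to the constant `b`. -/
def cf {X Y : Type} (u v : X → Y → Bool) (fA : X → Bool) (fB : Y → Bool) (b : Bool) : X → Y → Bool :=
  fun x y => if u x y then Bool.xor (Bool.xor (fA x) (fB y)) b else v x y

/-- A chain: `u x y` tells whether the value is determined by the core, up to the flips `fA x`, `fB y`; otherwise the value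
is `v x y`. -/
def CH {X Y : Type} (u v : X → Y → Bool) (fA : X → Bool) (fB : Y → Bool) : Prop :=
  Blocky u ∧ (∃ x y, u x y = true) ∧ ∀ b, Ev (cf u v fA fB b)

/-- The statement proved by induction over read-once compositions. `N` counts the cores, `H` is the core of `F`, and
`(u, v, fA, fB)` is the chain above the core. -/
def PP (κ : ℕ) (δ : ℝ) {X Y : Type} (F : X → Y → Bool) : Prop :=
  ∃ (N a o z : ℕ), 1 ≤ N ∧ N ≤ a * o * z ∧ (a = 1 ∨ Sub F (AO a)) ∧ (o = 1 ∨ Sub F (OA o)) ∧
    (z = 1 ∨ ∃ c, Sub F (IPc c z)) ∧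
    ∃ (Xc Yc X' Y' : Type) (_ : Finite Xc) (_ : Finite Yc) (_ : Nonempty X') (_ : Nonempty Y') (u v : Xc → Yc → Bool)
      (fA : Xc → Bool) (fB : Yc → Bool) (H : X' → Y' → Bool) (ex : X → Xc × X') (ey : Y → Yc × Y'),
      Function.Surjective ex ∧ Function.Surjective ey ∧ CH u v fA fB ∧
      RandE H ((5 * N - 4) * κ) ((5 * (N : ℝ) - 4) * δ) ∧
      ∀ x y, F x y = if u (ex x).1 (ey y).1 then
        Bool.xor (Bool.xor (fA (ex x).1) (fB (ey y).1)) (H (ex x).2 (ey y).2) else v (ex x).1 (ey y).1

/-- The consequence of `PP` with the cost of the whole function. -/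
def PC (κ : ℕ) (δ : ℝ) {X Y : Type} (F : X → Y → Bool) : Prop :=
  ∃ (N a o z : ℕ), 1 ≤ N ∧ N ≤ a * o * z ∧ (a = 1 ∨ Sub F (AO a)) ∧ (o = 1 ∨ Sub F (OA o)) ∧
    (z = 1 ∨ ∃ c, Sub F (IPc c z)) ∧ RandE F ((5 * N - 2) * κ) ((5 * (N : ℝ) - 2) * δ)

end Pool.Agent.H.MP_dd1c2e_lc.RO
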