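import Pool.Agent.H.MP_dd1c2e_lc.ro.Gd3
import Pool.Agent.H.MP_dd1c2e_lc.ro.Sd1
import Pool.Agent.H.MP_dd1c2e_lc.ro.Sd2

/-!
# Chain functions: constants, complement, two-sided steps
-/

namespace Pool.Agent.H.MP_dd1c2e_lc.RO

open Finset Pool.Agent.H.MP_dd1c2e_lc.Alt

/-- `φA = φB = false`, `oA = fun _ => true`, `Gc c` constant `b`. -/
theorem Ev.const {X Y : Type} [Finite X] [Nonempty X] [Nonempty Y] (b : Bool) : Ev (fun (_ : X) (_ : Y) => b) := by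
  refine ⟨fun _ _ => false, fun _ _ => false, fun _ => true, fun _ _ _ => b, ?_, FlipA.const b, ?_,
    fun c => ⟨Good.const c b, Sub.refl _⟩⟩
  · intro x y
    simp
  · exact FlipA.const (X := Y) (Y := X) b

/-- The same `φA`, `φB`; `oA' x = !(oA x)`, `Gc' c x y = !(Gc (!c) x y)`; `Good.not`, `FlipA.not` (twice), `Sub.not`. -/
theorem Ev.not {X Y : Type} {G : X → Y → Bool} (h : Ev G) : Ev (fun x y => !(G x y)) := by
  obtain ⟨φA, φB, oA, Gc, h1, hA, hB, hG⟩ := h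
  refine ⟨φA, φB, fun x => !(oA x), fun c x y => !(Gc (!c) x y), ?_, FlipA.not hA, ?_, fun c => ⟨?_, ?_⟩⟩
  · intro x y
    show (!(G x y)) = _
    rw [h1 x y]
    simp
  · exact FlipA.not hB
  · have h2 := (hG (!c)).1.not
    rw [Bool.not_not] at h2
    exact h2
  · exact (hG (!c)).2.not

/-- `φA' (x₁, x) (y₁, y) = if g x₁ y₁ then φA x y else false`, the same for `φB`, `oA' (x₁, x) = oA x`,
`Gc' c (x₁, x) (y₁, y) = if g x₁ y₁ then Gc c x y else e`. `FlipA.gate` for `g` and (for `FlipB`) for the transposed of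
`g` (the hypotheses `h1`, `h2` follow from `TwoBlocky g`), `Good.gate`; `Sub`: `(x₁, x) ↦ (x₁, p x)`,
`(y₁, y) ↦ (y₁, p' y)`. -/
theorem Ev.gate {X Y X1 Y1 : Type} [Finite X1] [Nonempty X] [Nonempty Y] {G : X → Y → Bool} {g : X1 → Y1 → Bool}
    (hg : TwoBlocky g) (e : Bool) (h : Ev G) :
    Ev (fun (x : X1 × X) (y : Y1 × Y) => if g x.1 y.1 then G x.2 y.2 else e) := by
  obtain ⟨φA, φB, oA, Gc, h1, hA, hB, hG⟩ := h
  obtain ⟨hbl, p, p', q, q', hpq, hpq', hpq0, hpq1⟩ := id hg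
  have hbl' : Blocky (fun (b : Y1) (a : X1) => g a b) := by
    obtain ⟨Z, hZ, α, β, hu⟩ := hbl
    exact ⟨Z, hZ, β, α, fun b a => (hu a b).trans eq_comm⟩
  refine ⟨fun x y => if g x.1 y.1 then φA x.2 y.2 else false,
    fun x y => if g x.1 y.1 then φB x.2 y.2 else false, fun x => oA x.2,
    fun c x y => if g x.1 y.1 then Gc c x.2 y.2 else e, ?_, ?_, ?_, fun c => ⟨?_, ?_⟩⟩
  · intro x y
    by_cases h2 : g x.1 y.1 = true
    · simp only [h2, if_true]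
      exact h1 x.2 y.2
    · simp [h2]
  · exact FlipA.gate hbl ⟨p, q, hpq⟩ ⟨p, q', q, hpq0, hpq⟩ e hA
  · exact FlipA.gate hbl' ⟨q, p, hpq⟩ ⟨q, p', p, hpq1, hpq⟩ e hB
  · exact Good.gate hg e (hG c).1
  · obtain ⟨a, b, hab⟩ := (hG c).2
    refine ⟨fun x => (x.1, a x.2), fun y => (y.1, b y.2), fun x y => ?_⟩
    show (if g x.1 y.1 then G (a x.2) (b y.2) else e) = if g x.1 y.1 then Gc c x.2 y.2 else e
    rw [hab]

end Pool.Agent.H.MP_dd1c2e_lc.RO
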