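import Pool.Agent.H.MP_dd1c2e_lc.ro.Po1

/-!
# Orders of the rows: a step of Alice, dummy inputs, connection with `alt`
-/

namespace Pool.Agent.H.MP_dd1c2e_lc.RO

open Finset Pool.Agent.H.MP_dd1c2e_lc.Alt

/-- The rows `(x₁, x)`, `x ∈ l`, `x₁ ∈ T`. -/
private theorem po3_mem {X X1 : Type} (l : List X) (T : List X1) (z : X1 × X) :
    z ∈ l.flatMap (fun x => T.map (fun t => (t, x))) ↔ z.2 ∈ l ∧ z.1 ∈ T := by
  rw [List.mem_flatMap]
  constructor
  · rintro ⟨x, hx, h⟩
    obtain ⟨t, ht, rfl⟩ := List.mem_map.1 h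
    exact ⟨hx, ht⟩
  · rintro ⟨h1, h2⟩
    exact ⟨z.2, h1, List.mem_map.2 ⟨z.1, h2, rfl⟩⟩

private theorem po3_nodup {X X1 : Type} {l : List X} {T : List X1} (hl : l.Nodup) (hT : T.Nodup) :
    (l.flatMap (fun x => T.map (fun t => (t, x)))).Nodup := by
  rw [List.nodup_flatMap]
  refine ⟨fun x _ => hT.map fun a b hab => (Prod.mk.inj hab).1, ?_⟩
  refine List.Pairwise.imp ?_ hl
  intro x x' hxx z hz hz'
  obtain ⟨t, _, rfl⟩ := List.mem_map.1 hz
  obtain ⟨t', _, h⟩ := List.mem_map.1 hz'
  exact hxx (Prod.mk.inj h).2.symm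

private theorem po3_colT {X X1 : Type} (a : X1 → Bool) (e : Bool) (g : X → Bool) (l : List X)
    (T : List X1) (hT : ∀ t ∈ T, a t = true) :
    (l.flatMap (fun x => T.map (fun t => (t, x)))).map (fun z => if a z.1 then g z.2 else e) =
      (l.map fun x => (T.length, g x)).flatMap (fun p => List.replicate p.1 p.2) := by
  induction l with
  | nil => rfl
  | cons x l ih =>
    rw [List.flatMap_cons, List.map_append, ih, List.map_cons, List.flatMap_cons]
    congr 1
    rw [List.eq_replicate_iff]
    refine ⟨by rw [List.length_map, List.length_map], fun b hb => ?_⟩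
    obtain ⟨z, hz, rfl⟩ := List.mem_map.1 hb
    obtain ⟨t, ht, rfl⟩ := List.mem_map.1 hz
    simp [hT t ht]

private theorem po3_colF {X X1 : Type} (a : X1 → Bool) (e : Bool) (g : X → Bool) (l : List X)
    (T : List X1) (hT : ∀ t ∈ T, a t = false) :
    (l.flatMap (fun x => T.map (fun t => (t, x)))).map (fun z => if a z.1 then g z.2 else e) =
      List.replicate (l.flatMap (fun x => T.map (fun t => (t, x)))).length e := by
  rw [List.eq_replicate_iff]
  refine ⟨List.length_map _, fun b hb => ?_⟩
  obtain ⟨z, hz, rfl⟩ := List.mem_map.1 hb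
  have h := hT z.1 ((po3_mem l T z).1 hz).2
  simp [h]

private theorem po3_alt {X Y : Type} (G : X → Y → Bool) (y : Y) : ∀ {N : ℕ} (e : Fin N → X),
    Alt.alt e G y ≤ chg ((List.ofFn e).map (fun x => G x y))
  | 0, e => by
    unfold Alt.alt
    simp
  | 1, e => by
    unfold Alt.alt
    rw [Finset.filter_eq_empty_iff.2]
    · simp
    · intro i _
      rintro ⟨h, -⟩
      omega
  | N + 2, e => by
    have ih := po3_alt G y (fun i : Fin (N + 1) => e i.succ)
    rw [List.ofFn_succ, List.map_cons] at ih
    rw [List.ofFn_succ, List.ofFn_succ, List.map_cons, List.map_cons, chg]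
    have h : Alt.alt e G y ≤ (if G (e 0) y = G (e (Fin.succ 0)) y then 0 else 1) +
        Alt.alt (fun i : Fin (N + 1) => e i.succ) G y := by
      unfold Alt.alt
      rw [Fin.card_filter_univ_succ]
      have h2 : ∀ i : Fin (N + 1), (∃ h : i.succ.1 + 1 < N + 2,
          G (e i.succ) y ≠ G (e ⟨i.succ.1 + 1, h⟩) y) → ∃ h : i.1 + 1 < N + 1,
          G (e i.succ) y ≠ G (e (Fin.succ ⟨i.1 + 1, h⟩)) y := by
        rintro i ⟨h, h'⟩
        rw [Fin.val_succ] at h
        exact ⟨by omega, h'⟩
      have h3 := Finset.card_le_card (Finset.monotone_filter_right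
        (Finset.univ : Finset (Fin (N + 1))) fun i _ => h2 i)
      split_ifs with h4 h5 h5
      · exfalso
        obtain ⟨_, h6⟩ := h4
        exact h6 h5
      · have h7 := h3
        simp only at h7 ⊢
        omega
      · simp only at h3 ⊢
        omega
      · simp only at h3 ⊢
        omega
    omega

/-- List first the rows `(x₁, x)` with `a x₁ = false` (their entries are `e`), then, in the order of `l`, for every `x ∈ l`
the rows `(x₁, x)` with `a x₁ = true`. A column is `replicate n₁ e ++ l.flatMap (fun x => replicate m (G x y)) ++ [e]`;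
`chg_flatMap`. -/
theorem PO.gateA {X Y X1 : Type} [Finite X1] {G : X → Y → Bool} {e : Bool} {n : ℕ} (a : X1 → Bool) (h : PO G e n) :
    PO (fun (x : X1 × X) (y : Y) => if a x.1 then G x.2 y else e) e n := by
  classical
  obtain ⟨l, h1, h2, h3⟩ := h
  have : Fintype X1 := Fintype.ofFinite X1
  set T := (Finset.univ : Finset X1).toList.filter (fun t => a t) with hT
  set F := (Finset.univ : Finset X1).toList.filter (fun t => !(a t)) with hF
  have hTn : T.Nodup := (Finset.nodup_toList _).filter _
  have hFn : F.Nodup := (Finset.nodup_toList _).filter _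
  have hTa : ∀ t ∈ T, a t = true := fun t ht => by
    rw [hT, List.mem_filter] at ht
    exact ht.2
  have hFa : ∀ t ∈ F, a t = false := fun t ht => by
    rw [hF, List.mem_filter] at ht
    simpa using ht.2
  refine ⟨l.flatMap (fun x => F.map (fun t => (t, x))) ++
    l.flatMap (fun x => T.map (fun t => (t, x))), ?_, ?_, ?_⟩
  · refine List.Nodup.append (po3_nodup h1 hFn) (po3_nodup h1 hTn) ?_
    intro z hz hz'
    have e1 := hFa z.1 ((po3_mem l F z).1 hz).2
    have e2 := hTa z.1 ((po3_mem l T z).1 hz').2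
    rw [e1] at e2
    exact Bool.false_ne_true e2
  · intro z
    rw [List.mem_append, po3_mem, po3_mem]
    cases hz : a z.1
    · left
      refine ⟨h2 _, ?_⟩
      rw [hF, List.mem_filter]
      exact ⟨Finset.mem_toList.2 (Finset.mem_univ _), by simp [hz]⟩
    · right
      refine ⟨h2 _, ?_⟩
      rw [hT, List.mem_filter]
      exact ⟨Finset.mem_toList.2 (Finset.mem_univ _), by simp [hz]⟩
  · intro y
    rw [List.map_append, po3_colF a e (fun x => G x y) l F hFa,
      po3_colT a e (fun x => G x y) l T hTa]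
    have h4 := chg_flatMap ((1, e) :: ((l.flatMap (fun x => F.map (fun t => (t, x)))).length, e) ::
      ((l.map fun x => (T.length, G x y)) ++ [(1, e)]))
    have h5 := h3 y
    simp only [List.flatMap_cons, List.flatMap_append, List.flatMap_nil, List.map_cons,
      List.map_append, List.map_nil, List.map_map, Function.comp_def, List.replicate_one,
      List.append_nil, List.cons_append, List.nil_append, chg, if_true, zero_add] at h4
    refine le_trans ?_ (h4.trans h5)
    rw [List.append_assoc]

/-- `l.flatMap (fun x => (all x₁).map (fun x₁ => (x₁, x)))`, `chg_flatMap`. (Or `PO.gateA` with `a = fun _ => true`.) -/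
theorem PO.liftX {X Y : Type} (X1 : Type) [Finite X1] {G : X → Y → Bool} {e : Bool} {n : ℕ} (h : PO G e n) :
    PO (fun (x : X1 × X) (y : Y) => G x.2 y) e n := by
  have h1 := PO.gateA (fun _ : X1 => true) h
  simpa using h1

/-- The enumeration `σ i = l[i]`, `N = l.length` (`l` is duplicate free and complete). The number of `i` with
`G l[i] y ≠ G l[i+1] y` is `chg (l.map (fun x => G x y))` (induction on the list; the definition of `alt` counts `i : Fin N`
with `∃ h : i.1 + 1 < N, ..`), which is at most `2 n` by `chg_drop`. -/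
theorem PO.alt {X Y : Type} {G : X → Y → Bool} {e : Bool} {n : ℕ} (h : PO G e n) :
    ∃ (N : ℕ) (σ : Fin N ≃ X), ∀ y, Alt.alt σ G y ≤ 2 * n := by
  classical
  obtain ⟨l, h1, h2, h3⟩ := h
  refine ⟨l.length, List.Nodup.getEquivOfForallMemList l h1 h2, fun y => ?_⟩
  have h4 := po3_alt G y (List.Nodup.getEquivOfForallMemList l h1 h2)
  have h5 : List.ofFn (List.Nodup.getEquivOfForallMemList l h1 h2) = l := List.ofFn_get l
  rw [h5] at h4
  exact h4.trans ((chg_drop e e _).trans (h3 y))

end Pool.Agent.H.MP_dd1c2e_lc.RO
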