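import Pool.Agent.H.MP_dd1c2e_lc.ro.Re2
import Pool.Agent.H.MP_dd1c2e_lc.alt.Hash
import Pool.Agent.H.MP_dd1c2e_lc.pdt.Comp

/-!
# Binary search, equality tests
-/

namespace Pool.Agent.H.MP_dd1c2e_lc.RO

open Finset Pool.Agent.H.MP_dd1c2e_lc.Alt

/-- Binary search for the number `s x y < 2 ^ n`, then the protocol for `Fs (s x y)`.

Proof. Induction on `n`, for all `s`, `Fs`. `n = 0`: `s x y = 0`, use the protocol for `Fs 0` (`RandE.mono` is not even
needed: `0 * kt + kf = kf`). Step from `n` to `n + 1`: `RandE.ite` with the test `2 ^ n ≤ s x y`. If it is true use the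
induction hypothesis for `s' = s - 2 ^ n`, `Fs' i = Fs (i + 2 ^ n)`; the tests `i ≤ s x y - 2 ^ n` are constantly true for
`i = 0` (`RandE.const`, `RandE.mono`) and equal to `i + 2 ^ n ≤ s x y` for `i ≥ 1`. If it is false use it for
`s' = min s (2 ^ n - 1)`, `Fs' = Fs`; the tests `i ≤ min (s x y) (2 ^ n - 1)` are equal to `i ≤ s x y` if
`i ≤ 2 ^ n - 1`, and constantly false otherwise. In both cases `s' x y < 2 ^ n` for all `x`, `y`, and `Fs' (s' x y) x y =
Fs (s x y) x y` for the inputs for which the branch is used. Cost `kt + (n * kt + kf)`, error `δt + (n δt + δf)`. -/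
theorem rand_search {X Y : Type} (n : ℕ) (s : X → Y → ℕ) (Fs : ℕ → X → Y → Bool) (kt kf : ℕ) (δt δf : ℝ)
    (h0 : 0 ≤ δt) (hs : ∀ x y, s x y < 2 ^ n) (ht : ∀ i, RandE (fun x y => decide (i ≤ s x y)) kt δt)
    (hF : ∀ i, RandE (Fs i) kf δf) : RandE (fun x y => Fs (s x y) x y) (n * kt + kf) ((n : ℝ) * δt + δf) := by
  induction n generalizing s Fs with
  | zero =>
    have e : (fun x y => Fs (s x y) x y) = Fs 0 := by
      funext x y
      have h1 := hs x y
      rw [pow_zero] at h1
      have h2 : s x y = 0 := by omega
      rw [h2]
    rw [e]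
    refine (hF 0).mono (by omega) ?_
    rw [Nat.cast_zero, zero_mul, zero_add]
  | succ n ih =>
    have hp : 0 < 2 ^ n := by positivity
    have h1 : RandE (fun x y => Fs ((s x y - 2 ^ n) + 2 ^ n) x y) (n * kt + kf)
        ((n : ℝ) * δt + δf) := by
      refine ih (fun x y => s x y - 2 ^ n) (fun i => Fs (i + 2 ^ n)) (fun x y => ?_) (fun i => ?_)
        (fun i => hF _)
      · have h2 := hs x y
        rw [pow_succ] at h2
        show s x y - 2 ^ n < 2 ^ n
        omega
      · rcases Nat.eq_zero_or_pos i with hi | hi
        · have e : (fun x y => decide (i ≤ s x y - 2 ^ n)) = fun (_ : X) (_ : Y) => true := by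
            funext x y
            rw [hi]
            exact decide_eq_true (Nat.zero_le _)
          rw [e]
          exact (RandE.const true).mono (Nat.zero_le _) h0
        · have e : (fun x y => decide (i ≤ s x y - 2 ^ n)) =
              fun (x : X) (y : Y) => decide (i + 2 ^ n ≤ s x y) := by
            funext x y
            have h3 : (i ≤ s x y - 2 ^ n) = (i + 2 ^ n ≤ s x y) := propext (by omega)
            simp only [h3]
          rw [e]
          exact ht _
    have h2 : RandE (fun x y => Fs (min (s x y) (2 ^ n - 1)) x y) (n * kt + kf)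
        ((n : ℝ) * δt + δf) := by
      refine ih (fun x y => min (s x y) (2 ^ n - 1)) Fs (fun x y => ?_) (fun i => ?_) hF
      · show min (s x y) (2 ^ n - 1) < 2 ^ n
        omega
      · rcases Nat.lt_or_ge (2 ^ n - 1) i with hi | hi
        · have e : (fun x y => decide (i ≤ min (s x y) (2 ^ n - 1))) =
              fun (_ : X) (_ : Y) => false := by
            funext x y
            exact decide_eq_false (by omega)
          rw [e]
          exact (RandE.const false).mono (Nat.zero_le _) h0
        · have e : (fun x y => decide (i ≤ min (s x y) (2 ^ n - 1))) =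
              fun (x : X) (y : Y) => decide (i ≤ s x y) := by
            funext x y
            have h3 : (i ≤ min (s x y) (2 ^ n - 1)) = (i ≤ s x y) := propext (by omega)
            simp only [h3]
          rw [e]
          exact ht _
    have h3 := RandE.ite (ht (2 ^ n)) h1 h2
    have e : (fun x y => if decide (2 ^ n ≤ s x y) then Fs ((s x y - 2 ^ n) + 2 ^ n) x y
        else Fs (min (s x y) (2 ^ n - 1)) x y) = fun x y => Fs (s x y) x y := by
      funext x y
      by_cases h4 : 2 ^ n ≤ s x y
      · rw [if_pos (decide_eq_true h4), Nat.sub_add_cancel h4]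
      · have h5 : ¬ (decide (2 ^ n ≤ s x y) = true) := by
          rw [decide_eq_true_eq]
          exact h4
        have h6 : min (s x y) (2 ^ n - 1) = s x y := by omega
        rw [if_neg h5, h6]
    rw [e] at h3
    refine h3.mono (le_of_eq (by ring)) (le_of_eq ?_)
    push_cast
    ring

/-- A blocky matrix is an equality test: Alice sends a random hash value of `α x` with `t` bits, Bob answers whether it is
equal to that of `β y`.

Proof. Let `Z`, `α`, `β` be as in the definition; `Z` is finite, take `Fintype Z` and `DecidableEq Z` (classical). Coins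
`Ω = (Z → Fin t → Bool)`, `|Ω| = 2 ^ (t * |Z|)`. For `h ∈ Ω` the function `G h x y = decide (h (α x) = h (β y))` has a
deterministic protocol with `t + 1` bits: Alice sends the `t` bits of `h (α x)`, Bob sends the answer (build the protocol
by recursion on the number of bits; `alt/Srch.lean` has a similar construction; e.g. show by induction on `m` that for
all `f : X → Fin m → Bool` and all `g : (Fin m → Bool) → Y → Bool` the function `g (f x) y` is computed by a protocol of
depth `m + 1`). If `α x = β y` the answer is always right. If `α x ≠ β y` it is wrong for the `h` with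
`h (α x) = h (β y)`, by `card_collide` a fraction `2 ^ (-t)`. -/
theorem rand_blocky {X Y : Type} {u : X → Y → Bool} (h : Blocky u) (t : ℕ) : RandE u (t + 1) ((1 / 2 : ℝ) ^ t) := by
  classical
  obtain ⟨Z, hZ, α, β, hu⟩ := h
  letI : Fintype Z := Fintype.ofFinite Z
  have hdet : ∀ h : Z → Fin t → Bool,
      DetComputes (fun x y => decide (h (α x) = h (β y))) (t + 1) := by
    intro h
    refine det_alice_bits (fun x => h (α x)) fun v => ?_
    refine comp_det_swap (det_one (fun y => decide (v = h (β y))) fun y x => ?_)
    show decide (h (α x.1) = h (β y)) = decide (v = h (β y))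
    rw [x.2]
  choose P hP1 hP2 using hdet
  refine ⟨Z → Fin t → Bool, inferInstance, t * Fintype.card Z, P, ?_, hP1, fun x y => ?_⟩
  · simp only [Fintype.card_fun, Fintype.card_bool, Fintype.card_fin]
    rw [pow_mul]
  · by_cases hxy : α x = β y
    · have h1 : (univ.filter fun ω => (P ω).run x y ≠ u x y) = ∅ := by
        refine Finset.filter_false_of_mem fun ω _ => ?_
        rw [hP2, (hu x y).2 hxy]
        show ¬(decide (ω (α x) = ω (β y)) ≠ true)
        rw [hxy]
        simp
      rw [h1, Finset.card_empty, Nat.cast_zero]
      positivity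
    · have h1 : (univ.filter fun ω => (P ω).run x y ≠ u x y) =
          univ.filter fun ω : Z → Fin t → Bool => ω (α x) = ω (β y) := by
        refine Finset.filter_congr fun ω _ => ?_
        have h2 : u x y = false := by
          rw [Bool.eq_false_iff]
          exact fun h => hxy ((hu x y).1 h)
        rw [hP2, h2]
        show decide (ω (α x) = ω (β y)) ≠ false ↔ ω (α x) = ω (β y)
        simp
      rw [h1]
      have h2 := card_collide t (α x) (β y) hxy
      have h3 : ((univ.filter fun ω : Z → Fin t → Bool => ω (α x) = ω (β y)).card : ℝ) * 2 ^ t =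
          (Fintype.card (Z → Fin t → Bool) : ℝ) := by
        exact_mod_cast h2
      rw [← h3, one_div, inv_pow]
      have h4 : (2 : ℝ) ^ t ≠ 0 := by positivity
      refine le_of_eq ?_
      field_simp

end Pool.Agent.H.MP_dd1c2e_lc.RO
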