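import Pool.Agent.H.MP_dd1c2e_lc.ro.Re2

/-!
# Amplification, and the connection with the definition with error `1/3`
-/

namespace Pool.Agent.H.MP_dd1c2e_lc.RO

open Finset Pool.Agent.H.MP_dd1c2e_lc.Alt

/-- `Ω = Fin r → Bool`; the number of bad coins is `2 ^ r` minus the number of good coins. -/
theorem RandE.ofRand {X Y : Type} {F : X → Y → Bool} {k : ℕ} (h : RandComputes F k) : RandE F k (1 / 3) := by
  obtain ⟨r, P, hd, hP⟩ := h
  refine ⟨Fin r → Bool, inferInstance, r, P, by simp, hd, fun x y => ?_⟩
  have h1 := hP x y
  have h2 : (univ.filter fun ω : Fin r → Bool => (P ω).run x y = F x y).card +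
      (univ.filter fun ω : Fin r → Bool => (P ω).run x y ≠ F x y).card = 2 ^ r := by
    have := Finset.card_filter_add_card_filter_not (s := (univ : Finset (Fin r → Bool)))
      (fun ω => (P ω).run x y = F x y)
    simpa using this
  have hc : Fintype.card (Fin r → Bool) = 2 ^ r := by simp
  rw [hc]
  have h3 : 3 * (univ.filter fun ω : Fin r → Bool => (P ω).run x y ≠ F x y).card ≤ 2 ^ r := by omega
  have h4 : (3 : ℝ) * ((univ.filter fun ω : Fin r → Bool => (P ω).run x y ≠ F x y).card : ℝ) ≤
      ((2 ^ r : ℕ) : ℝ) := by exact_mod_cast h3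
  linarith

/-- Transport the coins along an equivalence `(Fin r → Bool) ≃ Ω` (`Fintype.equivOfCardEq`). -/
theorem RandE.toRand {X Y : Type} {F : X → Y → Bool} {k : ℕ} (h : RandE F k (1 / 3)) : RandComputes F k := by
  obtain ⟨Ω, _, r, P, hc, hd, hP⟩ := h
  have e : (Fin r → Bool) ≃ Ω := Fintype.equivOfCardEq (by rw [hc]; simp)
  refine ⟨r, fun ω => P (e ω), fun ω => hd _, fun x y => ?_⟩
  have h1 : (univ.filter fun ω : Fin r → Bool => (P (e ω)).run x y = F x y).card =
      (univ.filter fun ω : Ω => (P ω).run x y = F x y).card := by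
    apply Finset.card_nbij' (fun ω => e ω) (fun ω => e.symm ω)
    · intro ω hω
      simpa using hω
    · intro ω hω
      simpa using hω
    · intro ω _
      simp
    · intro ω _
      simp
  rw [h1]
  have h2 : (univ.filter fun ω : Ω => (P ω).run x y = F x y).card +
      (univ.filter fun ω : Ω => (P ω).run x y ≠ F x y).card = 2 ^ r := by
    have := Finset.card_filter_add_card_filter_not (s := (univ : Finset Ω))
      (fun ω => (P ω).run x y = F x y)
    rw [Finset.card_univ, hc] at this
    exact this
  have h3 := hP x y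
  rw [hc] at h3
  have h4 : 3 * (univ.filter fun ω : Ω => (P ω).run x y ≠ F x y).card ≤ 2 ^ r := by
    have : (3 : ℝ) * ((univ.filter fun ω : Ω => (P ω).run x y ≠ F x y).card : ℝ) ≤
        ((2 ^ r : ℕ) : ℝ) := by linarith
    exact_mod_cast this
  omega

/-- Run a protocol, then one that depends on its output. -/
private def bindP {X Y : Type} (g : Bool → DProt X Y) : DProt X Y → DProt X Y
  | .leaf b => g b
  | .alice f P Q => .alice f (bindP g P) (bindP g Q)
  | .bob f P Q => .bob f (bindP g P) (bindP g Q)

private theorem bindP_run {X Y : Type} (g : Bool → DProt X Y) (P : DProt X Y) (x : X) (y : Y) :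
    (bindP g P).run x y = (g (P.run x y)).run x y := by
  induction P with
  | leaf b => rfl
  | alice f P Q hP hQ =>
    simp only [bindP, DProt.run]
    split_ifs
    · exact hP
    · exact hQ
  | bob f P Q hP hQ =>
    simp only [bindP, DProt.run]
    split_ifs
    · exact hP
    · exact hQ

private theorem bindP_depth {X Y : Type} (g : Bool → DProt X Y) (k : ℕ) (hg : ∀ b, (g b).depth ≤ k)
    (P : DProt X Y) : (bindP g P).depth ≤ P.depth + k := by
  induction P with
  | leaf b =>
    simp only [bindP, DProt.depth]
    have := hg b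
    omega
  | alice f P Q hP hQ =>
    simp only [bindP, DProt.depth]
    omega
  | bob f P Q hP hQ =>
    simp only [bindP, DProt.depth]
    omega

/-- Run `m` protocols one after the other. -/
private theorem exists_comb {X Y : Type} (k : ℕ) : ∀ (m : ℕ) (P : Fin m → DProt X Y)
    (f : (Fin m → Bool) → Bool), (∀ i, (P i).depth ≤ k) →
    ∃ Q : DProt X Y, Q.depth ≤ m * k ∧ ∀ x y, Q.run x y = f (fun i => (P i).run x y) := by
  intro m
  induction m with
  | zero =>
    intro P f _
    refine ⟨.leaf (f Fin.elim0), by simp [DProt.depth], fun x y => ?_⟩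
    simp only [DProt.run]
    congr 1
    funext i
    exact i.elim0
  | succ m ih =>
    intro P f hP
    have h1 := fun b : Bool => ih (fun i => P i.succ) (fun w => f (Fin.cons b w)) (fun i => hP _)
    choose Q hQ1 hQ2 using h1
    refine ⟨bindP Q (P 0), ?_, fun x y => ?_⟩
    · have h2 := bindP_depth Q (m * k) hQ1 (P 0)
      have h3 := hP 0
      have h4 : (m + 1) * k = m * k + k := by ring
      omega
    · rw [bindP_run, hQ2]
      congr 1
      funext i
      refine Fin.cases ?_ (fun j => ?_) i
      · simp
      · simp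

/-- Markov's inequality for the product weights. -/
private theorem count_bad {Ω : Type} [Fintype Ω] (bad : Ω → Bool) (t : ℕ)
    (h : ((univ.filter fun ω => bad ω = true).card : ℝ) ≤ 1 / 3 * (Fintype.card Ω : ℝ)) :
    ((univ.filter fun w : Fin (2 * t) → Ω => t ≤ (univ.filter fun i => bad (w i) = true).card).card : ℝ) ≤
      (8 / 9 : ℝ) ^ t * (Fintype.card (Fin (2 * t) → Ω) : ℝ) := by
  classical
  have hprod : ∀ w : Fin (2 * t) → Ω, ∏ i, (if bad (w i) = true then (2 : ℝ) else 1) =
      2 ^ (univ.filter fun i => bad (w i) = true).card := by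
    intro w
    rw [Finset.prod_ite, Finset.prod_const, Finset.prod_const_one, mul_one]
  have hsum : ∑ ω : Ω, (if bad ω = true then (2 : ℝ) else 1) ≤ 4 / 3 * (Fintype.card Ω : ℝ) := by
    have h1 : ∀ ω : Ω, (if bad ω = true then (2 : ℝ) else 1) = (if bad ω = true then (1 : ℝ) else 0) + 1 := by
      intro ω
      split_ifs <;> norm_num
    rw [Finset.sum_congr rfl fun ω _ => h1 ω, Finset.sum_add_distrib, Finset.sum_boole, Finset.sum_const,
      Finset.card_univ, nsmul_eq_mul, mul_one]
    linarith
  have hsum0 : 0 ≤ ∑ ω : Ω, (if bad ω = true then (2 : ℝ) else 1) := by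
    apply Finset.sum_nonneg
    intro ω _
    split_ifs <;> norm_num
  have h1 : ((univ.filter fun w : Fin (2 * t) → Ω =>
      t ≤ (univ.filter fun i => bad (w i) = true).card).card : ℝ) * 2 ^ t ≤
      ∑ w : Fin (2 * t) → Ω, ∏ i, (if bad (w i) = true then (2 : ℝ) else 1) := by
    calc ((univ.filter fun w : Fin (2 * t) → Ω =>
          t ≤ (univ.filter fun i => bad (w i) = true).card).card : ℝ) * 2 ^ t =
        ∑ w ∈ univ.filter (fun w : Fin (2 * t) → Ω =>
          t ≤ (univ.filter fun i => bad (w i) = true).card), (2 : ℝ) ^ t := by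
          rw [Finset.sum_const, nsmul_eq_mul]
      _ ≤ ∑ w ∈ univ.filter (fun w : Fin (2 * t) → Ω =>
          t ≤ (univ.filter fun i => bad (w i) = true).card),
            ∏ i, (if bad (w i) = true then (2 : ℝ) else 1) := by
          apply Finset.sum_le_sum
          intro w hw
          rw [hprod w]
          exact pow_le_pow_right₀ (by norm_num) (Finset.mem_filter.1 hw).2
      _ ≤ ∑ w : Fin (2 * t) → Ω, ∏ i, (if bad (w i) = true then (2 : ℝ) else 1) := by
          apply Finset.sum_le_sum_of_subset_of_nonneg (Finset.filter_subset _ _)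
          intro w _ _
          rw [hprod w]
          positivity
  rw [← Fintype.sum_pow (fun ω : Ω => if bad ω = true then (2 : ℝ) else 1) (2 * t)] at h1
  have h2 : (∑ ω : Ω, (if bad ω = true then (2 : ℝ) else 1)) ^ (2 * t) ≤
      (4 / 3 * (Fintype.card Ω : ℝ)) ^ (2 * t) := pow_le_pow_left₀ hsum0 hsum _
  have h3 : (4 / 3 * (Fintype.card Ω : ℝ)) ^ (2 * t) =
      (8 / 9 : ℝ) ^ t * (Fintype.card Ω : ℝ) ^ (2 * t) * 2 ^ t := by
    rw [mul_pow, pow_mul (4 / 3 : ℝ) 2 t]
    have : ((4 / 3 : ℝ) ^ 2) ^ t = (8 / 9 : ℝ) ^ t * 2 ^ t := by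
      rw [← mul_pow]
      norm_num
    rw [this]
    ring
  have h4 : (Fintype.card (Fin (2 * t) → Ω) : ℝ) = (Fintype.card Ω : ℝ) ^ (2 * t) := by
    rw [Fintype.card_fun, Fintype.card_fin]
    push_cast
    ring
  rw [h4]
  have h5 := h1.trans (h2.trans h3.le)
  exact le_of_mul_le_mul_right h5 (by positivity)

/-- Majority of `2 t` independent runs.

Proof. Coins `Fin (2 t) → Ω`. For deterministic protocols `P 0, ..., P (m - 1)` of depth at most `k` and
`f : (Fin m → Bool) → Bool` there is a protocol of depth at most `m k` with the run `f (fun i => (P i).run x y)` (run them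
one after the other, induction on `m`, replacing leaves). Take `f b = decide (t ≤ number of i with b i = true)`.
If the output is wrong then at least `t` of the `2 t` runs are wrong (if `F x y = true` the number of right runs is less
than `t`, so more than `t` are wrong; if `F x y = false`, at least `t` runs give `true`). Let `w ω = 2` for the bad and
`w ω = 1` for the good `ω ∈ Ω`, so `∑ w = |Ω| + |bad| ≤ (4/3) |Ω|`. The number of `(ω_i)` with at least `t` bad
coordinates is at most `∑ 2^(-t) ∏ i, w (ω_i) = 2^(-t) (∑ ω, w ω)^(2 t) ≤ 2^(-t) (4/3)^(2 t) |Ω|^(2 t) =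
(8/9)^t |Ω|^(2 t)` (`Finset.prod_univ_sum` or `Fintype.sum_pow`). -/
theorem RandE.amp {X Y : Type} {F : X → Y → Bool} {k : ℕ} (h : RandE F k (1 / 3)) (t : ℕ) :
    RandE F (2 * t * k) ((8 / 9 : ℝ) ^ t) := by
  classical
  obtain ⟨Ω, _, r, P, hc, hd, hP⟩ := h
  have h1 := fun w : Fin (2 * t) → Ω => exists_comb k (2 * t) (fun i => P (w i))
    (fun b => decide (t ≤ (univ.filter fun i => b i = true).card)) (fun i => hd _)
  choose Q hQ1 hQ2 using h1
  refine ⟨Fin (2 * t) → Ω, inferInstance, r * (2 * t), Q, ?_, hQ1, fun x y => ?_⟩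
  · rw [Fintype.card_fun, Fintype.card_fin, hc, ← pow_mul]
  · have h2 := count_bad (fun ω => decide ((P ω).run x y ≠ F x y)) t (by
      have h3 := hP x y
      simpa using h3)
    refine le_trans ?_ h2
    have h3 : (univ.filter fun w : Fin (2 * t) → Ω => (Q w).run x y ≠ F x y) ⊆
        univ.filter fun w : Fin (2 * t) → Ω =>
          t ≤ (univ.filter fun i => decide ((P (w i)).run x y ≠ F x y) = true).card := by
      intro w hw
      rw [mem_filter] at hw ⊢
      refine ⟨mem_univ _, ?_⟩
      have h4 := hw.2
      rw [hQ2] at h4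
      have h5 : (univ.filter fun i : Fin (2 * t) => (P (w i)).run x y = true).card +
          (univ.filter fun i : Fin (2 * t) => ¬ (P (w i)).run x y = true).card = 2 * t := by
        have := Finset.card_filter_add_card_filter_not (s := (univ : Finset (Fin (2 * t))))
          (fun i => (P (w i)).run x y = true)
        simpa using this
      cases hF : F x y with
      | true =>
        rw [hF] at h4
        have h6 : ¬ t ≤ (univ.filter fun i : Fin (2 * t) => (P (w i)).run x y = true).card := by
          intro h7
          exact h4 (decide_eq_true h7)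
        have h7 : (univ.filter fun i : Fin (2 * t) => decide ((P (w i)).run x y ≠ true) = true) =
            univ.filter fun i : Fin (2 * t) => ¬ (P (w i)).run x y = true := by
          apply Finset.filter_congr
          intro i _
          rw [decide_eq_true_iff]
        rw [h7]
        omega
      | false =>
        rw [hF] at h4
        have h6 : t ≤ (univ.filter fun i : Fin (2 * t) => (P (w i)).run x y = true).card := by
          by_contra h7
          exact h4 (decide_eq_false h7)
        have h7 : (univ.filter fun i : Fin (2 * t) => decide ((P (w i)).run x y ≠ false) = true) =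
            univ.filter fun i : Fin (2 * t) => (P (w i)).run x y = true := by
          apply Finset.filter_congr
          intro i _
          rw [decide_eq_true_iff]
          exact Bool.ne_false_iff
        rw [h7]
        exact h6
    exact_mod_cast Finset.card_le_card h3

end Pool.Agent.H.MP_dd1c2e_lc.RO
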