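import Pool.Agent.H.MP_dd1c2e_lc.ro.Qs
import Pool.Agent.H.MP_dd1c2e_lc.ro.Bl
import Pool.Agent.H.MP_dd1c2e_lc.ro.Re3
import Pool.Agent.H.MP_dd1c2e_lc.ro.Re4
import Pool.Agent.H.MP_dd1c2e_lc.ro.Po3
import Pool.Agent.H.MP_dd1c2e_lc.alt.Fin3

/-!
# The cost of chain functions
-/

namespace Pool.Agent.H.MP_dd1c2e_lc.RO

open Finset Pool.Agent.H.MP_dd1c2e_lc.Alt

theorem EvC_four (q : ℕ) : (4 ^ q + 1) ^ 2 ≤ 4 * 16 ^ q := by
  have h1 : (16 : ℕ) ^ q = (4 ^ q) ^ 2 := by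
    rw [← pow_mul, mul_comm q 2, pow_mul]
    norm_num
  have h2 : (1 : ℕ) ≤ 4 ^ q := Nat.one_le_pow _ _ (by norm_num)
  rw [h1]
  nlinarith [h2, Nat.mul_le_mul h2 h2]

theorem EvC_lin (q : ℕ) : 4 * q + 11 ≤ 11 * 2 ^ q := by
  induction q with
  | zero => norm_num
  | succ q ih =>
    rw [pow_succ]
    have h2 : (1 : ℕ) ≤ 2 ^ q := Nat.one_le_pow _ _ (by norm_num)
    omega

theorem EvC_clog (q : ℕ) : Nat.clog 2 (3 * ((4 * q + 11) * (578 * 16 ^ q))) ≤ 5 * q + 15 := by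
  refine Nat.clog_le_of_le_pow ?_
  have h1 : (2 : ℕ) ^ (5 * q + 15) = 32768 * (2 ^ q * 16 ^ q) := by
    rw [pow_add, pow_mul, ← mul_pow]
    norm_num
    ring
  rw [h1]
  calc 3 * ((4 * q + 11) * (578 * 16 ^ q)) ≤ 3 * ((11 * 2 ^ q) * (578 * 16 ^ q)) := by
        exact Nat.mul_le_mul_left _ (Nat.mul_le_mul_right _ (EvC_lin q))
    _ = 19074 * (2 ^ q * 16 ^ q) := by ring
    _ ≤ 32768 * (2 ^ q * 16 ^ q) := Nat.mul_le_mul_right _ (by norm_num)

theorem EvC_goodT {X Y : Type} {G : X → Y → Bool} {q : ℕ} (h : GoodT G) (hq : QuantumComputes G q) :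
    RandE G ((4 * q + 10) * (5 * q + 16)) (1 / 3) := by
  obtain ⟨n0, n1, -, h1, h2, -, -, -⟩ := h
  obtain ⟨N, σ, hσ⟩ := PO.alt h1
  have h3 := lit_quantum_T G q _ hq h2
  have h4 := EvC_four q
  have h5 : 2 * n1 ≤ 578 * 16 ^ q := by
    have h6 : (1 : ℕ) ≤ 16 ^ q := Nat.one_le_pow _ _ (by norm_num)
    omega
  have h7 := rand_quantum N (578 * 16 ^ q) q σ G (fun y => (hσ y).trans h5) hq
  refine (RandE.ofRand h7).mono ?_ le_rfl
  exact Nat.mul_le_mul_left _ (Nat.add_le_add_right (EvC_clog q) 1)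

theorem EvC_bd (q k : ℕ) (r : Bool) (hk : k ≤ 36 * (4 ^ q + 1) ^ 2) :
    k + (if r then 1 else 0) < 2 ^ (4 * q + 8) := by
  have h1 := EvC_four q
  have h2 : (1 : ℕ) ≤ 16 ^ q := Nat.one_le_pow _ _ (by norm_num)
  have h3 : (2 : ℕ) ^ (4 * q + 8) = 256 * 16 ^ q := by
    rw [pow_add, pow_mul]
    norm_num
    ring
  rw [h3]
  cases r <;> simp <;> omega

/-- Proof. First `GoodT G`: let `n1` be as in the definition. `PO.alt` gives an enumeration `σ` of the rows with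
`alt σ G y ≤ 2 n1` for all `y`. `lit_quantum_T` and `DB G (n1 / 2) univ` give `n1 / 2 ≤ 36 (4^q + 1)²`, so
`n1 ≤ 72 (4^q + 1)² + 1 ≤ 289 * 16^q`. `rand_quantum` with `K = 578 * 16^q` gives the cost
`(4 q + 10) (clog 2 (3 ((4 q + 11) K)) + 1)`, and `3 (4 q + 11) * 578 * 16^q ≤ 2^(5 q + 15)` (because
`4 q + 11 ≤ 11 * 2^q` and `3 * 11 * 578 = 19074 ≤ 2^15`), so `clog ≤ 5 q + 15`; `RandE.ofRand`. For `Good false G` apply this
to the complement (`quantum_not`) and use `RandE.map`. -/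
theorem good_cost {X Y : Type} {G : X → Y → Bool} {c : Bool} {q : ℕ} (h : Good c G) (hq : QuantumComputes G q) :
    RandE G ((4 * q + 10) * (5 * q + 16)) (1 / 3) := by
  have hq' : QuantumComputes (fun x y => Bool.xor (G x y) (!c)) q := by
    cases c with
    | true =>
      have e : (fun (x : X) (y : Y) => Bool.xor (G x y) (!true)) = G := by
        funext x y
        simp
      rw [e]
      exact hq
    | false =>
      have e : (fun (x : X) (y : Y) => Bool.xor (G x y) (!false)) = fun x y => !(G x y) := by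
        funext x y
        simp
      rw [e]
      exact quantum_not hq
  have h1 := RandE.map (fun b => Bool.xor b (!c)) (EvC_goodT h hq')
  have e : (fun (x : X) (y : Y) => (fun b => Bool.xor b (!c)) (Bool.xor (G x y) (!c))) = G := by
    funext x y
    cases G x y <;> cases c <;> rfl
  rw [← e]
  exact h1

/-- Proof. Let `φA x y = flA x (sA x y)` with `sA x y ≤ kA + 1` (`FlipA`), and `φB x y = flB y (sB x y)` with
`sB x y ≤ kB + 1` (`FlipB`, that is `FlipA` for the transposed matrices). `lit_quantum` and `lit_quantum_T` give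
`kA, kB ≤ 36 (4^q + 1)² ≤ 144 * 16^q`, so `sA x y, sB x y < 2^(4 q + 8)`. The tests `i ≤ sA x y`, `i ≤ sB x y` are blocky:
`rand_blocky` (`Blocky.swap` for `sB`). Put `n = 4 q + 8`, `ρ = (4 q + 10) (5 q + 16)`.
(1) `F3 x y = Gc (oA x) x y = if oA x then Gc true x y else Gc false x y`: `good_cost`, `RandE.amp`, `RandE.ite` with
`RandE.ofA`: cost `1 + 2 t ρ`, error `(8/9)^t`. (`QuantumComputes (Gc c) q` by `quantum_sub`.)
(2) `F2 x y = flB y (sB x y) ⊕ F3 x y`: `rand_search` with `Fs i x y = flB y i ⊕ F3 x y` (`RandE.flipB`): cost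
`n (t + 1) + 1 + 1 + 2 t ρ`, error `n (1/2)^t + (8/9)^t`.
(3) `G x y = flA x (sA x y) ⊕ F2 x y`: `rand_search` with `Fs i x y = flA x i ⊕ F2 x y` (`RandE.flipA`): cost
`2 n (t + 1) + 3 + 2 t ρ`, error `2 n (1/2)^t + (8/9)^t ≤ (8 q + 17) (8/9)^t`. -/
theorem ev_cost {X Y : Type} {G : X → Y → Bool} {q : ℕ} (h : Ev G) (hq : QuantumComputes G q) (t : ℕ) :
    RandE G (2 * ((4 * q + 8) * (t + 1)) + 3 + 2 * t * ((4 * q + 10) * (5 * q + 16)))
      ((8 * (q : ℝ) + 17) * (8 / 9 : ℝ) ^ t) := by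
  obtain ⟨φA, φB, oA, Gc, hG, hA, hB, hc⟩ := h
  obtain ⟨sA, flA, kA, rA, hA1, hA2, hA3, hA4, -⟩ := hA
  obtain ⟨sB, flB, kB, rB, hB1, hB2, hB3, hB4, -⟩ := hB
  have hkA := lit_quantum G q kA hq hA4
  have hkB := lit_quantum_T G q kB hq hB4
  have hsA : ∀ x y, sA x y < 2 ^ (4 * q + 8) := fun x y =>
    lt_of_le_of_lt (hA2 x y) (EvC_bd q kA rA hkA)
  have hsB : ∀ x y, sB y x < 2 ^ (4 * q + 8) := fun x y =>
    lt_of_le_of_lt (hB2 y x) (EvC_bd q kB rB hkB)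
  have hhalf : (0 : ℝ) ≤ (1 / 2 : ℝ) ^ t := by positivity
  have hcost : ∀ c, RandE (Gc c) (2 * t * ((4 * q + 10) * (5 * q + 16))) ((8 / 9 : ℝ) ^ t) :=
    fun c => RandE.amp (good_cost (hc c).1 (quantum_sub hq (hc c).2)) t
  have h3 := RandE.ite (RandE.ofA (Y := Y) oA) (hcost true) (hcost false)
  have e3 : (fun x y => if oA x then Gc true x y else Gc false x y) =
      fun x y => Gc (oA x) x y := by
    funext x y
    cases oA x <;> rfl
  rw [e3] at h3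
  have h2 := rand_search (4 * q + 8) (fun x y => sB y x)
    (fun i x y => Bool.xor (flB y i) (Gc (oA x) x y)) (t + 1)
    ((1 + 2 * t * ((4 * q + 10) * (5 * q + 16))) + 1) ((1 / 2 : ℝ) ^ t) (0 + (8 / 9 : ℝ) ^ t)
    hhalf hsB (fun i => rand_blocky (Blocky.swap (hB3 i)) t)
    (fun i => RandE.flipB (fun y => flB y i) h3)
  have h1 := rand_search (4 * q + 8) sA
    (fun i x y => Bool.xor (flA x i) (Bool.xor (flB y (sB y x)) (Gc (oA x) x y))) (t + 1)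
    (((4 * q + 8) * (t + 1) + ((1 + 2 * t * ((4 * q + 10) * (5 * q + 16))) + 1)) + 1)
    ((1 / 2 : ℝ) ^ t) (((4 * q + 8 : ℕ) : ℝ) * (1 / 2 : ℝ) ^ t + (0 + (8 / 9 : ℝ) ^ t))
    hhalf hsA (fun i => rand_blocky (hA3 i) t)
    (fun i => RandE.flipA (fun x => flA x i) h2)
  have e1 : (fun x y => Bool.xor (flA x (sA x y))
      (Bool.xor (flB y (sB y x)) (Gc (oA x) x y))) = G := by
    funext x y
    rw [hG x y, hA1 x y]
    have e2 : φB x y = flB y (sB y x) := hB1 y x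
    rw [e2]
  have h0 : RandE G ((4 * q + 8) * (t + 1) +
      (((4 * q + 8) * (t + 1) + ((1 + 2 * t * ((4 * q + 10) * (5 * q + 16))) + 1)) + 1))
      (((4 * q + 8 : ℕ) : ℝ) * (1 / 2 : ℝ) ^ t +
        (((4 * q + 8 : ℕ) : ℝ) * (1 / 2 : ℝ) ^ t + (0 + (8 / 9 : ℝ) ^ t))) := by
    rw [← e1]
    exact h1
  refine h0.mono (le_of_eq (by ring)) ?_
  have h4 : (1 / 2 : ℝ) ^ t ≤ (8 / 9 : ℝ) ^ t := pow_le_pow_left₀ (by norm_num) (by norm_num) t
  push_cast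
  have h5 : (0 : ℝ) ≤ (q : ℝ) := Nat.cast_nonneg q
  nlinarith [mul_le_mul_of_nonneg_left h4 h5]

end Pool.Agent.H.MP_dd1c2e_lc.RO
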