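import Pool.Agent.H.MP_dd1c2e_lc.ro.Pj
import Pool.Agent.H.MP_dd1c2e_lc.ro.Qs
import Pool.Agent.H.MP_dd1c2e_lc.Base
import Pool.Agent.H.MP_dd1c2e_lc.Amp
import Pool.Agent.H.MP_dd1c2e_lc.QAcc

/-!
# Lower bound for the inner product
-/

namespace Pool.Agent.H.MP_dd1c2e_lc.RO

open Finset Pool.Agent.H.MP_dd1c2e_lc.Alt

theorem Ip_ep_one : ep 2 (1 : ZMod 2) = -1 := by
  have h1 : ep 2 (1 : ZMod 2) * ep 2 (1 : ZMod 2) = 1 := by
    rw [← ep_add, show (1 : ZMod 2) + 1 = 0 from by decide, ep_zero]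
  have h2 : ep 2 (1 : ZMod 2) ≠ 1 := fun h => absurd (ep_eq_one 2 1 h) (by decide)
  rcases mul_self_eq_one_iff.1 h1 with h | h
  · exact absurd h h2
  · exact h

/-- The value of a row of the inner product in `ZMod 2`. -/
def IpM (k : ℕ) (x : Fin k → Bool) (w : Fin k → ZMod 2) : ZMod 2 :=
  ∑ i, if x i = true then w i else 0

theorem IpM_add (k : ℕ) (x : Fin k → Bool) (w w' : Fin k → ZMod 2) :
    IpM k x (w + w') = IpM k x w + IpM k x w' := by
  unfold IpM
  rw [← Finset.sum_add_distrib]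
  refine Finset.sum_congr rfl fun i _ => ?_
  split_ifs
  · rfl
  · rw [add_zero]

theorem IpM_single (k : ℕ) (x : Fin k → Bool) (i : Fin k) :
    IpM k x (Pi.single i 1) = if x i = true then 1 else 0 := by
  unfold IpM
  rw [Finset.sum_eq_single i]
  · rw [Pi.single_eq_same]
  · intro j _ hj
    rw [Pi.single_eq_of_ne hj, ite_self]
  · intro h
    exact absurd (Finset.mem_univ i) h

theorem IpM_inj (k : ℕ) : Function.Injective (IpM k) := by
  intro x x' h
  funext i
  have h1 : IpM k x (Pi.single i 1) = IpM k x' (Pi.single i 1) := by rw [h]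
  rw [IpM_single, IpM_single] at h1
  cases hx : x i <;> cases hx' : x' i <;> rw [hx, hx'] at h1 <;> first | rfl | exact absurd h1 (by decide)

theorem IpM_card (k : ℕ) (x : Fin k → Bool) (w : Fin k → ZMod 2) :
    IpM k x w = ((univ.filter fun i => (x i && decide (w i = 1)) = true).card : ZMod 2) := by
  have hz : ∀ a : ZMod 2, a = if a = 1 then 1 else 0 := by decide
  unfold IpM
  rw [Finset.card_filter]
  push_cast
  refine Finset.sum_congr rfl fun i _ => ?_
  cases hx : x i with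
  | false => simp
  | true =>
    simp only [Bool.true_and, decide_eq_true_eq, if_true]
    exact hz (w i)

theorem Ip_ep (k : ℕ) (x : Fin k → Bool) (w : Fin k → ZMod 2) :
    (if IPc false k x (fun i => decide (w i = 1)) = true then (-1 : ℂ) else 1) = ep 2 (IpM k x w) := by
  rw [IpM_card]
  obtain ⟨n, hn⟩ : ∃ n, n = (univ.filter fun i => (x i && decide (w i = 1)) = true).card := ⟨_, rfl⟩
  have hI : IPc false k x (fun i => decide (w i = 1)) = decide (n % 2 = 1) := by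
    rw [hn]
    exact Bool.false_xor _
  rw [hI, ← hn]
  by_cases h : n % 2 = 1
  · have h1 : ((n : ℕ) : ZMod 2) = 1 := by
      rw [← Nat.cast_one, ZMod.natCast_eq_natCast_iff']
      omega
    rw [if_pos (decide_eq_true h), h1, Ip_ep_one]
  · have h1 : ((n : ℕ) : ZMod 2) = 0 := by
      rw [← Nat.cast_zero, ZMod.natCast_eq_natCast_iff']
      omega
    rw [if_neg (fun h' => h (of_decide_eq_true h')), h1, ep_zero]

theorem Ip_false {X Y : Type} {F : X → Y → Bool} {q k : ℕ} (hq : QuantumComputes F q)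
    (h : Sub F (IPc false k)) : k ≤ 36 * q + 48 := by
  obtain ⟨P, hP, h01, h1, h0⟩ := quantum_G2 (quantum_sub hq h)
  have h4 : (1 : ℝ) ≤ 4 ^ q := one_le_pow₀ (by norm_num)
  obtain ⟨Q, hQ, hQF⟩ := amplify h4 hP h01 h1 h0 2
  have hg : (1 : ℝ) ≤ 5 ^ (3 ^ 2) * (4 ^ q) ^ (3 ^ 2) := by
    have h5 : (1 : ℝ) ≤ 5 ^ (3 ^ 2) := one_le_pow₀ (by norm_num)
    have h6 : (1 : ℝ) ≤ (4 ^ q) ^ (3 ^ 2) := one_le_pow₀ h4
    exact one_le_mul_of_one_le_of_one_le h5 h6
  have hA := (apx_of_bool hg hQ hQF (-1) (by simp)).pull id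
    (fun (w : Fin k → ZMod 2) i => decide (w i = 1))
  have hA2 : Apx (fun x w => ep 2 (IpM k x w)) (1 / 2) ((2 : ℝ) ^ (18 * q + 23)) := by
    obtain ⟨A, hA1, hA3⟩ := hA
    refine ⟨A, hA1.mono ?_, fun x w => ?_⟩
    · have e1 : ((4 : ℝ) ^ q) ^ (3 ^ 2) = 2 ^ (18 * q) := by
        rw [← pow_mul, show (4 : ℝ) = 2 ^ 2 by norm_num, ← pow_mul]
        congr 1
        ring
      rw [e1, pow_add]
      have h7 : (0 : ℝ) ≤ 2 ^ (18 * q) := by positivity
      have h8 : (3 : ℝ) * 5 ^ (3 ^ 2) ≤ 2 ^ 23 := by norm_num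
      calc (3 : ℝ) * (5 ^ (3 ^ 2) * 2 ^ (18 * q)) = (3 * 5 ^ (3 ^ 2)) * 2 ^ (18 * q) := by ring
        _ ≤ 2 ^ 23 * 2 ^ (18 * q) := mul_le_mul_of_nonneg_right h8 h7
        _ = 2 ^ (18 * q) * 2 ^ 23 := mul_comm _ _
    · have h9 := hA3 x w
      simp only [id_eq] at h9
      rw [Ip_ep] at h9
      refine h9.trans ?_
      norm_num
  have hc := count_of_apx 2 (IpM k) (IpM_add k) (18 * q + 23) hA2
  have hr : (Set.range (IpM k)).ncard = 2 ^ k := by
    rw [← Set.image_univ, Set.ncard_image_of_injective _ (IpM_inj k), Set.ncard_univ,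
      Nat.card_eq_fintype_card, Fintype.card_fun, Fintype.card_bool, Fintype.card_fin]
  rw [hr, Nat.pow_le_pow_iff_right (by norm_num)] at hc
  omega

/-- Proof. `quantum_sub`, `quantum_G2` give `P` with `γ₂ ≤ 4^q`, and `amplify` with two steps gives `Q` with
`γ₂(Q) ≤ 5^9 * (4^q)^9` and `|Q - IPc c k| ≤ (7/9)² / 3 ≤ 1/4`. Relabel the columns by `w : Fin k → ZMod 2`,
`y i = decide (w i = 1)`, and the rows by themselves: for `M x w = ∑ i, (if x i then w i else 0) : ZMod 2` one has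
`ep 2 (M x w) = 1 - 2 [M x w = 1] = ± (1 - 2 [IPc c k x y])` with the sign depending on `c` only, so
`A x w = ± (1 - 2 Q x y)` approximates `ep 2 (M x w)` within `1/2`, and `γ₂(A) ≤ 1 + 2 * 5^9 * 4^(9 q) ≤ 2^(18 q + 23)`
(`G2.one`, `G2.add`, `G2.smul`: write `2 Q = Q + Q`). `count_of_apx` with `p = 2`, `L = 18 q + 23`: the number of different
rows `M x` is at most `2^(36 q + 48)`. `x ↦ M x` is injective (`w = Pi.single i 1`), so there are `2^k` of them and
`k ≤ 36 q + 48`. -/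
theorem IP_bound {X Y : Type} {F : X → Y → Bool} {q k : ℕ} {c : Bool} (hq : QuantumComputes F q)
    (h : Sub F (IPc c k)) : k ≤ 36 * q + 48 := by
  cases c with
  | false => exact Ip_false hq h
  | true => exact Ip_false (quantum_not hq) (sub_IP_not h)

end Pool.Agent.H.MP_dd1c2e_lc.RO
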