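import Pool.Agent.H.MP_dd1c2e_lc.ro.In3
import Pool.Agent.H.MP_dd1c2e_lc.ro.EvC
import Pool.Agent.H.MP_dd1c2e_lc.ro.Dj2
import Pool.Agent.H.MP_dd1c2e_lc.ro.Ip

/-!
# The final bound for read-once compositions
-/

namespace Pool.Agent.H.MP_dd1c2e_lc.RO

open Finset Pool.Agent.H.MP_dd1c2e_lc.Alt

/-- The error bound for `t = 400 (q + 1)` repetitions.

Proof. `(8/9)^400 ≤ 10^(-20)` (numerically `3.5 * 10^(-21)`; for instance `(8/9)^50 ≤ 1 / 360` by `norm_num`, and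
`360^8 ≥ 2.8 * 10^20`), so `(8/9)^(400 (q+1)) = ((8/9)^400)^(q+1) ≤ 10^(-20) * 10^(-20 q)`. With `8 q + 17 ≤ 17 (q + 1)` the
left side is at most `5 * 276480000 * 17 * (q + 1)^6 * 10^(-20) * 10^(-20 q) ≤ 2.4 * 10^(-10)`, because
`(q + 1)^6 ≤ 10^(20 q)` (`q + 1 ≤ 10^q`). -/
theorem err_small (q : ℕ) :
    (5 * ((2400 * 2400 * 48 : ℝ) * ((q : ℝ) + 1) ^ 5)) * ((8 * (q : ℝ) + 17) * (8 / 9 : ℝ) ^ (400 * (q + 1))) ≤ 1 / 3 := by
  have hq0 : (0 : ℝ) ≤ (q : ℝ) := Nat.cast_nonneg q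
  have h1 : ((8 : ℝ) / 9) ^ (400 * (q + 1)) ≤ (1 / 10 ^ 20 : ℝ) ^ (q + 1) := by
    rw [pow_mul]
    refine pow_le_pow_left₀ (by positivity) ?_ _
    calc ((8 : ℝ) / 9) ^ 400 = (((8 : ℝ) / 9) ^ 50) ^ 8 := by rw [← pow_mul]
      _ ≤ ((1 : ℝ) / 360) ^ 8 := pow_le_pow_left₀ (by positivity) (by norm_num) _
      _ ≤ 1 / 10 ^ 20 := by norm_num
  have h2 : ((q : ℝ) + 1) ^ 6 ≤ (64 : ℝ) ^ q := by
    have h3 : q + 1 ≤ 2 ^ q := Nat.lt_two_pow_self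
    have h4 : (q : ℝ) + 1 ≤ (2 : ℝ) ^ q := by exact_mod_cast h3
    calc ((q : ℝ) + 1) ^ 6 ≤ ((2 : ℝ) ^ q) ^ 6 := pow_le_pow_left₀ (by positivity) h4 _
      _ = ((2 : ℝ) ^ 6) ^ q := by rw [← pow_mul, ← pow_mul, mul_comm]
      _ = (64 : ℝ) ^ q := by norm_num
  have h5 : (1 / 10 ^ 20 : ℝ) ^ (q + 1) * (64 : ℝ) ^ q ≤ 1 / 10 ^ 20 := by
    rw [pow_succ, mul_right_comm, ← mul_pow]
    have h6 : ((1 / 10 ^ 20 : ℝ) * 64) ^ q ≤ 1 := pow_le_one₀ (by norm_num) (by norm_num)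
    calc ((1 / 10 ^ 20 : ℝ) * 64) ^ q * (1 / 10 ^ 20) ≤ 1 * (1 / 10 ^ 20) :=
          mul_le_mul_of_nonneg_right h6 (by norm_num)
      _ = 1 / 10 ^ 20 := one_mul _
  have h7 : (8 * (q : ℝ) + 17) ≤ 17 * ((q : ℝ) + 1) := by linarith
  calc (5 * ((2400 * 2400 * 48 : ℝ) * ((q : ℝ) + 1) ^ 5)) * ((8 * (q : ℝ) + 17) * (8 / 9 : ℝ) ^ (400 * (q + 1)))
      ≤ (5 * ((2400 * 2400 * 48 : ℝ) * ((q : ℝ) + 1) ^ 5)) * ((17 * ((q : ℝ) + 1)) * (1 / 10 ^ 20 : ℝ) ^ (q + 1)) := by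
        refine mul_le_mul_of_nonneg_left ?_ (by positivity)
        exact mul_le_mul h7 h1 (by positivity) (by positivity)
    _ = 23500800000 * ((1 / 10 ^ 20 : ℝ) ^ (q + 1) * ((q : ℝ) + 1) ^ 6) := by ring
    _ ≤ 23500800000 * ((1 / 10 ^ 20 : ℝ) ^ (q + 1) * (64 : ℝ) ^ q) := by
        refine mul_le_mul_of_nonneg_left ?_ (by norm_num)
        exact mul_le_mul_of_nonneg_left h2 (by positivity)
    _ ≤ 23500800000 * (1 / 10 ^ 20) := mul_le_mul_of_nonneg_left h5 (by norm_num)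
    _ ≤ 1 / 3 := by norm_num

/-- The main theorem.

Proof. Put `t = 400 (q + 1)`, `δ = (8 q + 17) (8/9)^t`, `κ = 10^6 (q + 1)^3 (p q + 1)`.
If `X` or `Y` is empty, or `F` is constant, a protocol without communication is right (`RandE.const`, `RandE.mono`,
`RandE.toRand`; for empty types any protocol). Otherwise apply `ro_pp` with the class `𝒢`:
`hB`: `rand_blocky` with `t` bits: cost `t + 1 ≤ κ`, error `(1/2)^t ≤ δ`. `hE`: `ev_cost`; its cost is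
`2 (4q+8)(t+1) + 3 + 2 t (4q+10)(5q+16) ≤ κ`: bound `4q + 8 ≤ 8 (q+1)`, `t + 1 ≤ 401 (q + 1)`, `4q + 10 ≤ 10 (q+1)`,
`5 q + 16 ≤ 16 (q + 1)`: `6416 (q+1)² + 3 + 128000 (q+1)³ ≤ 10^6 (q+1)³`. `hL`: for a leaf `g` with
`QuantumComputes g q` one has `RandComputes g (p q)`, `RandE.ofRand` and `RandE.amp` with `t`: cost `2 t p(q) ≤ κ`, error
`(8/9)^t ≤ δ`. So `PP κ δ F`, and `PP.cost` gives `PC κ δ F` with numbers `N ≤ a o z`; `AO_bound`, `OA_bound`, `IP_bound`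
give `a, o ≤ 2400 (q+1)²` and `z ≤ 48 (q + 1)` (also if they are `1`), so `N ≤ 2400 * 2400 * 48 (q + 1)^5`. By `err_small`
the error `(5 N - 2) δ` is at most `1/3`, and the cost is at most `5 N κ ≤
5 * 2400 * 2400 * 48 * 10^6 (q+1)^8 (p q + 1)`; `RandE.mono`, `RandE.toRand`. -/
theorem ro_main (p : ℕ → ℕ) (X Y : Type) (F : X → Y → Bool) (q : ℕ)
    (h : ReadOnce (fun X Y g => (Finite X ∧ Finite Y) ∧ ∀ k, QuantumComputes g k → RandComputes g (p k)) X Y F)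
    (hq : QuantumComputes F q) :
    RandComputes F (5 * 2400 * 2400 * 48 * 10 ^ 6 * (q + 1) ^ 8 * (p q + 1)) := by
  by_cases hn : NC F
  · obtain ⟨x0, y0, -⟩ := hn.1
    have hX : Nonempty X := ⟨x0⟩
    have hY : Nonempty Y := ⟨y0⟩
    have hq0 : (0 : ℝ) ≤ (q : ℝ) := Nat.cast_nonneg q
    have hp1 : 1 ≤ p q + 1 := Nat.succ_le_succ (Nat.zero_le _)
    have hQ1 : 1 ≤ q + 1 := Nat.succ_le_succ (Nat.zero_le _)
    have hQ3 : q + 1 ≤ (q + 1) ^ 3 := Nat.le_self_pow (by norm_num) _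
    have hκ0 : 10 ^ 6 * (q + 1) ^ 3 ≤ 10 ^ 6 * (q + 1) ^ 3 * (p q + 1) := Nat.le_mul_of_pos_right _ hp1
    have hκ2 : 2 ≤ 10 ^ 6 * (q + 1) ^ 3 * (p q + 1) := by omega
    have h17 : (1 : ℝ) ≤ 8 * (q : ℝ) + 17 := by linarith
    have hδ0 : (0 : ℝ) ≤ (8 * (q : ℝ) + 17) * (8 / 9 : ℝ) ^ (400 * (q + 1)) := by positivity
    have hδ1 : (8 / 9 : ℝ) ^ (400 * (q + 1)) ≤
        (8 * (q : ℝ) + 17) * (8 / 9 : ℝ) ^ (400 * (q + 1)) :=
      le_mul_of_one_le_left (by positivity) h17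
    have hB : ∀ (X Y : Type) (u : X → Y → Bool), Blocky u →
        RandE u (10 ^ 6 * (q + 1) ^ 3 * (p q + 1))
          ((8 * (q : ℝ) + 17) * (8 / 9 : ℝ) ^ (400 * (q + 1))) := fun X Y u hu =>
      (rand_blocky hu (400 * (q + 1))).mono (by omega)
        ((pow_le_pow_left₀ (by norm_num) (by norm_num) _).trans hδ1)
    have hE : ∀ (X Y : Type) (G : X → Y → Bool), Ev G → QuantumComputes G q →
        RandE G (10 ^ 6 * (q + 1) ^ 3 * (p q + 1))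
          ((8 * (q : ℝ) + 17) * (8 / 9 : ℝ) ^ (400 * (q + 1))) := fun X Y G hG hGq =>
      (ev_cost hG hGq (400 * (q + 1))).mono (le_trans (by
        have h1 : 10 ^ 6 * (q + 1) ^ 3 = (2 * ((4 * q + 8) * (400 * (q + 1) + 1)) + 3 +
            2 * (400 * (q + 1)) * ((4 * q + 10) * (5 * q + 16))) +
            (984000 * q ^ 3 + 2889600 * q ^ 2 + 2771192 * q + 865581) := by ring
        rw [h1]
        exact Nat.le_add_right _ _) hκ0) le_rfl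
    have hPP := (ro_pp hκ2 hδ0 hB hE _ (fun X Y g hg => hg.1) (fun X Y g hg hgq => by
      refine ((RandE.ofRand (hg.2 q hgq)).amp (400 * (q + 1))).mono ?_ hδ1
      refine Nat.mul_le_mul ?_ (Nat.le_succ _)
      omega) X Y F h).2 hX hY hn hq
    obtain ⟨N, a, o, z, hN1, hN, ha, ho, hz, hr⟩ := hPP.cost hκ2 hδ0 hB hE hq
    have hQ2 : 1 ≤ (q + 1) ^ 2 := Nat.one_le_pow _ _ hQ1
    have ha' : a ≤ 2400 * (q + 1) ^ 2 := by
      rcases ha with ha | ha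
      · omega
      · exact AO_bound hq ha
    have ho' : o ≤ 2400 * (q + 1) ^ 2 := by
      rcases ho with ho | ho
      · omega
      · exact OA_bound hq ho
    have hz' : z ≤ 48 * (q + 1) := by
      rcases hz with hz | ⟨c, hz⟩
      · omega
      · have := IP_bound hq hz
        omega
    have hN' : N ≤ 2400 * 2400 * 48 * (q + 1) ^ 5 := by
      refine hN.trans ((Nat.mul_le_mul (Nat.mul_le_mul ha' ho') hz').trans (le_of_eq ?_))
      ring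
    refine (hr.mono ?_ ?_).toRand
    · calc (5 * N - 2) * (10 ^ 6 * (q + 1) ^ 3 * (p q + 1))
          ≤ (5 * (2400 * 2400 * 48 * (q + 1) ^ 5)) * (10 ^ 6 * (q + 1) ^ 3 * (p q + 1)) :=
            Nat.mul_le_mul_right _ (by omega)
        _ = 5 * 2400 * 2400 * 48 * 10 ^ 6 * (q + 1) ^ 8 * (p q + 1) := by ring
    · refine le_trans (mul_le_mul_of_nonneg_right ?_ hδ0) (err_small q)
      have h3 : (N : ℝ) ≤ 2400 * 2400 * 48 * ((q : ℝ) + 1) ^ 5 := by exact_mod_cast hN'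
      linarith
  · have hc : ∃ b : Bool, F = fun _ _ => b := by
      unfold NC at hn
      by_cases h1 : ∃ x y, F x y = true
      · refine ⟨true, ?_⟩
        funext x y
        by_contra h2
        exact hn ⟨h1, x, y, by simpa using h2⟩
      · refine ⟨false, ?_⟩
        funext x y
        by_contra h2
        exact h1 ⟨x, y, by simpa using h2⟩
    obtain ⟨b, rfl⟩ := hc
    exact ((RandE.const b).mono (Nat.zero_le _) (by norm_num)).toRand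

end Pool.Agent.H.MP_dd1c2e_lc.RO
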