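import Mathlib

/-!
# Characters of the cube
-/

namespace Pool.Agent.H.MP_dd1c2e_lc.RO

open Finset

/-- `-1` for `true` and `1` for `false`. -/
def sgn (b : Bool) : ℝ := if b then -1 else 1

theorem sgn_xor (a b : Bool) : sgn (Bool.xor a b) = sgn a * sgn b := by
  cases a <;> cases b <;> simp [sgn]

theorem sgn_sq (a : Bool) : sgn a * sgn a = 1 := by
  cases a <;> simp [sgn]

/-- The character of the set `S`. -/
def chi {t : ℕ} (S : Finset (Fin t)) (z : Fin t → Bool) : ℝ := ∏ i ∈ S, sgn (z i)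

/-- The Fourier coefficient (not normalised: the sum over the cube divided by `2 ^ t`). -/
noncomputable def hat {t : ℕ} (ψ : (Fin t → Bool) → ℝ) (S : Finset (Fin t)) : ℝ :=
  (∑ z, ψ z * chi S z) / 2 ^ t

/-- The number of `i` with `z i = false`. -/
def zc {t : ℕ} (z : Fin t → Bool) : ℕ := (univ.filter fun i => z i = false).card

/-- `∏ i ∈ S, sgn (a i ⊕ b i) = (∏ ..) (∏ ..)`. -/
theorem chi_xor {t : ℕ} (S : Finset (Fin t)) (a b : Fin t → Bool) :
    chi S (fun i => Bool.xor (a i) (b i)) = chi S a * chi S b := by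
  unfold chi
  rw [← Finset.prod_mul_distrib]
  exact Finset.prod_congr rfl (fun i _ => sgn_xor _ _)

/-- `∑ S, χ_S(z) χ_S(w) = 2^t [z = w]`: it is the product over `i` of `1 + sgn (z i) sgn (w i)`
(`Finset.prod_one_add` or `Finset.prod_add`). -/
theorem chi_dual {t : ℕ} (z w : Fin t → Bool) :
    ∑ S : Finset (Fin t), chi S z * chi S w = if z = w then (2 : ℝ) ^ t else 0 := by
  have h1 : ∑ S : Finset (Fin t), chi S z * chi S w = ∏ i : Fin t, (1 + sgn (z i) * sgn (w i)) := by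
    rw [Finset.prod_one_add, Finset.powerset_univ]
    refine Finset.sum_congr rfl (fun S _ => ?_)
    unfold chi
    rw [← Finset.prod_mul_distrib]
  rw [h1]
  by_cases h : z = w
  · rw [if_pos h, h]
    have h2 : ∀ i : Fin t, 1 + sgn (w i) * sgn (w i) = 2 := by
      intro i
      rw [sgn_sq]
      norm_num
    rw [Finset.prod_congr rfl (fun i _ => h2 i)]
    simp
  · rw [if_neg h]
    obtain ⟨i, hi⟩ : ∃ i, z i ≠ w i := by
      by_contra hc
      push Not at hc
      exact h (funext hc)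
    refine Finset.prod_eq_zero (mem_univ i) ?_
    cases hz : z i <;> cases hw : w i <;> simp_all [sgn]

/-- Fourier inversion, from `chi_dual`. -/
theorem hat_inv {t : ℕ} (ψ : (Fin t → Bool) → ℝ) (z : Fin t → Bool) : ψ z = ∑ S, hat ψ S * chi S z := by
  have h2 : (2 : ℝ) ^ t ≠ 0 := by positivity
  have h1 : ∑ S, hat ψ S * chi S z = (∑ z', ψ z' * ∑ S : Finset (Fin t), chi S z' * chi S z) / 2 ^ t := by
    unfold hat
    rw [Finset.sum_div]
    simp only [Finset.mul_sum, Finset.sum_div, Finset.sum_mul]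
    rw [Finset.sum_comm]
    refine Finset.sum_congr rfl (fun z' _ => Finset.sum_congr rfl (fun S _ => ?_))
    ring
  rw [h1]
  simp only [chi_dual, mul_ite, mul_zero, Finset.sum_ite_eq', mem_univ, if_true]
  field_simp

/-- Parseval for a real matrix with orthogonal columns of the same norm. -/
theorem par_gen {A B : Type*} [Fintype A] [Fintype B] [DecidableEq B] (K : A → B → ℝ) (c : ℝ)
    (hK : ∀ b b', ∑ a, K a b * K a b' = if b = b' then c else 0) (f : B → ℂ) :
    ∑ a, ‖∑ b, (K a b : ℂ) * f b‖ ^ 2 = c * ∑ b, ‖f b‖ ^ 2 := by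
  have h : ((∑ a, ‖∑ b, (K a b : ℂ) * f b‖ ^ 2 : ℝ) : ℂ) = ((c * ∑ b, ‖f b‖ ^ 2 : ℝ) : ℂ) := by
    push_cast
    have h1 : ∀ a, ((‖∑ b, (K a b : ℂ) * f b‖ : ℝ) : ℂ) ^ 2 =
        ∑ b, ∑ b', ((K a b * K a b' : ℝ) : ℂ) * (f b * (starRingEnd ℂ) (f b')) := by
      intro a
      rw [← Complex.mul_conj', map_sum, Finset.sum_mul_sum]
      refine Finset.sum_congr rfl (fun b _ => Finset.sum_congr rfl (fun b' _ => ?_))
      rw [map_mul, Complex.conj_ofReal]
      push_cast
      ring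
    rw [Finset.sum_congr rfl (fun a _ => h1 a), Finset.sum_comm, Finset.mul_sum]
    refine Finset.sum_congr rfl (fun b _ => ?_)
    rw [Finset.sum_comm]
    have h2 : ∀ b', ∑ a, ((K a b * K a b' : ℝ) : ℂ) * (f b * (starRingEnd ℂ) (f b')) =
        if b = b' then (c : ℂ) * (f b * (starRingEnd ℂ) (f b')) else 0 := by
      intro b'
      rw [← Finset.sum_mul, ← Complex.ofReal_sum, hK]
      split_ifs <;> simp
    rw [Finset.sum_congr rfl (fun b' _ => h2 b')]
    rw [Finset.sum_ite_eq]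
    simp only [mem_univ, if_true]
    rw [Complex.mul_conj']
  exact_mod_cast h

/-- Parseval for complex functions: `∑ S ‖∑ w, χ_S(w) f w‖² = 2^t ∑ w ‖f w‖²`, from `chi_dual`. -/
theorem chi_parseval {t : ℕ} (f : (Fin t → Bool) → ℂ) :
    ∑ S : Finset (Fin t), ‖∑ w, (chi S w : ℂ) * f w‖ ^ 2 = 2 ^ t * ∑ w, ‖f w‖ ^ 2 :=
  par_gen (fun S w => chi S w) (2 ^ t) (fun z w => chi_dual z w) f

/-- `|hat ψ S| ≤ (∑ |ψ z|) / 2^t` because `|χ_S| = 1`. -/
theorem hat_le {t : ℕ} (ψ : (Fin t → Bool) → ℝ) (S : Finset (Fin t)) : |hat ψ S| ≤ (∑ z, |ψ z|) / 2 ^ t := by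
  have h2 : (0 : ℝ) < 2 ^ t := by positivity
  unfold hat
  rw [abs_div, abs_of_pos h2]
  refine div_le_div_of_nonneg_right ?_ h2.le
  refine (Finset.abs_sum_le_sum_abs _ _).trans (Finset.sum_le_sum (fun z _ => ?_))
  rw [abs_mul]
  have h3 : |chi S z| = 1 := by
    unfold chi
    rw [Finset.abs_prod]
    refine Finset.prod_eq_one (fun i _ => ?_)
    unfold sgn
    split_ifs <;> simp
  rw [h3, mul_one]

end Pool.Agent.H.MP_dd1c2e_lc.RO
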