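import Pool.Agent.H.MP_dd1c2e_lc.ro.Po2
import Pool.Agent.H.MP_dd1c2e_lc.ro.Le

/-!
# The invariant `GoodT`: constants, two-sided steps
-/

namespace Pool.Agent.H.MP_dd1c2e_lc.RO

open Finset Pool.Agent.H.MP_dd1c2e_lc.Alt

/-- the transposed embedding -/
theorem gd1_emb {X Y X' Y' : Type} {F : X → Y → Bool} {F' : X' → Y' → Bool} (i : Y → Y') (j : X → X') {l : ℕ}
    {A : Set Y} {A' : Set Y'} (hA : ∀ y ∈ A, i y ∈ A') (hF : ∀ y ∈ A, ∀ x, F' (j x) (i y) = F x y)
    (h : DB F l A) : DB F' l A' :=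
  lit_emb (F := fun y x => F x y) (F' := fun y x => F' x y) i j hA hF h

/-- `b = true`: `n0 = 1`, `n1 = 0` (`PO.const`, `PO.other`). `b = false`: `n0 = 0`, `n1 = 1`. All the numbers `n1 / 2`,
`(n0 - 1) / 2`, `(n1 - 2) / 2` are `0`, and `DB G 0 S` says that `S` is nonempty. -/
theorem GoodT.const {X Y : Type} [Finite X] [Nonempty X] [Nonempty Y] (b : Bool) :
    GoodT (fun (_ : X) (_ : Y) => b) := by
  obtain ⟨x⟩ := ‹Nonempty X›
  obtain ⟨y⟩ := ‹Nonempty Y›
  cases b with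
  | true =>
    have h0 : PO (fun (_ : X) (_ : Y) => true) true 0 := PO.const true
    refine ⟨1, 0, h0.other, h0, ?_, ?_, fun _ => ⟨x, ?_⟩, fun h => absurd h (by decide)⟩
    · exact ⟨y, trivial⟩
    · exact ⟨y, trivial⟩
    · exact ⟨y, rfl⟩
  | false =>
    have h0 : PO (fun (_ : X) (_ : Y) => false) false 0 := PO.const false
    refine ⟨0, 1, h0, h0.other, ?_, ?_, fun h => absurd h (by decide), fun _ => ⟨x, ?_⟩⟩
    · exact ⟨y, trivial⟩
    · exact ⟨y, trivial⟩
    · exact ⟨y, rfl⟩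

/-- A two-sided step with the value `false`: the new numbers are `n0' = n0`, `n1' = n0 + 1`.

Proof. Let `G'` be the new matrix and `x₀, x₀', y₀, y₀'` the points of `TwoBlocky g`: `g x₀ y₀ = g x₀' y₀' = true`,
`g x₀ y₀' = g x₀' y₀ = false`. `PO G' false n0`: `PO.gate`; `PO G' true (n0 + 1)`: `PO.other`.
(1) `DB G' ((n0 - 1) / 2) univ`: `lit_emb` (for the transposed matrices) with `y ↦ (y₀, y)`, `x ↦ (x₀, x)`.
(2) If `1 ≤ n0` let `x` be the column of `G` with `DB G ((n0 - 1) / 2) {y | G x y = true}`. In the column `(x₀, x)` of `G'`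
the rows `(y₀, y)` with `G x y = true` have the value `true`, so
`DB G' ((n0 - 1) / 2) {y | G' (x₀, x) y = true}` (`lit_emb` with `y ↦ (y₀, y)`, `x ↦ (x₀, x)`).
(3) For any `x` (`X` is nonempty) all rows `(y₀', y)` have in the column `(x₀, x)` of `G'` the value `false`, and
`lit_emb` with `y ↦ (y₀', y)`, `x ↦ (x₀', x)` gives `DB G' ((n0 - 1) / 2) {y | G' (x₀, x) y = false}`. Note
`(n0 + 1 - 2) / 2 = (n0 - 1) / 2`.
(4) `DB G' ((n0 + 1) / 2) univ`: if `n0 = 0` it is `DB G' 0 univ`. If `n0 ≥ 1` the column `(x₀, x)` of (2) and (3) gives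
`DB G' ((n0 - 1) / 2 + 1) univ` and `(n0 - 1) / 2 + 1 = (n0 + 1) / 2`. -/
theorem GoodT.gate0 {X Y X1 Y1 : Type} [Finite X1] [Nonempty X] {G : X → Y → Bool} {g : X1 → Y1 → Bool}
    (hg : TwoBlocky g) (h : GoodT G) :
    GoodT (fun (x : X1 × X) (y : Y1 × Y) => if g x.1 y.1 then G x.2 y.2 else false) := by
  obtain ⟨hb, x₀, x₁, y₀, y₁, h00, h11, h01, h10⟩ := hg
  obtain ⟨n0, n1, hp0, -, -, hd0, hc0, -⟩ := h
  have hp : PO (fun (x : X1 × X) (y : Y1 × Y) => if g x.1 y.1 then G x.2 y.2 else false) false n0 :=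
    PO.gate hb hp0
  have e1 : DB (fun (x : X1 × X) (y : Y1 × Y) => if g x.1 y.1 then G x.2 y.2 else false)
      ((n0 - 1) / 2) Set.univ := by
    refine gd1_emb (fun y => (y₀, y)) (fun x => (x₀, x)) (fun _ _ => trivial) (fun y _ x => ?_) hd0
    show (if g x₀ y₀ = true then G x y else false) = G x y
    rw [if_pos h00]
  have e2 : ∀ x : X, DB G ((n0 - 1) / 2) {y | G x y = true} →
      DB (fun (x : X1 × X) (y : Y1 × Y) => if g x.1 y.1 then G x.2 y.2 else false)
      ((n0 - 1) / 2) {y | (if g x₀ y.1 then G x y.2 else false) = true} := by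
    intro x hx
    refine gd1_emb (fun y => (y₀, y)) (fun x => (x₀, x)) (fun y hy => ?_) (fun y _ x => ?_) hx
    · show (if g x₀ y₀ = true then G x y else false) = true
      rw [if_pos h00]
      exact hy
    · show (if g x₀ y₀ = true then G x y else false) = G x y
      rw [if_pos h00]
  have e3 : ∀ x : X, DB (fun (x : X1 × X) (y : Y1 × Y) => if g x.1 y.1 then G x.2 y.2 else false)
      ((n0 - 1) / 2) {y | (if g x₀ y.1 then G x y.2 else false) = false} := by
    intro x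
    refine gd1_emb (fun y => (y₁, y)) (fun x => (x₁, x)) (fun y _ => ?_) (fun y _ x => ?_) hd0
    · show (if g x₀ y₁ = true then G x y else false) = false
      rw [if_neg (by rw [h01]; decide)]
    · show (if g x₁ y₁ = true then G x y else false) = G x y
      rw [if_pos h11]
  have hx : Nonempty X := inferInstance
  refine ⟨n0, n0 + 1, hp, hp.other, ?_, e1, fun h1 => ?_, fun _ => ?_⟩
  · rcases Nat.eq_zero_or_pos n0 with h0 | h0
    · subst h0
      exact e1
    · obtain ⟨x, hx⟩ := hc0 h0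
      have h2 : (n0 + 1) / 2 = (n0 - 1) / 2 + 1 := by omega
      rw [h2]
      refine ⟨(x₀, x), ?_, ?_⟩
      · exact gd1_emb id id (fun y hy => ⟨trivial, hy⟩) (fun _ _ _ => rfl) (e2 x hx)
      · exact gd1_emb id id (fun y hy => ⟨trivial, hy⟩) (fun _ _ _ => rfl) (e3 x)
  · obtain ⟨x, hx⟩ := hc0 h1
    exact ⟨(x₀, x), e2 x hx⟩
  · obtain ⟨x⟩ := hx
    have h2 : (n0 + 1 - 2) / 2 = (n0 - 1) / 2 := by omega
    rw [h2]
    exact ⟨(x₀, x), e3 x⟩

/-- A two-sided step with the value `true`: `n1' = n1`, `n0' = n1 + 1`.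

Proof. With the same points. `PO G' true n1`: `PO.gate`; `PO G' false (n1 + 1)`: `PO.other`. `DB G' (n1 / 2) univ`:
`lit_emb` with `y ↦ (y₀, y)`, `x ↦ (x₀, x)`; `(n1 + 1 - 1) / 2 = n1 / 2`, so this is also the fourth condition. Fifth
condition: in the column `(x₀, x)` (any `x`) all rows `(y₀', y)` have the value `true`, and `lit_emb` with
`y ↦ (y₀', y)`, `x ↦ (x₀', x)` gives `DB G' (n1 / 2) {y | G' (x₀, x) y = true}`. Sixth condition, if `1 ≤ n1`: the column
`(x₀, x)` with the `x` of the sixth condition for `G`, `lit_emb` with `y ↦ (y₀, y)`, `x ↦ (x₀, x)`. -/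
theorem GoodT.gate1 {X Y X1 Y1 : Type} [Finite X1] [Nonempty X] {G : X → Y → Bool} {g : X1 → Y1 → Bool}
    (hg : TwoBlocky g) (h : GoodT G) :
    GoodT (fun (x : X1 × X) (y : Y1 × Y) => if g x.1 y.1 then G x.2 y.2 else true) := by
  obtain ⟨hb, x₀, x₁, y₀, y₁, h00, h11, h01, h10⟩ := hg
  obtain ⟨n0, n1, -, hp1, hd1, -, -, hc1⟩ := h
  have hp : PO (fun (x : X1 × X) (y : Y1 × Y) => if g x.1 y.1 then G x.2 y.2 else true) true n1 :=
    PO.gate hb hp1
  have e1 : DB (fun (x : X1 × X) (y : Y1 × Y) => if g x.1 y.1 then G x.2 y.2 else true)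
      (n1 / 2) Set.univ := by
    refine gd1_emb (fun y => (y₀, y)) (fun x => (x₀, x)) (fun _ _ => trivial) (fun y _ x => ?_) hd1
    show (if g x₀ y₀ = true then G x y else true) = G x y
    rw [if_pos h00]
  have e2 : ∀ x : X, DB G ((n1 - 2) / 2) {y | G x y = false} →
      DB (fun (x : X1 × X) (y : Y1 × Y) => if g x.1 y.1 then G x.2 y.2 else true)
      ((n1 - 2) / 2) {y | (if g x₀ y.1 then G x y.2 else true) = false} := by
    intro x hx
    refine gd1_emb (fun y => (y₀, y)) (fun x => (x₀, x)) (fun y hy => ?_) (fun y _ x => ?_) hx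
    · show (if g x₀ y₀ = true then G x y else true) = false
      rw [if_pos h00]
      exact hy
    · show (if g x₀ y₀ = true then G x y else true) = G x y
      rw [if_pos h00]
  have e3 : ∀ x : X, DB (fun (x : X1 × X) (y : Y1 × Y) => if g x.1 y.1 then G x.2 y.2 else true)
      (n1 / 2) {y | (if g x₀ y.1 then G x y.2 else true) = true} := by
    intro x
    refine gd1_emb (fun y => (y₁, y)) (fun x => (x₁, x)) (fun y _ => ?_) (fun y _ x => ?_) hd1
    · show (if g x₀ y₁ = true then G x y else true) = true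
      rw [if_neg (by rw [h01]; decide)]
    · show (if g x₁ y₁ = true then G x y else true) = G x y
      rw [if_pos h11]
  have hx : Nonempty X := inferInstance
  refine ⟨n1 + 1, n1, hp.other, hp, e1, e1, fun _ => ?_, fun h1 => ?_⟩
  · obtain ⟨x⟩ := hx
    exact ⟨(x₀, x), e3 x⟩
  · obtain ⟨x, hx⟩ := hc1 h1
    exact ⟨(x₀, x), e2 x hx⟩

end Pool.Agent.H.MP_dd1c2e_lc.RO
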