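import Pool.Agent.H.MP_dd1c2e_lc.ro.Po3
import Pool.Agent.H.MP_dd1c2e_lc.ro.Le

/-!
# The invariant `GoodT`: steps of Alice or Bob, dummy inputs
-/

namespace Pool.Agent.H.MP_dd1c2e_lc.RO

open Finset Pool.Agent.H.MP_dd1c2e_lc.Alt

/-- `lit_emb` for the transposed matrices. -/
theorem Gd2_emb {X Y X' Y' : Type} {G : X → Y → Bool} {G' : X' → Y' → Bool} (i : Y → Y')
    (j : X → X') {l : ℕ} {S : Set Y} {S' : Set Y'} (hS : ∀ y ∈ S, i y ∈ S')
    (hG : ∀ x y, G' (j x) (i y) = G x y) (h : DB G l S) : DB G' l S' :=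
  lit_emb (F := fun y x => G x y) (F' := fun y x => G' x y) i j hS (fun y _ x => hG x y) h

/-- A step of Alice with the value `true`: `n1' = n1`, `n0' = n1 + 1`.

Proof. Let `a x₁ = true`, `a x₁' = false`. `PO G' true n1`: `PO.gateA`; `PO G' false (n1 + 1)`: `PO.other`.
`DB G' (n1 / 2) univ`: `lit_emb` (transposed matrices) with `y ↦ y`, `x ↦ (x₁, x)`; `(n1 + 1 - 1) / 2 = n1 / 2`. Fifth
condition: in the column `(x₁', x)` (any `x`) all rows have the value `true`, so the set is `univ`. Sixth condition, if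
`1 ≤ n1`: the column `(x₁, x)` with the `x` of the sixth condition for `G`. -/
theorem GoodT.gateA1 {X Y X1 : Type} [Finite X1] [Nonempty X] {G : X → Y → Bool} (a : X1 → Bool)
    (ha : ∃ x, a x = true) (ha' : ∃ x, a x = false) (h : GoodT G) :
    GoodT (fun (x : X1 × X) (y : Y) => if a x.1 then G x.2 y else true) := by
  obtain ⟨n0, n1, -, h1, h2, -, -, h6⟩ := h
  obtain ⟨x1, hx1⟩ := ha
  obtain ⟨x1', hx1'⟩ := ha'
  have hG : ∀ (x : X) (y : Y),
      (fun (x : X1 × X) (y : Y) => if a x.1 then G x.2 y else true) (x1, x) (id y) = G x y := by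
    intro x y
    simp [hx1]
  have p1 := PO.gateA a h1
  refine ⟨n1 + 1, n1, p1.other, p1, ?_, ?_, ?_, ?_⟩
  · exact Gd2_emb id (fun x => (x1, x)) (fun _ _ => Set.mem_univ _) hG h2
  · rw [Nat.add_sub_cancel]
    exact Gd2_emb id (fun x => (x1, x)) (fun _ _ => Set.mem_univ _) hG h2
  · intro _
    obtain ⟨x⟩ := (inferInstance : Nonempty X)
    refine ⟨(x1', x), ?_⟩
    rw [Nat.add_sub_cancel]
    refine Gd2_emb id (fun x => (x1, x)) (fun y _ => ?_) hG h2
    simp [hx1']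
  · intro hn
    obtain ⟨x, hx⟩ := h6 hn
    refine ⟨(x1, x), Gd2_emb id (fun x => (x1, x)) (fun y hy => ?_) hG hx⟩
    have hy' : G x y = false := hy
    simp [hx1, hy']

/-- A step of Bob with the value `e`. If `e = true`: `n1' = n1`, `n0' = max n0 1`. If `e = false`: `n0' = n0`,
`n1' = max n1 1`.

Proof. Let `b y₁ = true`, `b y₁' = false`. `PO.gateB` for the pad `e`, `PO.gateB'` for the other one. All mistake trees of
`G` give mistake trees of `G'` by `lit_emb` (transposed matrices) with `y ↦ (y₁, y)`, `x ↦ x`. If `e = true` and `n0 = 0` the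
new conditions are for the depth `(1 - 1) / 2 = 0`: the set `{y | G' x y = true}` contains `(y₁', y)`. If `e = false` and
`n1 = 0`: `1 / 2 = 0` and `(1 - 2) / 2 = 0`, the set `{y | G' x y = false}` contains `(y₁', y)`. (`Y` is nonempty because
`DB G _ univ` implies that `univ` is nonempty, `Lit.nonempty`.) -/
theorem GoodT.gateB {X Y Y1 : Type} [Nonempty X] {G : X → Y → Bool} (b : Y1 → Bool) (hb : ∃ y, b y = true)
    (hb' : ∃ y, b y = false) (e : Bool) (h : GoodT G) :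
    GoodT (fun (x : X) (y : Y1 × Y) => if b y.1 then G x y.2 else e) := by
  obtain ⟨n0, n1, h0, h1, h2, h3, h5, h6⟩ := h
  obtain ⟨y1, hy1⟩ := hb
  obtain ⟨y1', hy1'⟩ := hb'
  obtain ⟨y0, -⟩ := Lit.nonempty h2
  obtain ⟨x0⟩ := (inferInstance : Nonempty X)
  have hG : ∀ (x : X) (y : Y),
      (fun (x : X) (y : Y1 × Y) => if b y.1 then G x y.2 else e) (id x) (y1, y) = G x y := by
    intro x y
    simp [hy1]
  cases e
  · have e1 : max n1 1 / 2 = n1 / 2 := by omega
    refine ⟨n0, max n1 1, PO.gateB b h0, PO.gateB' b h1, ?_, ?_, ?_, ?_⟩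
    · rw [e1]
      exact Gd2_emb (fun y => (y1, y)) id (fun _ _ => Set.mem_univ _) hG h2
    · exact Gd2_emb (fun y => (y1, y)) id (fun _ _ => Set.mem_univ _) hG h3
    · intro hn
      obtain ⟨x, hx⟩ := h5 hn
      refine ⟨x, Gd2_emb (fun y => (y1, y)) id (fun y hy => ?_) hG hx⟩
      have hy' : G x y = true := hy
      simp [hy1, hy']
    · intro _
      rcases Nat.eq_zero_or_pos n1 with hn | hn
      · refine ⟨x0, ?_⟩
        have e2 : (max n1 1 - 2) / 2 = 0 := by omega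
        rw [e2]
        refine ⟨(y1', y0), ?_⟩
        simp [hy1']
      · obtain ⟨x, hx⟩ := h6 hn
        have e2 : max n1 1 = n1 := by omega
        rw [e2]
        refine ⟨x, Gd2_emb (fun y => (y1, y)) id (fun y hy => ?_) hG hx⟩
        have hy' : G x y = false := hy
        simp [hy1, hy']
  · have e1 : (max n0 1 - 1) / 2 = (n0 - 1) / 2 := by omega
    refine ⟨max n0 1, n1, PO.gateB' b h0, PO.gateB b h1, ?_, ?_, ?_, ?_⟩
    · exact Gd2_emb (fun y => (y1, y)) id (fun _ _ => Set.mem_univ _) hG h2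
    · rw [e1]
      exact Gd2_emb (fun y => (y1, y)) id (fun _ _ => Set.mem_univ _) hG h3
    · intro _
      rcases Nat.eq_zero_or_pos n0 with hn | hn
      · refine ⟨x0, ?_⟩
        have e2 : (max n0 1 - 1) / 2 = 0 := by omega
        rw [e2]
        refine ⟨(y1', y0), ?_⟩
        simp [hy1']
      · obtain ⟨x, hx⟩ := h5 hn
        rw [e1]
        refine ⟨x, Gd2_emb (fun y => (y1, y)) id (fun y hy => ?_) hG hx⟩
        have hy' : G x y = true := hy
        simp [hy1, hy']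
    · intro hn
      obtain ⟨x, hx⟩ := h6 hn
      refine ⟨x, Gd2_emb (fun y => (y1, y)) id (fun y hy => ?_) hG hx⟩
      have hy' : G x y = false := hy
      simp [hy1, hy']

/-- The same numbers: `PO.liftX`; `lit_emb` with `x ↦ (x₁, x)` for a fixed `x₁`. -/
theorem GoodT.liftX {X Y : Type} (X1 : Type) [Finite X1] [Nonempty X1] {G : X → Y → Bool} (h : GoodT G) :
    GoodT (fun (x : X1 × X) (y : Y) => G x.2 y) := by
  obtain ⟨n0, n1, h0, h1, h2, h3, h5, h6⟩ := h
  obtain ⟨x1⟩ := (inferInstance : Nonempty X1)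
  have hG : ∀ (x : X) (y : Y),
      (fun (x : X1 × X) (y : Y) => G x.2 y) (x1, x) (id y) = G x y := fun _ _ => rfl
  refine ⟨n0, n1, PO.liftX X1 h0, PO.liftX X1 h1, ?_, ?_, ?_, ?_⟩
  · exact Gd2_emb id (fun x => (x1, x)) (fun _ _ => Set.mem_univ _) hG h2
  · exact Gd2_emb id (fun x => (x1, x)) (fun _ _ => Set.mem_univ _) hG h3
  · intro hn
    obtain ⟨x, hx⟩ := h5 hn
    exact ⟨(x1, x), Gd2_emb id (fun x => (x1, x)) (fun y hy => hy) hG hx⟩
  · intro hn
    obtain ⟨x, hx⟩ := h6 hn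
    exact ⟨(x1, x), Gd2_emb id (fun x => (x1, x)) (fun y hy => hy) hG hx⟩

/-- The same numbers: `PO.liftY`; `lit_emb` with `y ↦ (y₁, y)` for a fixed `y₁`. -/
theorem GoodT.liftY {X Y : Type} (Y1 : Type) [Nonempty Y1] {G : X → Y → Bool} (h : GoodT G) :
    GoodT (fun (x : X) (y : Y1 × Y) => G x y.2) := by
  obtain ⟨n0, n1, h0, h1, h2, h3, h5, h6⟩ := h
  obtain ⟨y1⟩ := (inferInstance : Nonempty Y1)
  have hG : ∀ (x : X) (y : Y),
      (fun (x : X) (y : Y1 × Y) => G x y.2) (id x) (y1, y) = G x y := fun _ _ => rfl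
  refine ⟨n0, n1, PO.liftY Y1 h0, PO.liftY Y1 h1, ?_, ?_, ?_, ?_⟩
  · exact Gd2_emb (fun y => (y1, y)) id (fun _ _ => Set.mem_univ _) hG h2
  · exact Gd2_emb (fun y => (y1, y)) id (fun _ _ => Set.mem_univ _) hG h3
  · intro hn
    obtain ⟨x, hx⟩ := h5 hn
    exact ⟨x, Gd2_emb (fun y => (y1, y)) id (fun y hy => hy) hG hx⟩
  · intro hn
    obtain ⟨x, hx⟩ := h6 hn
    exact ⟨x, Gd2_emb (fun y => (y1, y)) id (fun y hy => hy) hG hx⟩

end Pool.Agent.H.MP_dd1c2e_lc.RO
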