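import Pool.Agent.H.MP_dd1c2e_lc.ro.Gd1
import Pool.Agent.H.MP_dd1c2e_lc.ro.Gd2

/-!
# The invariant `Good c`
-/

namespace Pool.Agent.H.MP_dd1c2e_lc.RO

open Finset Pool.Agent.H.MP_dd1c2e_lc.Alt

/-!
`Good c G` is `GoodT` of the matrix `G x y ⊕ !c`, which is `G` for `c = true` and its complement for `c = false`. In every
proof split into the two cases of `c` (and of `e`) and rewrite the matrix, e.g. for `c = false`
`(if g then G else e) ⊕ true = if g then (G ⊕ true) else !e`.
-/

theorem Good.const {X Y : Type} [Finite X] [Nonempty X] [Nonempty Y] (c b : Bool) :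
    Good c (fun (_ : X) (_ : Y) => b) := by
  unfold Good
  exact GoodT.const _

theorem Good.not {X Y : Type} {G : X → Y → Bool} {c : Bool} (h : Good c G) :
    Good (!c) (fun x y => !(G x y)) := by
  unfold Good at h ⊢
  have e1 : (fun x y => Bool.xor (!(G x y)) (!(!c))) = fun x y => Bool.xor (G x y) (!c) := by
    funext x y
    cases G x y <;> cases c <;> rfl
  rw [e1]
  exact h

/-- `GoodT.gate0` or `GoodT.gate1`. -/
theorem Good.gate {X Y X1 Y1 : Type} [Finite X1] [Nonempty X] {G : X → Y → Bool} {g : X1 → Y1 → Bool} {c : Bool}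
    (hg : TwoBlocky g) (e : Bool) (h : Good c G) :
    Good c (fun (x : X1 × X) (y : Y1 × Y) => if g x.1 y.1 then G x.2 y.2 else e) := by
  unfold Good at h ⊢
  have e1 : (fun (x : X1 × X) (y : Y1 × Y) =>
      Bool.xor (if g x.1 y.1 then G x.2 y.2 else e) (!c)) =
      fun (x : X1 × X) (y : Y1 × Y) =>
        if g x.1 y.1 then Bool.xor (G x.2 y.2) (!c) else Bool.xor e (!c) := by
    funext x y
    by_cases hgx : g x.1 y.1 = true
    · rw [if_pos hgx, if_pos hgx]
    · rw [if_neg hgx, if_neg hgx]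
  rw [e1]
  cases Bool.xor e (!c)
  · exact GoodT.gate0 hg h
  · exact GoodT.gate1 hg h

/-- A step of Alice with the value `c`. `GoodT.gateA1`. -/
theorem Good.gateA {X Y X1 : Type} [Finite X1] [Nonempty X] {G : X → Y → Bool} {c : Bool} (a : X1 → Bool)
    (ha : ∃ x, a x = true) (ha' : ∃ x, a x = false) (h : Good c G) :
    Good c (fun (x : X1 × X) (y : Y) => if a x.1 then G x.2 y else c) := by
  unfold Good at h ⊢
  have e1 : (fun (x : X1 × X) (y : Y) => Bool.xor (if a x.1 then G x.2 y else c) (!c)) =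
      fun (x : X1 × X) (y : Y) => if a x.1 then Bool.xor (G x.2 y) (!c) else true := by
    funext x y
    by_cases hax : a x.1 = true
    · rw [if_pos hax, if_pos hax]
    · rw [if_neg hax, if_neg hax]
      cases c <;> rfl
  rw [e1]
  exact GoodT.gateA1 a ha ha' h

theorem Good.gateB {X Y Y1 : Type} [Nonempty X] {G : X → Y → Bool} {c : Bool} (b : Y1 → Bool) (hb : ∃ y, b y = true)
    (hb' : ∃ y, b y = false) (e : Bool) (h : Good c G) :
    Good c (fun (x : X) (y : Y1 × Y) => if b y.1 then G x y.2 else e) := by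
  unfold Good at h ⊢
  have e1 : (fun (x : X) (y : Y1 × Y) => Bool.xor (if b y.1 then G x y.2 else e) (!c)) =
      fun (x : X) (y : Y1 × Y) => if b y.1 then Bool.xor (G x y.2) (!c) else Bool.xor e (!c) := by
    funext x y
    by_cases hby : b y.1 = true
    · rw [if_pos hby, if_pos hby]
    · rw [if_neg hby, if_neg hby]
  rw [e1]
  exact GoodT.gateB b hb hb' _ h

theorem Good.liftX {X Y : Type} (X1 : Type) [Finite X1] [Nonempty X1] {G : X → Y → Bool} {c : Bool} (h : Good c G) :
    Good c (fun (x : X1 × X) (y : Y) => G x.2 y) := by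
  unfold Good at h ⊢
  exact GoodT.liftX X1 h

theorem Good.liftY {X Y : Type} (Y1 : Type) [Nonempty Y1] {G : X → Y → Bool} {c : Bool} (h : Good c G) :
    Good c (fun (x : X) (y : Y1 × Y) => G x y.2) := by
  unfold Good at h ⊢
  exact GoodT.liftY Y1 h

end Pool.Agent.H.MP_dd1c2e_lc.RO
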