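import Pool.Agent.H.MP_dd1c2e_lc.ro.Ch1
import Pool.Agent.H.MP_dd1c2e_lc.ro.Pj

/-!
# The induction statement: one step of the chain
-/

namespace Pool.Agent.H.MP_dd1c2e_lc.RO

open Finset Pool.Agent.H.MP_dd1c2e_lc.Alt

/-!
In all proofs the numbers `N`, `a`, `o`, `z`, the core `H` with its cost and the types `X'`, `Y'` are the same; the chain is
extended by `CH.gate` etc.; `Sub F' F` for the new matrix `F'` (fix the new input so that the step is passed) and `Sub.trans`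
give the three pattern conditions. The new maps are `ex' (x₁, x) = ((x₁, (ex x).1), (ex x).2)` (surjective) and similarly
`ey'`; in the steps of Alice alone `ey` is not changed.
-/

/-- The common part of the five steps. -/
theorem Pp2_step {X Y W V : Type} {F : X → Y → Bool} {F' : W → V → Bool} {κ : ℕ} {δ : ℝ}
    (h : PP κ δ F) (hs : Sub F' F)
    (hstep : ∀ (Xc Yc X' Y' : Type) (_ : Finite Xc) (_ : Finite Yc) (u v : Xc → Yc → Bool)
      (fA : Xc → Bool) (fB : Yc → Bool) (H : X' → Y' → Bool) (ex : X → Xc × X') (ey : Y → Yc × Y'),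
      Function.Surjective ex → Function.Surjective ey → CH u v fA fB →
      (∀ x y, F x y = if u (ex x).1 (ey y).1 then
        Bool.xor (Bool.xor (fA (ex x).1) (fB (ey y).1)) (H (ex x).2 (ey y).2)
          else v (ex x).1 (ey y).1) →
      ∃ (Xd Yd : Type) (_ : Finite Xd) (_ : Finite Yd) (u' v' : Xd → Yd → Bool)
        (fA' : Xd → Bool) (fB' : Yd → Bool) (ex' : W → Xd × X') (ey' : V → Yd × Y'),
        Function.Surjective ex' ∧ Function.Surjective ey' ∧ CH u' v' fA' fB' ∧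
        ∀ x y, F' x y = if u' (ex' x).1 (ey' y).1 then
          Bool.xor (Bool.xor (fA' (ex' x).1) (fB' (ey' y).1)) (H (ex' x).2 (ey' y).2)
            else v' (ex' x).1 (ey' y).1) :
    PP κ δ F' := by
  obtain ⟨N, a, o, z, hN, hle, ha, ho, hz, Xc, Yc, X', Y', i1, i2, i3, i4, u, v, fA, fB, H, ex, ey,
    hex, hey, hch, hR, hF⟩ := h
  obtain ⟨Xd, Yd, j1, j2, u', v', fA', fB', ex', ey', hex', hey', hch', hF'⟩ :=
    hstep Xc Yc X' Y' i1 i2 u v fA fB H ex ey hex hey hch hF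
  refine ⟨N, a, o, z, hN, hle, ha.imp id fun h => hs.trans h, ho.imp id fun h => hs.trans h,
    hz.imp id fun h => ?_, Xd, Yd, X', Y', j1, j2, i3, i4, u', v', fA', fB', H, ex', ey', hex',
    hey', hch', hR, hF'⟩
  obtain ⟨c, hc⟩ := h
  exact ⟨c, hs.trans hc⟩

/-- The new map of an input. -/
def Pp2_map {X X1 Xc X' : Type} (ex : X → Xc × X') (p : X1 × X) : (X1 × Xc) × X' :=
  ((p.1, (ex p.2).1), (ex p.2).2)

theorem Pp2_surj {X X1 Xc X' : Type} {ex : X → Xc × X'} (h : Function.Surjective ex) :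
    Function.Surjective (Pp2_map (X1 := X1) ex) := by
  rintro ⟨⟨x1, c⟩, x'⟩
  obtain ⟨x, hx⟩ := h (c, x')
  refine ⟨(x1, x), ?_⟩
  unfold Pp2_map
  simp only [hx]

theorem PP.gate {X Y X1 Y1 : Type} [Finite X1] [Finite Y1] {F : X → Y → Bool} {κ : ℕ} {δ : ℝ} {g : X1 → Y1 → Bool}
    (hg : TwoBlocky g) (e : Bool) (h : PP κ δ F) :
    PP κ δ (fun (x : X1 × X) (y : Y1 × Y) => if g x.1 y.1 then F x.2 y.2 else e) := by
  refine Pp2_step h ?_ ?_
  · obtain ⟨-, x1, x1', y1, y1', h1, -⟩ := hg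
    refine ⟨fun x => (x1, x), fun y => (y1, y), fun x y => ?_⟩
    show (if g x1 y1 then F x y else e) = F x y
    rw [h1]
    rfl
  · intro Xc Yc X' Y' i1 i2 u v fA fB H ex ey hex hey hch hF
    refine ⟨X1 × Xc, Y1 × Yc, inferInstance, inferInstance, _, _, _, _, Pp2_map ex, Pp2_map ey,
      Pp2_surj hex, Pp2_surj hey, hch.gate hg e, ?_⟩
    rintro ⟨x1, x⟩ ⟨y1, y⟩
    show (if g x1 y1 then F x y else e) = if (g x1 y1 && u (ex x).1 (ey y).1) then
      Bool.xor (Bool.xor (fA (ex x).1) (fB (ey y).1)) (H (ex x).2 (ey y).2)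
        else (if g x1 y1 then v (ex x).1 (ey y).1 else e)
    rw [hF x y]
    cases g x1 y1 <;> cases u (ex x).1 (ey y).1 <;> rfl

theorem PP.gateA {X Y X1 : Type} [Finite X1] {F : X → Y → Bool} {κ : ℕ} {δ : ℝ} (a : X1 → Bool)
    (ha : ∃ x, a x = true) (ha' : ∃ x, a x = false) (e : Bool) (h : PP κ δ F) :
    PP κ δ (fun (x : X1 × X) (y : Y) => if a x.1 then F x.2 y else e) := by
  refine Pp2_step h ?_ ?_
  · obtain ⟨x1, h1⟩ := ha
    refine ⟨fun x => (x1, x), id, fun x y => ?_⟩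
    show (if a x1 then F x y else e) = F x y
    rw [h1]
    rfl
  · intro Xc Yc X' Y' i1 i2 u v fA fB H ex ey hex hey hch hF
    refine ⟨X1 × Xc, Yc, inferInstance, i2, _, _, _, _, Pp2_map ex, ey,
      Pp2_surj hex, hey, hch.gateA a ha ha' e, ?_⟩
    rintro ⟨x1, x⟩ y
    show (if a x1 then F x y else e) = if (a x1 && u (ex x).1 (ey y).1) then
      Bool.xor (Bool.xor (fA (ex x).1) (fB (ey y).1)) (H (ex x).2 (ey y).2)
        else (if a x1 then v (ex x).1 (ey y).1 else e)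
    rw [hF x y]
    cases a x1 <;> cases u (ex x).1 (ey y).1 <;> rfl

theorem PP.gateB {X Y Y1 : Type} [Finite Y1] {F : X → Y → Bool} {κ : ℕ} {δ : ℝ} (b : Y1 → Bool)
    (hb : ∃ y, b y = true) (hb' : ∃ y, b y = false) (e : Bool) (h : PP κ δ F) :
    PP κ δ (fun (x : X) (y : Y1 × Y) => if b y.1 then F x y.2 else e) := by
  refine Pp2_step h ?_ ?_
  · obtain ⟨y1, h1⟩ := hb
    refine ⟨id, fun y => (y1, y), fun x y => ?_⟩
    show (if b y1 then F x y else e) = F x y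
    rw [h1]
    rfl
  · intro Xc Yc X' Y' i1 i2 u v fA fB H ex ey hex hey hch hF
    refine ⟨Xc, Y1 × Yc, i1, inferInstance, _, _, _, _, ex, Pp2_map ey,
      hex, Pp2_surj hey, hch.gateB b hb hb' e, ?_⟩
    rintro x ⟨y1, y⟩
    show (if b y1 then F x y else e) = if (b y1 && u (ex x).1 (ey y).1) then
      Bool.xor (Bool.xor (fA (ex x).1) (fB (ey y).1)) (H (ex x).2 (ey y).2)
        else (if b y1 then v (ex x).1 (ey y).1 else e)
    rw [hF x y]
    cases b y1 <;> cases u (ex x).1 (ey y).1 <;> rfl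

theorem PP.xorA {X Y X1 : Type} [Finite X1] {F : X → Y → Bool} {κ : ℕ} {δ : ℝ} (a : X1 → Bool)
    (ha : ∃ x, a x = true) (ha' : ∃ x, a x = false) (h : PP κ δ F) :
    PP κ δ (fun (x : X1 × X) (y : Y) => Bool.xor (a x.1) (F x.2 y)) := by
  refine Pp2_step h ?_ ?_
  · obtain ⟨x1, h1⟩ := ha'
    refine ⟨fun x => (x1, x), id, fun x y => ?_⟩
    show Bool.xor (a x1) (F x y) = F x y
    rw [h1, Bool.false_xor]
  · intro Xc Yc X' Y' i1 i2 u v fA fB H ex ey hex hey hch hF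
    refine ⟨X1 × Xc, Yc, inferInstance, i2, _, _, _, _, Pp2_map ex, ey,
      Pp2_surj hex, hey, hch.xorA a ha ha', ?_⟩
    rintro ⟨x1, x⟩ y
    show Bool.xor (a x1) (F x y) = if u (ex x).1 (ey y).1 then
      Bool.xor (Bool.xor (Bool.xor (a x1) (fA (ex x).1)) (fB (ey y).1)) (H (ex x).2 (ey y).2)
        else Bool.xor (a x1) (v (ex x).1 (ey y).1)
    rw [hF x y]
    cases u (ex x).1 (ey y).1
    · rfl
    · show Bool.xor (a x1) (Bool.xor (Bool.xor (fA (ex x).1) (fB (ey y).1)) (H (ex x).2 (ey y).2)) =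
        Bool.xor (Bool.xor (Bool.xor (a x1) (fA (ex x).1)) (fB (ey y).1)) (H (ex x).2 (ey y).2)
      cases a x1 <;> cases fA (ex x).1 <;> cases fB (ey y).1 <;>
        cases H (ex x).2 (ey y).2 <;> rfl

theorem PP.xorB {X Y Y1 : Type} [Finite Y1] {F : X → Y → Bool} {κ : ℕ} {δ : ℝ} (b : Y1 → Bool)
    (hb : ∃ y, b y = true) (hb' : ∃ y, b y = false) (h : PP κ δ F) :
    PP κ δ (fun (x : X) (y : Y1 × Y) => Bool.xor (b y.1) (F x y.2)) := by
  refine Pp2_step h ?_ ?_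
  · obtain ⟨y1, h1⟩ := hb'
    refine ⟨id, fun y => (y1, y), fun x y => ?_⟩
    show Bool.xor (b y1) (F x y) = F x y
    rw [h1, Bool.false_xor]
  · intro Xc Yc X' Y' i1 i2 u v fA fB H ex ey hex hey hch hF
    refine ⟨Xc, Y1 × Yc, i1, inferInstance, _, _, _, _, ex, Pp2_map ey,
      hex, Pp2_surj hey, hch.xorB b hb hb', ?_⟩
    rintro x ⟨y1, y⟩
    show Bool.xor (b y1) (F x y) = if u (ex x).1 (ey y).1 then
      Bool.xor (Bool.xor (fA (ex x).1) (Bool.xor (b y1) (fB (ey y).1))) (H (ex x).2 (ey y).2)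
        else Bool.xor (b y1) (v (ex x).1 (ey y).1)
    rw [hF x y]
    cases u (ex x).1 (ey y).1
    · rfl
    · show Bool.xor (b y1) (Bool.xor (Bool.xor (fA (ex x).1) (fB (ey y).1)) (H (ex x).2 (ey y).2)) =
        Bool.xor (Bool.xor (fA (ex x).1) (Bool.xor (b y1) (fB (ey y).1))) (H (ex x).2 (ey y).2)
      cases b y1 <;> cases fA (ex x).1 <;> cases fB (ey y).1 <;>
        cases H (ex x).2 (ey y).2 <;> rfl

end Pool.Agent.H.MP_dd1c2e_lc.RO
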