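import Pool.Agent.H.MP_dd1c2e_lc.ro.Re1

/-!
# Randomized protocols with error `δ`: composition
-/

namespace Pool.Agent.H.MP_dd1c2e_lc.RO

open Finset Pool.Agent.H.MP_dd1c2e_lc.Alt

/-- Replace the leaves labelled `true` by `P1` and the leaves labelled `false` by `P2`. -/
def Re2_graft {X Y : Type} (P1 P2 : DProt X Y) : DProt X Y → DProt X Y
  | .leaf b => cond b P1 P2
  | .alice f P Q => .alice f (Re2_graft P1 P2 P) (Re2_graft P1 P2 Q)
  | .bob f P Q => .bob f (Re2_graft P1 P2 P) (Re2_graft P1 P2 Q)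

theorem Re2_depth {X Y : Type} (P1 P2 P : DProt X Y) :
    (Re2_graft P1 P2 P).depth ≤ P.depth + max P1.depth P2.depth := by
  induction P with
  | leaf b => cases b <;> simp [Re2_graft, DProt.depth]
  | alice f P Q hP hQ =>
    simp only [Re2_graft, DProt.depth]
    omega
  | bob f P Q hP hQ =>
    simp only [Re2_graft, DProt.depth]
    omega

theorem Re2_run {X Y : Type} (P1 P2 P : DProt X Y) (x : X) (y : Y) :
    (Re2_graft P1 P2 P).run x y = if P.run x y then P1.run x y else P2.run x y := by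
  induction P with
  | leaf b => cases b <;> simp [Re2_graft, DProt.run]
  | alice f P Q hP hQ =>
    simp only [Re2_graft, DProt.run]
    rw [hP, hQ]
    by_cases h : f x = true <;> simp [h]
  | bob f P Q hP hQ =>
    simp only [Re2_graft, DProt.run]
    rw [hP, hQ]
    by_cases h : f y = true <;> simp [h]

/-- The union bound. -/
theorem Re2_card {Ω Ω1 Ω2 : Type} [Fintype Ω] [Fintype Ω1] [Fintype Ω2] [DecidableEq Ω]
    [DecidableEq Ω1] [DecidableEq Ω2]
    (S : Finset (Ω × Ω1 × Ω2)) (A : Finset Ω) (B : Finset Ω1) (C : Finset Ω2)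
    (h : ∀ ω ∈ S, ω.1 ∈ A ∨ (ω.2.1 ∈ B ∧ ω.2.2 ∈ C)) (δ1 δ2 : ℝ)
    (hA : (A.card : ℝ) ≤ δ1 * (Fintype.card Ω : ℝ))
    (hBC : ((B.card : ℝ) * (C.card : ℝ)) ≤ δ2 * ((Fintype.card Ω1 : ℝ) * (Fintype.card Ω2 : ℝ))) :
    (S.card : ℝ) ≤ (δ1 + δ2) * (Fintype.card (Ω × Ω1 × Ω2) : ℝ) := by
  have h1 : S ⊆ (A ×ˢ (univ : Finset (Ω1 × Ω2))) ∪ ((univ : Finset Ω) ×ˢ (B ×ˢ C)) := by
    intro ω hω
    rw [mem_union, mem_product, mem_product, mem_product]
    rcases h ω hω with h2 | h2
    · exact Or.inl ⟨h2, mem_univ _⟩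
    · exact Or.inr ⟨mem_univ _, h2⟩
  have h2 : S.card ≤ A.card * (Fintype.card Ω1 * Fintype.card Ω2) +
      Fintype.card Ω * (B.card * C.card) := by
    refine (card_le_card h1).trans ((card_union_le _ _).trans (le_of_eq ?_))
    rw [card_product, card_product, card_product, card_univ, card_univ, Fintype.card_prod]
  have h3 : (S.card : ℝ) ≤ (A.card : ℝ) * ((Fintype.card Ω1 : ℝ) * (Fintype.card Ω2 : ℝ)) +
      (Fintype.card Ω : ℝ) * ((B.card : ℝ) * (C.card : ℝ)) := by
    exact_mod_cast h2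
  rw [Fintype.card_prod, Fintype.card_prod]
  push_cast
  have h4 : (A.card : ℝ) * ((Fintype.card Ω1 : ℝ) * (Fintype.card Ω2 : ℝ)) ≤
      δ1 * (Fintype.card Ω : ℝ) * ((Fintype.card Ω1 : ℝ) * (Fintype.card Ω2 : ℝ)) :=
    mul_le_mul_of_nonneg_right hA (by positivity)
  have h5 : (Fintype.card Ω : ℝ) * ((B.card : ℝ) * (C.card : ℝ)) ≤
      (Fintype.card Ω : ℝ) * (δ2 * ((Fintype.card Ω1 : ℝ) * (Fintype.card Ω2 : ℝ))) :=
    mul_le_mul_of_nonneg_left hBC (by positivity)
  linarith

/-- Run the protocol for `t`, then the one for `F1` or for `F2`.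

Proof. For deterministic protocols `P`, `P1`, `P2` replace every leaf of `P` with label `true` (`false`) by `P1` (`P2`)
(define by recursion on `P`): depth at most `depth P + max (depth P1) (depth P2)`, the run on `(x, y)` is the run of `P1`
or `P2` according to the run of `P`. Coins `Ω × Ω1 × Ω2`, number `2 ^ (r + r1 + r2)`. For fixed `x`, `y` with
`t x y = true` (the other case is similar) the bad coins lie in `{ω | P ω bad for t} ×ˢ univ ×ˢ univ ∪
univ ×ˢ {ω | P1 ω bad for F1} ×ˢ univ`, of cardinality at most `(δ1 + δ2) |Ω| |Ω1| |Ω2|`. -/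
theorem RandE.ite {X Y : Type} {t F1 F2 : X → Y → Bool} {k1 k2 : ℕ} {δ1 δ2 : ℝ} (ht : RandE t k1 δ1)
    (h1 : RandE F1 k2 δ2) (h2 : RandE F2 k2 δ2) :
    RandE (fun x y => if t x y then F1 x y else F2 x y) (k1 + k2) (δ1 + δ2) := by
  classical
  obtain ⟨Ω, iΩ, r, P, hc, hd, he⟩ := ht
  obtain ⟨Ω1, iΩ1, r1, P1, hc1, hd1, he1⟩ := h1
  obtain ⟨Ω2, iΩ2, r2, P2, hc2, hd2, he2⟩ := h2
  refine ⟨Ω × Ω1 × Ω2, inferInstance, r + (r1 + r2),
    fun ω => Re2_graft (P1 ω.2.1) (P2 ω.2.2) (P ω.1), ?_, ?_, ?_⟩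
  · rw [Fintype.card_prod, Fintype.card_prod, hc, hc1, hc2, pow_add, pow_add]
  · intro ω
    refine (Re2_depth _ _ _).trans ?_
    exact add_le_add (hd _) (max_le (hd1 _) (hd2 _))
  · intro x y
    have e1 := he x y
    have e2 := he1 x y
    have e3 := he2 x y
    cases ht : t x y
    · refine Re2_card _ (univ.filter fun ω => (P ω).run x y ≠ t x y) univ
        (univ.filter fun ω => (P2 ω).run x y ≠ F2 x y) ?_ δ1 δ2 e1 ?_
      · intro ω hω
        rw [mem_filter] at hω
        by_cases h : (P ω.1).run x y = t x y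
        · right
          refine ⟨mem_univ _, mem_filter.mpr ⟨mem_univ _, ?_⟩⟩
          intro h'
          apply hω.2
          rw [Re2_run, h, ht]
          simpa [ht] using h'
        · left
          exact mem_filter.mpr ⟨mem_univ _, h⟩
      · rw [card_univ]
        have h6 := mul_le_mul_of_nonneg_left e3 (Nat.cast_nonneg (α := ℝ) (Fintype.card Ω1))
        linarith
    · refine Re2_card _ (univ.filter fun ω => (P ω).run x y ≠ t x y)
        (univ.filter fun ω => (P1 ω).run x y ≠ F1 x y) univ ?_ δ1 δ2 e1 ?_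
      · intro ω hω
        rw [mem_filter] at hω
        by_cases h : (P ω.1).run x y = t x y
        · right
          refine ⟨mem_filter.mpr ⟨mem_univ _, ?_⟩, mem_univ _⟩
          intro h'
          apply hω.2
          rw [Re2_run, h, ht]
          simpa [ht] using h'
        · left
          exact mem_filter.mpr ⟨mem_univ _, h⟩
      · rw [card_univ]
        have h6 := mul_le_mul_of_nonneg_right e2 (Nat.cast_nonneg (α := ℝ) (Fintype.card Ω2))
        linarith

/-- `a x ⊕ F x y = if a x then !(F x y) else F x y`: `RandE.ite` with `RandE.ofA` and `RandE.map`. -/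
theorem RandE.flipA {X Y : Type} {F : X → Y → Bool} {k : ℕ} {δ : ℝ} (a : X → Bool) (h : RandE F k δ) :
    RandE (fun x y => Bool.xor (a x) (F x y)) (k + 1) δ := by
  have e : (fun x y => Bool.xor (a x) (F x y)) =
      (fun x y => if (fun x (_ : Y) => a x) x y then (fun x y => !(F x y)) x y else F x y) := by
    funext x y
    cases h : a x <;> simp [h]
  rw [e]
  exact (RandE.ite (RandE.ofA a) (RandE.map (fun b => !b) h) h).mono (by omega) (by linarith)

theorem RandE.flipB {X Y : Type} {F : X → Y → Bool} {k : ℕ} {δ : ℝ} (b : Y → Bool) (h : RandE F k δ) :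
    RandE (fun x y => Bool.xor (b y) (F x y)) (k + 1) δ := by
  have e : (fun x y => Bool.xor (b y) (F x y)) =
      (fun x y => if (fun (_ : X) y => b y) x y then (fun x y => !(F x y)) x y else F x y) := by
    funext x y
    cases h : b y <;> simp [h]
  rw [e]
  exact (RandE.ite (RandE.ofB b) (RandE.map (fun c => !c) h) h).mono (by omega) (by linarith)

/-- `op (F1 ..) (F2 ..) = if F1 .. then op true (F2 ..) else op false (F2 ..)`: `RandE.ite` with `RandE.pull`
(projections) and `RandE.map (op true)`, `RandE.map (op false)`. -/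
theorem RandE.op {X Y X' Y' : Type} {F1 : X → Y → Bool} {F2 : X' → Y' → Bool} {k1 k2 : ℕ} {δ1 δ2 : ℝ}
    (op : Bool → Bool → Bool) (h1 : RandE F1 k1 δ1) (h2 : RandE F2 k2 δ2) :
    RandE (fun (x : X × X') (y : Y × Y') => op (F1 x.1 y.1) (F2 x.2 y.2)) (k1 + k2) (δ1 + δ2) := by
  have e : (fun (x : X × X') (y : Y × Y') => op (F1 x.1 y.1) (F2 x.2 y.2)) =
      (fun (x : X × X') (y : Y × Y') => if (fun (x : X × X') (y : Y × Y') => F1 x.1 y.1) x y then
        (fun (x : X × X') (y : Y × Y') => op true (F2 x.2 y.2)) x y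
        else (fun (x : X × X') (y : Y × Y') => op false (F2 x.2 y.2)) x y) := by
    funext x y
    cases h : F1 x.1 y.1 <;> simp [h]
  rw [e]
  exact RandE.ite (h1.pull Prod.fst Prod.fst) ((h2.pull Prod.snd Prod.snd).map (op true))
    ((h2.pull Prod.snd Prod.snd).map (op false))

end Pool.Agent.H.MP_dd1c2e_lc.RO
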