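import Pool.Agent.H.MP_dd1c2e_lc.ro.Ch1
import Pool.Agent.H.MP_dd1c2e_lc.ro.Re2
import Pool.Agent.H.MP_dd1c2e_lc.ro.Qs

/-!
# The cost of a chain with a core
-/

namespace Pool.Agent.H.MP_dd1c2e_lc.RO

open Finset Pool.Agent.H.MP_dd1c2e_lc.Alt

/-- From `PP` to `PC`.

Proof. Keep the numbers. The core `H` has some value `b = H x₀' y₀'`; `Sub F (cf u v fA fB b)` (by surjectivity choose for
every `x` a preimage of `(x, x₀')` under `ex`, and similarly for `ey`), so `QuantumComputes (cf u v fA fB b) q`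
(`quantum_sub`) and `hE` gives `RandE (cf u v fA fB b) κ δ`. `F` is the pull back (`RandE.pull`) of
`if u then fA ⊕ (fB ⊕ H) else cf u v fA fB b` (if `u x y = false` then `cf .. x y = v x y`). `RandE.ite` with `hB` for `u`,
`RandE.flipA`, `RandE.flipB` for the first branch (cost `(5 N - 4) κ + 2`, error `(5 N - 4) δ`), the second branch has cost
`κ ≤ (5 N - 4) κ + 2` and error `δ ≤ (5 N - 4) δ` (`RandE.mono`, `N ≥ 1`). Total cost
`κ + (5 N - 4) κ + 2 ≤ (5 N - 2) κ` because `2 ≤ κ`, error `δ + (5 N - 4) δ ≤ (5 N - 2) δ`. -/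
theorem PP.cost {X Y : Type} {F : X → Y → Bool} {κ q : ℕ} {δ : ℝ} (hκ : 2 ≤ κ) (hδ : 0 ≤ δ)
    (hB : ∀ (X Y : Type) (u : X → Y → Bool), Blocky u → RandE u κ δ)
    (hE : ∀ (X Y : Type) (G : X → Y → Bool), Ev G → QuantumComputes G q → RandE G κ δ)
    (h : PP κ δ F) (hq : QuantumComputes F q) : PC κ δ F := by
  obtain ⟨N, a, o, z, hN, hle, ha, ho, hz, Xc, Yc, X', Y', _, _, nX', nY', u, v, fA, fB, H, ex, ey, hex, hey,
    hCH, hH, hF⟩ := h
  refine ⟨N, a, o, z, hN, hle, ha, ho, hz, ?_⟩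
  obtain ⟨x0⟩ := nX'
  obtain ⟨y0⟩ := nY'
  have hsub : Sub F (cf u v fA fB (H x0 y0)) := by
    choose α hα using fun x : Xc => hex (x, x0)
    choose β hβ using fun y : Yc => hey (y, y0)
    refine ⟨α, β, fun x y => ?_⟩
    rw [hF, hα, hβ]
    rfl
  have hG : RandE (cf u v fA fB (H x0 y0)) κ δ := hE _ _ _ (hCH.2.2 _) (quantum_sub hq hsub)
  have hu : RandE (fun x y => u (ex x).1 (ey y).1) κ δ :=
    hB _ _ _ (hCH.1.pull (fun x => (ex x).1) (fun y => (ey y).1))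
  have h1 : RandE (fun x y => Bool.xor (fA (ex x).1) (Bool.xor (fB (ey y).1) (H (ex x).2 (ey y).2)))
      ((5 * N - 4) * κ + 1 + 1) ((5 * (N : ℝ) - 4) * δ) :=
    RandE.flipA (fun x => fA (ex x).1) (RandE.flipB (fun y => fB (ey y).1)
      (hH.pull (fun x => (ex x).2) (fun y => (ey y).2)))
  have hN' : (1 : ℝ) ≤ (N : ℝ) := by exact_mod_cast hN
  have h2 : RandE (fun x y => cf u v fA fB (H x0 y0) (ex x).1 (ey y).1)
      ((5 * N - 4) * κ + 1 + 1) ((5 * (N : ℝ) - 4) * δ) := by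
    refine (hG.pull (fun x => (ex x).1) (fun y => (ey y).1)).mono ?_ ?_
    · have h5 : 1 * κ ≤ (5 * N - 4) * κ := Nat.mul_le_mul_right κ (by omega)
      omega
    · nlinarith
  have e : F = (fun x y => if (fun x y => u (ex x).1 (ey y).1) x y then
      (fun x y => Bool.xor (fA (ex x).1) (Bool.xor (fB (ey y).1) (H (ex x).2 (ey y).2))) x y else
      (fun x y => cf u v fA fB (H x0 y0) (ex x).1 (ey y).1) x y) := by
    funext x y
    rw [hF]
    cases hc : u (ex x).1 (ey y).1 with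
    | true => simp [hc]
    | false => simp [cf, hc]
  rw [e]
  refine (RandE.ite hu h1 h2).mono ?_ ?_
  · obtain ⟨n, rfl⟩ : ∃ n, N = n + 1 := ⟨N - 1, by omega⟩
    rw [show 5 * (n + 1) - 4 = 5 * n + 1 from by omega, show 5 * (n + 1) - 2 = 5 * n + 1 + 2 from by omega]
    rw [Nat.add_mul (5 * n + 1) 2 κ]
    omega
  · nlinarith

end Pool.Agent.H.MP_dd1c2e_lc.RO
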