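import Pool.Agent.H.MP_dd1c2e_lc.ro.Ch1
import Pool.Agent.H.MP_dd1c2e_lc.ro.Re2
import Pool.Agent.H.MP_dd1c2e_lc.ro.Pj

/-!
# The induction statement: two hard parts
-/

namespace Pool.Agent.H.MP_dd1c2e_lc.RO

open Finset Pool.Agent.H.MP_dd1c2e_lc.Alt

theorem Pp4_arith {N1 a1 o1 z1 N2 a2 o2 z2 : ℕ} (h1 : N1 ≤ a1 * o1 * z1) (h2 : N2 ≤ a2 * o2 * z2) :
    N1 + N2 ≤ (a1 + a2) * max o1 o2 * max z1 z2 := by
  have e1 : a1 * o1 * z1 ≤ a1 * max o1 o2 * max z1 z2 :=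
    Nat.mul_le_mul (Nat.mul_le_mul_left _ (le_max_left _ _)) (le_max_left _ _)
  have e2 : a2 * o2 * z2 ≤ a2 * max o1 o2 * max z1 z2 :=
    Nat.mul_le_mul (Nat.mul_le_mul_left _ (le_max_right _ _)) (le_max_right _ _)
  calc N1 + N2 ≤ a1 * max o1 o2 * max z1 z2 + a2 * max o1 o2 * max z1 z2 :=
        add_le_add (h1.trans e1) (h2.trans e2)
    _ = (a1 + a2) * max o1 o2 * max z1 z2 := by ring

theorem Pp4_max {P : ℕ → Prop} {m n : ℕ} (h1 : m = 1 ∨ P m) (h2 : n = 1 ∨ P n) :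
    max m n = 1 ∨ P (max m n) := by
  rcases le_total m n with h | h
  · rw [max_eq_right h]
    exact h2
  · rw [max_eq_left h]
    exact h1

theorem Pp4_rand {X Y : Type} {F : X → Y → Bool} {N1 N2 κ : ℕ} {δ : ℝ} (h1 : 1 ≤ N1) (h2 : 1 ≤ N2)
    (h : RandE F ((5 * N1 - 2) * κ + (5 * N2 - 2) * κ) ((5 * (N1 : ℝ) - 2) * δ + (5 * (N2 : ℝ) - 2) * δ)) :
    RandE F ((5 * (N1 + N2) - 4) * κ) ((5 * ((N1 + N2 : ℕ) : ℝ) - 4) * δ) := by
  have e1 : (5 * (N1 + N2) - 4) * κ = (5 * N1 - 2) * κ + (5 * N2 - 2) * κ := by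
    rw [← Nat.add_mul]
    congr 1
    omega
  have e2 : (5 * ((N1 + N2 : ℕ) : ℝ) - 4) * δ = (5 * (N1 : ℝ) - 2) * δ + (5 * (N2 : ℝ) - 2) * δ := by
    push_cast
    ring
  rw [e1, e2]
  exact h

/-- Conjunction of two matrices that are not blocky.

Proof. Let `N1, a1, o1, z1` and `N2, a2, o2, z2` be the numbers. New numbers `N = N1 + N2`, `a = a1 + a2`,
`o = max o1 o2`, `z = max z1 z2`: `N ≤ a1 o1 z1 + a2 o2 z2 ≤ a o z`. `Sub F1 (AO a1)` holds also if `a1 = 1`, by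
`sub_AO_one`; `sub_AO_add`. `F1` and `F2` have an entry `true` (otherwise they would be blocky, `Blocky.const`), so
`sub_left`, `sub_right` with `op = and` give `Sub F F1`, `Sub F F2`; so the conditions for `o` and `z` hold (the maximum is
one of the two numbers; if it is `1` nothing is to be shown). Empty chain (`CH.nil`), core `F` itself with the maps
`x ↦ ((), x)`; cost of the core by `RandE.op`: `(5 N1 - 2) κ + (5 N2 - 2) κ = (5 N - 4) κ`, error `(5 N - 4) δ`.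
The types of the core must be nonempty: they contain the points with the entries `true`. -/
theorem PP.joinAnd {X Y X' Y' : Type} [Finite Y] [Finite Y'] {F1 : X → Y → Bool} {F2 : X' → Y' → Bool} {κ : ℕ} {δ : ℝ}
    (h1 : PC κ δ F1) (h2 : PC κ δ F2) (hb1 : ¬ Blocky F1) (hb2 : ¬ Blocky F2) :
    PP κ δ (fun (x : X × X') (y : Y × Y') => F1 x.1 y.1 && F2 x.2 y.2) := by
  classical
  obtain ⟨N1, a1, o1, z1, hN1, hn1, ha1, ho1, hz1, hr1⟩ := h1
  obtain ⟨N2, a2, o2, z2, hN2, hn2, ha2, ho2, hz2, hr2⟩ := h2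
  have t1 : ∃ x y, F1 x y = true := by
    by_contra hcon
    push Not at hcon
    apply hb1
    have e : F1 = fun (_ : X) (_ : Y) => false := by
      funext x y
      simpa using hcon x y
    rw [e]
    exact Blocky.const false
  have t2 : ∃ x y, F2 x y = true := by
    by_contra hcon
    push Not at hcon
    apply hb2
    have e : F2 = fun (_ : X') (_ : Y') => false := by
      funext x y
      simpa using hcon x y
    rw [e]
    exact Blocky.const false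
  obtain ⟨x1, y1, e1⟩ := t1
  obtain ⟨x2, y2, e2⟩ := t2
  have s1 : Sub (fun (x : X × X') (y : Y × Y') => F1 x.1 y.1 && F2 x.2 y.2) F1 :=
    sub_left F1 F2 (fun a b => a && b) x2 y2 (fun b => by show (b && F2 x2 y2) = b; rw [e2, Bool.and_true])
  have s2 : Sub (fun (x : X × X') (y : Y × Y') => F1 x.1 y.1 && F2 x.2 y.2) F2 :=
    sub_right F1 F2 (fun a b => a && b) x1 y1 (fun b => by show (F1 x1 y1 && b) = b; rw [e1, Bool.true_and])
  have A1 : Sub F1 (AO a1) := by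
    rcases ha1 with h | h
    · rw [h]
      exact sub_AO_one F1 hb1
    · exact h
  have A2 : Sub F2 (AO a2) := by
    rcases ha2 with h | h
    · rw [h]
      exact sub_AO_one F2 hb2
    · exact h
  refine ⟨N1 + N2, a1 + a2, max o1 o2, max z1 z2, by omega, Pp4_arith hn1 hn2, Or.inr (sub_AO_add A1 A2),
    Pp4_max (P := fun k => Sub (fun (x : X × X') (y : Y × Y') => F1 x.1 y.1 && F2 x.2 y.2) (OA k))
      (ho1.imp_right fun h => s1.trans h) (ho2.imp_right fun h => s2.trans h),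
    Pp4_max (P := fun k => ∃ c, Sub (fun (x : X × X') (y : Y × Y') => F1 x.1 y.1 && F2 x.2 y.2) (IPc c k))
      (hz1.imp_right fun ⟨c, h⟩ => ⟨c, s1.trans h⟩) (hz2.imp_right fun ⟨c, h⟩ => ⟨c, s2.trans h⟩),
    Unit, Unit, X × X', Y × Y', inferInstance, inferInstance, ⟨(x1, x2)⟩, ⟨(y1, y2)⟩, fun _ _ => true,
    fun _ _ => false, fun _ => false, fun _ => false, fun (x : X × X') (y : Y × Y') => F1 x.1 y.1 && F2 x.2 y.2,
    fun x => ((), x), fun y => ((), y), fun ⟨_, x⟩ => ⟨x, rfl⟩, fun ⟨_, y⟩ => ⟨y, rfl⟩, CH.nil,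
    Pp4_rand hN1 hN2 (RandE.op (fun a b => a && b) hr1 hr2), fun x y => by simp⟩

/-- Exclusive or of two matrices that are not of xor type.

Proof. New numbers `N = N1 + N2`, `a = max a1 a2`, `o = max o1 o2`, `z = z1 + z2`. `Sub F1 (IPc c1 z1)` for some `c1` holds
also if `z1 = 1`, by `sub_IP_one`; `sub_IP_add`. `F1` and `F2` have an entry `false` (`NC`), so `sub_left`, `sub_right` with
`op = xor` give `Sub F F1`, `Sub F F2`. The rest as in `PP.joinAnd`. -/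
theorem PP.joinXor {X Y X' Y' : Type} {F1 : X → Y → Bool} {F2 : X' → Y' → Bool} {κ : ℕ} {δ : ℝ}
    (h1 : PC κ δ F1) (h2 : PC κ δ F2) (hn1 : NC F1) (hn2 : NC F2)
    (hb1 : ¬ ∃ (a : X → Bool) (b : Y → Bool), ∀ x y, F1 x y = Bool.xor (a x) (b y))
    (hb2 : ¬ ∃ (a : X' → Bool) (b : Y' → Bool), ∀ x y, F2 x y = Bool.xor (a x) (b y)) :
    PP κ δ (fun (x : X × X') (y : Y × Y') => Bool.xor (F1 x.1 y.1) (F2 x.2 y.2)) := by
  classical
  obtain ⟨N1, a1, o1, z1, hN1, hm1, ha1, ho1, hz1, hr1⟩ := h1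
  obtain ⟨N2, a2, o2, z2, hN2, hm2, ha2, ho2, hz2, hr2⟩ := h2
  obtain ⟨x1, y1, e1⟩ := hn1.2
  obtain ⟨x2, y2, e2⟩ := hn2.2
  have s1 : Sub (fun (x : X × X') (y : Y × Y') => Bool.xor (F1 x.1 y.1) (F2 x.2 y.2)) F1 :=
    sub_left F1 F2 (fun a b => Bool.xor a b) x2 y2
      (fun b => by show Bool.xor b (F2 x2 y2) = b; rw [e2, Bool.xor_false])
  have s2 : Sub (fun (x : X × X') (y : Y × Y') => Bool.xor (F1 x.1 y.1) (F2 x.2 y.2)) F2 :=
    sub_right F1 F2 (fun a b => Bool.xor a b) x1 y1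
      (fun b => by show Bool.xor (F1 x1 y1) b = b; rw [e1, Bool.false_xor])
  have Z1 : ∃ c, Sub F1 (IPc c z1) := by
    rcases hz1 with h | h
    · rw [h]
      exact sub_IP_one F1 hb1
    · exact h
  have Z2 : ∃ c, Sub F2 (IPc c z2) := by
    rcases hz2 with h | h
    · rw [h]
      exact sub_IP_one F2 hb2
    · exact h
  obtain ⟨c1, C1⟩ := Z1
  obtain ⟨c2, C2⟩ := Z2
  have hN : N1 + N2 ≤ max a1 a2 * max o1 o2 * (z1 + z2) := by
    have h3 : N1 ≤ z1 * a1 * o1 := hm1.trans (le_of_eq (by ring))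
    have h4 : N2 ≤ z2 * a2 * o2 := hm2.trans (le_of_eq (by ring))
    exact (Pp4_arith h3 h4).trans (le_of_eq (by ring))
  refine ⟨N1 + N2, max a1 a2, max o1 o2, z1 + z2, by omega, hN,
    Pp4_max (P := fun k => Sub (fun (x : X × X') (y : Y × Y') => Bool.xor (F1 x.1 y.1) (F2 x.2 y.2)) (AO k))
      (ha1.imp_right fun h => s1.trans h) (ha2.imp_right fun h => s2.trans h),
    Pp4_max (P := fun k => Sub (fun (x : X × X') (y : Y × Y') => Bool.xor (F1 x.1 y.1) (F2 x.2 y.2)) (OA k))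
      (ho1.imp_right fun h => s1.trans h) (ho2.imp_right fun h => s2.trans h),
    Or.inr ⟨Bool.xor c1 c2, sub_IP_add C1 C2⟩,
    Unit, Unit, X × X', Y × Y', inferInstance, inferInstance, ⟨(x1, x2)⟩, ⟨(y1, y2)⟩, fun _ _ => true,
    fun _ _ => false, fun _ => false, fun _ => false,
    fun (x : X × X') (y : Y × Y') => Bool.xor (F1 x.1 y.1) (F2 x.2 y.2),
    fun x => ((), x), fun y => ((), y), fun ⟨_, x⟩ => ⟨x, rfl⟩, fun ⟨_, y⟩ => ⟨y, rfl⟩, CH.nil,
    Pp4_rand hN1 hN2 (RandE.op (fun a b => Bool.xor a b) hr1 hr2), fun x y => by simp⟩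

end Pool.Agent.H.MP_dd1c2e_lc.RO
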