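import Pool.Agent.H.MP_dd1c2e_lc.ro.Pp1
import Pool.Agent.H.MP_dd1c2e_lc.ro.Pp2
import Pool.Agent.H.MP_dd1c2e_lc.ro.Pp3
import Pool.Agent.H.MP_dd1c2e_lc.ro.Pp4

/-!
# The induction step for a conjunction
-/

namespace Pool.Agent.H.MP_dd1c2e_lc.RO

open Finset Pool.Agent.H.MP_dd1c2e_lc.Alt

/-- Prepend a blocky nonconstant matrix.

Proof. If `F1` is `TwoBlocky`: `PP.gate` with `e = false` (`(if F1 then F2 else false) = (F1 && F2)`). Otherwise
`rect_of_blocky` gives `F1 x y = (a x && b y)`, and `a`, `b` have a value `true` (because `F1` has an entry `true`). If `b`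
has also the value `false`: `PP.gateB` gives `PP` for `F' x (y₁, y) = (b y₁ && F2 x y)`, otherwise (`b` constant `true`)
`PP.relabel` with the projection `(y₁, y) ↦ y` (surjective because `Y1` is nonempty) gives it. Then, in the same way, with
`PP.gateA` or `PP.relabel`, `PP` for `(x₁, x) (y₁, y) ↦ a x₁ && F' x (y₁, y)`. -/
theorem PP.andBlocky {X1 Y1 X Y : Type} [Finite X1] [Finite Y1] {F1 : X1 → Y1 → Bool} {F2 : X → Y → Bool} {κ : ℕ}
    {δ : ℝ} (hb : Blocky F1) (h1 : ∃ x y, F1 x y = true) (h2 : PP κ δ F2) :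
    PP κ δ (fun (x : X1 × X) (y : Y1 × Y) => F1 x.1 y.1 && F2 x.2 y.2) := by
  by_cases ht : TwoBlocky F1
  · have h := PP.gate ht false h2
    have e : (fun (x : X1 × X) (y : Y1 × Y) => F1 x.1 y.1 && F2 x.2 y.2) =
        (fun (x : X1 × X) (y : Y1 × Y) => if F1 x.1 y.1 then F2 x.2 y.2 else false) := by
      funext x y
      cases F1 x.1 y.1 <;> simp
    rw [e]
    exact h
  · obtain ⟨a, b, hab⟩ := rect_of_blocky F1 hb ht
    obtain ⟨x0, y0, h0⟩ := h1
    have h0' := hab x0 y0
    rw [h0] at h0'
    have h3 : a x0 = true ∧ b y0 = true := by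
      rw [← Bool.and_eq_true]
      exact h0'.symm
    have hB : PP κ δ (fun (x : X) (y : Y1 × Y) => b y.1 && F2 x y.2) := by
      by_cases hb' : ∃ y, b y = false
      · have h := PP.gateB b ⟨y0, h3.2⟩ hb' false h2
        have e : (fun (x : X) (y : Y1 × Y) => b y.1 && F2 x y.2) =
            (fun (x : X) (y : Y1 × Y) => if b y.1 then F2 x y.2 else false) := by
          funext x y
          cases b y.1 <;> simp
        rw [e]
        exact h
      · have e : (fun (x : X) (y : Y1 × Y) => b y.1 && F2 x y.2) =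
            (fun (x : X) (y : Y1 × Y) => F2 (id x) (Prod.snd y)) := by
          funext x y
          have h4 : b y.1 = true := by
            by_contra h5
            exact hb' ⟨y.1, by simpa using h5⟩
          simp [h4]
        rw [e]
        have : Nonempty Y1 := ⟨y0⟩
        exact h2.relabel id Prod.snd Function.surjective_id Prod.snd_surjective
    have hA : PP κ δ (fun (x : X1 × X) (y : Y1 × Y) => a x.1 && (b y.1 && F2 x.2 y.2)) := by
      by_cases ha' : ∃ x, a x = false
      · have h := PP.gateA a ⟨x0, h3.1⟩ ha' false hB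
        have e : (fun (x : X1 × X) (y : Y1 × Y) => a x.1 && (b y.1 && F2 x.2 y.2)) =
            (fun (x : X1 × X) (y : Y1 × Y) => if a x.1 then (b y.1 && F2 x.2 y.2) else false) := by
          funext x y
          cases a x.1 <;> simp
        rw [e]
        exact h
      · have e : (fun (x : X1 × X) (y : Y1 × Y) => a x.1 && (b y.1 && F2 x.2 y.2)) =
            (fun (x : X1 × X) (y : Y1 × Y) => (fun (x : X) (y : Y1 × Y) => b y.1 && F2 x y.2)
              (Prod.snd x) (id y)) := by
          funext x y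
          have h4 : a x.1 = true := by
            by_contra h5
            exact ha' ⟨x.1, by simpa using h5⟩
          simp [h4]
        rw [e]
        have : Nonempty X1 := ⟨x0⟩
        exact hB.relabel Prod.snd id Prod.snd_surjective Function.surjective_id
    have e : (fun (x : X1 × X) (y : Y1 × Y) => F1 x.1 y.1 && F2 x.2 y.2) =
        (fun (x : X1 × X) (y : Y1 × Y) => a x.1 && (b y.1 && F2 x.2 y.2)) := by
      funext x y
      rw [hab, Bool.and_assoc]
    rw [e]
    exact hA

/-- The induction step for a conjunction.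

Proof. `F1` and `F2` have an entry `true` because `F1 ∧ F2` has one, hence `sub_left`, `sub_right` (`op = and`) and
`quantum_sub` give `QuantumComputes F1 q`, `QuantumComputes F2 q`. If `F1` is constant (`true`): then `F2` is not constant,
`ih2` gives `PP κ δ F2`, and `PP.relabel` with the projections `Prod.snd` (surjective) gives the claim. If `F2` is constant:
similarly with `Prod.fst`. If both are not constant: `PP κ δ F1`, `PP κ δ F2` by `ih1`, `ih2`. If `F1` is blocky:
`PP.andBlocky`. If `F2` is blocky: `PP.andBlocky` with the roles exchanged and `PP.relabel` with `Prod.swap`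
(`Bool.and_comm`). If both are not blocky: `PP.cost` for both and `PP.joinAnd`. -/
theorem PP.and_step {X Y X' Y' : Type} [Finite X] [Finite Y] [Finite X'] [Finite Y'] [Nonempty X] [Nonempty Y]
    [Nonempty X'] [Nonempty Y'] {F1 : X → Y → Bool} {F2 : X' → Y' → Bool} {κ q : ℕ} {δ : ℝ} (hκ : 2 ≤ κ) (hδ : 0 ≤ δ)
    (hB : ∀ (X Y : Type) (u : X → Y → Bool), Blocky u → RandE u κ δ)
    (hE : ∀ (X Y : Type) (G : X → Y → Bool), Ev G → QuantumComputes G q → RandE G κ δ)
    (ih1 : NC F1 → QuantumComputes F1 q → PP κ δ F1) (ih2 : NC F2 → QuantumComputes F2 q → PP κ δ F2)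
    (hn : NC (fun (x : X × X') (y : Y × Y') => F1 x.1 y.1 && F2 x.2 y.2))
    (hq : QuantumComputes (fun (x : X × X') (y : Y × Y') => F1 x.1 y.1 && F2 x.2 y.2) q) :
    PP κ δ (fun (x : X × X') (y : Y × Y') => F1 x.1 y.1 && F2 x.2 y.2) := by
  obtain ⟨⟨x0, y0, h0⟩, ⟨x1, y1, h1⟩⟩ := hn
  have h00 : F1 x0.1 y0.1 = true ∧ F2 x0.2 y0.2 = true := by
    rw [← Bool.and_eq_true]
    exact h0
  have hq1 : QuantumComputes F1 q := quantum_sub hq
    (sub_left F1 F2 (fun a b => a && b) x0.2 y0.2 fun b => by simp [h00.2])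
  have hq2 : QuantumComputes F2 q := quantum_sub hq
    (sub_right F1 F2 (fun a b => a && b) x0.1 y0.1 fun b => by simp [h00.1])
  by_cases hc1 : ∃ x y, F1 x y = false
  · by_cases hc2 : ∃ x y, F2 x y = false
    · have P1 := ih1 ⟨⟨x0.1, y0.1, h00.1⟩, hc1⟩ hq1
      have P2 := ih2 ⟨⟨x0.2, y0.2, h00.2⟩, hc2⟩ hq2
      by_cases hb1 : Blocky F1
      · exact PP.andBlocky hb1 ⟨x0.1, y0.1, h00.1⟩ P2
      · by_cases hb2 : Blocky F2
        · have h := PP.andBlocky hb2 ⟨x0.2, y0.2, h00.2⟩ P1
          have h5 := h.relabel (Prod.swap : X × X' → X' × X) (Prod.swap : Y × Y' → Y' × Y)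
            Prod.swap_surjective Prod.swap_surjective
          have e : (fun (x : X × X') (y : Y × Y') => F1 x.1 y.1 && F2 x.2 y.2) =
              (fun (x : X × X') (y : Y × Y') => F2 x.swap.1 y.swap.1 && F1 x.swap.2 y.swap.2) := by
            funext x y
            rw [Bool.and_comm]
            rfl
          rw [e]
          exact h5
        · exact PP.joinAnd (PP.cost hκ hδ hB hE P1 hq1) (PP.cost hκ hδ hB hE P2 hq2) hb1 hb2
    · have h3 : ∀ x y, F2 x y = true := by
        intro x y
        by_contra h5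
        exact hc2 ⟨x, y, by simpa using h5⟩
      have e : (fun (x : X × X') (y : Y × Y') => F1 x.1 y.1 && F2 x.2 y.2) =
          (fun (x : X × X') (y : Y × Y') => F1 (Prod.fst x) (Prod.fst y)) := by
        funext x y
        rw [h3, Bool.and_true]
      rw [e]
      exact (ih1 ⟨⟨x0.1, y0.1, h00.1⟩, hc1⟩ hq1).relabel Prod.fst Prod.fst Prod.fst_surjective
        Prod.fst_surjective
  · have h3 : ∀ x y, F1 x y = true := by
      intro x y
      by_contra h5
      exact hc1 ⟨x, y, by simpa using h5⟩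
    have e : (fun (x : X × X') (y : Y × Y') => F1 x.1 y.1 && F2 x.2 y.2) =
        (fun (x : X × X') (y : Y × Y') => F2 (Prod.snd x) (Prod.snd y)) := by
      funext x y
      rw [h3, Bool.true_and]
    have h4 : F2 x1.2 y1.2 = false := by
      have h6 : (F1 x1.1 y1.1 && F2 x1.2 y1.2) = false := h1
      rwa [h3, Bool.true_and] at h6
    rw [e]
    exact (ih2 ⟨⟨x0.2, y0.2, h00.2⟩, ⟨x1.2, y1.2, h4⟩⟩ hq2).relabel Prod.snd Prod.snd
      Prod.snd_surjective Prod.snd_surjective

end Pool.Agent.H.MP_dd1c2e_lc.RO
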