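import Pool.Agent.H.MP_dd1c2e_lc.ro.Pp1
import Pool.Agent.H.MP_dd1c2e_lc.ro.Pp2
import Pool.Agent.H.MP_dd1c2e_lc.ro.Pp3
import Pool.Agent.H.MP_dd1c2e_lc.ro.Pp4

/-!
# The induction step for an exclusive or
-/

namespace Pool.Agent.H.MP_dd1c2e_lc.RO

open Finset Pool.Agent.H.MP_dd1c2e_lc.Alt

/-- A matrix that is not `NC` is constant. -/
theorem In2_const {X Y : Type} {F : X → Y → Bool} (h : ¬ NC F) : ∃ c, ∀ x y, F x y = c := by
  by_cases ht : ∃ x y, F x y = true
  · refine ⟨true, fun x y => ?_⟩
    by_contra hf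
    exact h ⟨ht, x, y, by simpa using hf⟩
  · refine ⟨false, fun x y => ?_⟩
    by_contra hf
    exact ht ⟨x, y, by simpa using hf⟩

/-- A bit function that does not have both values is constant. -/
theorem In2_const1 {X : Type} {a : X → Bool} (h : ¬ ((∃ x, a x = true) ∧ ∃ x, a x = false)) :
    ∃ c, ∀ x, a x = c := by
  by_cases ht : ∃ x, a x = true
  · refine ⟨true, fun x => ?_⟩
    by_contra hf
    exact h ⟨ht, x, by simpa using hf⟩
  · refine ⟨false, fun x => ?_⟩
    by_contra hf
    exact ht ⟨x, by simpa using hf⟩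

theorem In2_xorB {X Y Y1 : Type} [Finite Y1] [Nonempty Y1] {F : X → Y → Bool} {κ : ℕ} {δ : ℝ} (b : Y1 → Bool)
    (h : PP κ δ F) : PP κ δ (fun (x : X) (y : Y1 × Y) => Bool.xor (b y.1) (F x y.2)) := by
  by_cases hb : (∃ y, b y = true) ∧ ∃ y, b y = false
  · exact PP.xorB b hb.1 hb.2 h
  · obtain ⟨c, hc⟩ := In2_const1 hb
    have h1 : PP κ δ (fun (x : X) (y : Y1 × Y) => F (id x) y.2) :=
      PP.relabel h id Prod.snd Function.surjective_id Prod.snd_surjective
    cases c with
    | false =>
      have e : (fun (x : X) (y : Y1 × Y) => Bool.xor (b y.1) (F x y.2)) =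
          fun (x : X) (y : Y1 × Y) => F (id x) y.2 := by
        funext x y
        simp [hc]
      rw [e]
      exact h1
    | true =>
      have e : (fun (x : X) (y : Y1 × Y) => Bool.xor (b y.1) (F x y.2)) =
          fun (x : X) (y : Y1 × Y) => !((fun (x : X) (y : Y1 × Y) => F (id x) y.2) x y) := by
        funext x y
        simp [hc]
      rw [e]
      exact h1.not

theorem In2_xorA {X Y X1 : Type} [Finite X1] [Nonempty X1] {F : X → Y → Bool} {κ : ℕ} {δ : ℝ} (a : X1 → Bool)
    (h : PP κ δ F) : PP κ δ (fun (x : X1 × X) (y : Y) => Bool.xor (a x.1) (F x.2 y)) := by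
  by_cases ha : (∃ x, a x = true) ∧ ∃ x, a x = false
  · exact PP.xorA a ha.1 ha.2 h
  · obtain ⟨c, hc⟩ := In2_const1 ha
    have h1 : PP κ δ (fun (x : X1 × X) (y : Y) => F x.2 (id y)) :=
      PP.relabel h Prod.snd id Prod.snd_surjective Function.surjective_id
    cases c with
    | false =>
      have e : (fun (x : X1 × X) (y : Y) => Bool.xor (a x.1) (F x.2 y)) =
          fun (x : X1 × X) (y : Y) => F x.2 (id y) := by
        funext x y
        simp [hc]
      rw [e]
      exact h1
    | true =>
      have e : (fun (x : X1 × X) (y : Y) => Bool.xor (a x.1) (F x.2 y)) =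
          fun (x : X1 × X) (y : Y) => !((fun (x : X1 × X) (y : Y) => F x.2 (id y)) x y) := by
        funext x y
        simp [hc]
      rw [e]
      exact h1.not

/-- Prepend a matrix of xor type.

Proof. Let `F1 x y = a x ⊕ b y`. If `b` has both values: `PP.xorB` gives `PP` for `F' x (y₁, y) = b y₁ ⊕ F2 x y`; if `b` is
constant `PP.relabel` with the projection (and `PP.not` if the constant is `true`) gives it (`Y1` is nonempty). Then in the
same way `PP.xorA` or `PP.relabel` (and `PP.not`) gives `PP` for `(x₁, x) (y₁, y) ↦ a x₁ ⊕ F' x (y₁, y)`. -/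
theorem PP.xorType {X1 Y1 X Y : Type} [Finite X1] [Finite Y1] [Nonempty X1] [Nonempty Y1] {F2 : X → Y → Bool} {κ : ℕ}
    {δ : ℝ} (a : X1 → Bool) (b : Y1 → Bool) (h2 : PP κ δ F2) :
    PP κ δ (fun (x : X1 × X) (y : Y1 × Y) => Bool.xor (Bool.xor (a x.1) (b y.1)) (F2 x.2 y.2)) := by
  have h3 := In2_xorA a (In2_xorB b h2)
  have e : (fun (x : X1 × X) (y : Y1 × Y) => Bool.xor (Bool.xor (a x.1) (b y.1)) (F2 x.2 y.2)) =
      fun (x : X1 × X) (y : Y1 × Y) => Bool.xor (a x.1)
        ((fun (x : X) (y : Y1 × Y) => Bool.xor (b y.1) (F2 x y.2)) x.2 y) := by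
    funext x y
    exact Bool.xor_assoc _ _ _
  rw [e]
  exact h3

/-- The induction step for an exclusive or.

Proof. If `F1` is constant `c`: `F2` is not constant and `F = c ⊕ F2` is, after a relabelling by the projections, `F2` or its
complement; `QuantumComputes F2 q` by `sub_right` (for `c = false`) or `quantum_not` and `quantum_sub` (for `c = true`);
`ih2`, `PP.relabel`, `PP.not`. Similarly if `F2` is constant. If both are not constant they have entries `false`, so
`sub_left`, `sub_right` (`op = xor`) and `quantum_sub` give `QuantumComputes` for both, and `ih1`, `ih2` give `PP`. If `F1` is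
of the form `a x ⊕ b y`: `PP.xorType`; if `F2` is: the same with exchanged roles and `PP.relabel` with `Prod.swap`
(`Bool.xor_comm`). Otherwise `PP.cost` for both and `PP.joinXor`. -/
theorem PP.xor_step {X Y X' Y' : Type} [Finite X] [Finite Y] [Finite X'] [Finite Y'] [Nonempty X] [Nonempty Y]
    [Nonempty X'] [Nonempty Y'] {F1 : X → Y → Bool} {F2 : X' → Y' → Bool} {κ q : ℕ} {δ : ℝ} (hκ : 2 ≤ κ) (hδ : 0 ≤ δ)
    (hB : ∀ (X Y : Type) (u : X → Y → Bool), Blocky u → RandE u κ δ)
    (hE : ∀ (X Y : Type) (G : X → Y → Bool), Ev G → QuantumComputes G q → RandE G κ δ)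
    (ih1 : NC F1 → QuantumComputes F1 q → PP κ δ F1) (ih2 : NC F2 → QuantumComputes F2 q → PP κ δ F2)
    (hn : NC (fun (x : X × X') (y : Y × Y') => Bool.xor (F1 x.1 y.1) (F2 x.2 y.2)))
    (hq : QuantumComputes (fun (x : X × X') (y : Y × Y') => Bool.xor (F1 x.1 y.1) (F2 x.2 y.2)) q) :
    PP κ δ (fun (x : X × X') (y : Y × Y') => Bool.xor (F1 x.1 y.1) (F2 x.2 y.2)) := by
  by_cases hn1 : NC F1
  · by_cases hn2 : NC F2
    · obtain ⟨x1, y1, h1f⟩ := hn1.2
      obtain ⟨x2, y2, h2f⟩ := hn2.2
      have hq1 : QuantumComputes F1 q :=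
        quantum_sub hq (sub_left F1 F2 Bool.xor x2 y2 (fun b => by simp [h2f]))
      have hq2 : QuantumComputes F2 q :=
        quantum_sub hq (sub_right F1 F2 Bool.xor x1 y1 (fun b => by simp [h1f]))
      have hp1 := ih1 hn1 hq1
      have hp2 := ih2 hn2 hq2
      by_cases hb1 : ∃ (a : X → Bool) (b : Y → Bool), ∀ x y, F1 x y = Bool.xor (a x) (b y)
      · obtain ⟨a, b, hab⟩ := hb1
        have h3 := PP.xorType a b hp2
        have e : (fun (x : X × X') (y : Y × Y') => Bool.xor (F1 x.1 y.1) (F2 x.2 y.2)) =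
            fun (x : X × X') (y : Y × Y') => Bool.xor (Bool.xor (a x.1) (b y.1)) (F2 x.2 y.2) := by
          funext x y
          rw [hab]
        rw [e]
        exact h3
      · by_cases hb2 : ∃ (a : X' → Bool) (b : Y' → Bool), ∀ x y, F2 x y = Bool.xor (a x) (b y)
        · obtain ⟨a, b, hab⟩ := hb2
          have h3 := PP.relabel (PP.xorType a b hp1) (Prod.swap : X × X' → X' × X)
            (Prod.swap : Y × Y' → Y' × Y) Prod.swap_surjective Prod.swap_surjective
          have e : (fun (x : X × X') (y : Y × Y') => Bool.xor (F1 x.1 y.1) (F2 x.2 y.2)) =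
              fun (x : X × X') (y : Y × Y') => (fun (x : X' × X) (y : Y' × Y) =>
                Bool.xor (Bool.xor (a x.1) (b y.1)) (F1 x.2 y.2)) (Prod.swap x) (Prod.swap y) := by
            funext x y
            simp only [Prod.fst_swap, Prod.snd_swap]
            rw [hab]
            exact Bool.xor_comm _ _
          rw [e]
          exact h3
        · exact PP.joinXor (PP.cost hκ hδ hB hE hp1 hq1) (PP.cost hκ hδ hB hE hp2 hq2) hn1 hn2 hb1 hb2
    · obtain ⟨c, hc⟩ := In2_const hn2
      obtain ⟨⟨x3, y3, h3⟩, x4, y4, h4⟩ := hn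
      have x0 : X' := x3.2
      have y0 : Y' := y3.2
      cases c with
      | false =>
        have hq1 : QuantumComputes F1 q :=
          quantum_sub hq (sub_left F1 F2 Bool.xor x0 y0 (fun b => by simp [hc]))
        have hp1 := ih1 hn1 hq1
        have h5 := PP.relabel hp1 (Prod.fst : X × X' → X) (Prod.fst : Y × Y' → Y)
          Prod.fst_surjective Prod.fst_surjective
        have e : (fun (x : X × X') (y : Y × Y') => Bool.xor (F1 x.1 y.1) (F2 x.2 y.2)) =
            fun (x : X × X') (y : Y × Y') => F1 x.1 y.1 := by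
          funext x y
          simp [hc]
        rw [e]
        exact h5
      | true =>
        have hq1 : QuantumComputes F1 q :=
          quantum_sub (quantum_not hq)
            (sub_left F1 F2 (fun a b => !(Bool.xor a b)) x0 y0 (fun b => by simp [hc]))
        have hp1 := ih1 hn1 hq1
        have h5 := (PP.relabel hp1 (Prod.fst : X × X' → X) (Prod.fst : Y × Y' → Y)
          Prod.fst_surjective Prod.fst_surjective).not
        have e : (fun (x : X × X') (y : Y × Y') => Bool.xor (F1 x.1 y.1) (F2 x.2 y.2)) =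
            fun (x : X × X') (y : Y × Y') => !(F1 x.1 y.1) := by
          funext x y
          simp [hc]
        rw [e]
        exact h5
  · obtain ⟨c, hc⟩ := In2_const hn1
    obtain ⟨⟨x3, y3, h3⟩, x4, y4, h4⟩ := hn
    have hn2 : NC F2 := by
      simp only [hc] at h3 h4
      cases c with
      | false => exact ⟨⟨x3.2, y3.2, by simpa using h3⟩, x4.2, y4.2, by simpa using h4⟩
      | true => exact ⟨⟨x4.2, y4.2, by simpa using h4⟩, x3.2, y3.2, by simpa using h3⟩
    have x0 : X := x3.1
    have y0 : Y := y3.1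
    cases c with
    | false =>
      have hq2 : QuantumComputes F2 q :=
        quantum_sub hq (sub_right F1 F2 Bool.xor x0 y0 (fun b => by simp [hc]))
      have hp2 := ih2 hn2 hq2
      have h5 := PP.relabel hp2 (Prod.snd : X × X' → X') (Prod.snd : Y × Y' → Y')
        Prod.snd_surjective Prod.snd_surjective
      have e : (fun (x : X × X') (y : Y × Y') => Bool.xor (F1 x.1 y.1) (F2 x.2 y.2)) =
          fun (x : X × X') (y : Y × Y') => F2 x.2 y.2 := by
        funext x y
        simp [hc]
      rw [e]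
      exact h5
    | true =>
      have hq2 : QuantumComputes F2 q :=
        quantum_sub (quantum_not hq)
          (sub_right F1 F2 (fun a b => !(Bool.xor a b)) x0 y0 (fun b => by simp [hc]))
      have hp2 := ih2 hn2 hq2
      have h5 := (PP.relabel hp2 (Prod.snd : X × X' → X') (Prod.snd : Y × Y' → Y')
        Prod.snd_surjective Prod.snd_surjective).not
      have e : (fun (x : X × X') (y : Y × Y') => Bool.xor (F1 x.1 y.1) (F2 x.2 y.2)) =
          fun (x : X × X') (y : Y × Y') => !(F2 x.2 y.2) := by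
        funext x y
        simp [hc]
      rw [e]
      exact h5

end Pool.Agent.H.MP_dd1c2e_lc.RO
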