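import Pool.Agent.H.MP_dd1c2e_lc.ro.In1
import Pool.Agent.H.MP_dd1c2e_lc.ro.In2

/-!
# The induction over read-once compositions
-/

namespace Pool.Agent.H.MP_dd1c2e_lc.RO

open Finset Pool.Agent.H.MP_dd1c2e_lc.Alt

private theorem nc_not {X Y : Type} {F : X → Y → Bool} (h : NC (fun x y => !(F x y))) : NC F := by
  obtain ⟨⟨x, y, h1⟩, x', y', h2⟩ := h
  refine ⟨⟨x', y', ?_⟩, x, y, ?_⟩
  · have h3 : (!(F x' y')) = false := h2
    cases hF : F x' y'
    · rw [hF] at h3
      exact h3.symm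
    · rfl
  · have h3 : (!(F x y)) = true := h1
    cases hF : F x y
    · rfl
    · rw [hF] at h3
      exact h3.symm

private theorem qc_not {X Y : Type} {F : X → Y → Bool} {q : ℕ}
    (h : QuantumComputes (fun x y => !(F x y)) q) : QuantumComputes F q := by
  have h1 := quantum_not h
  have e1 : (fun x y => !(!(F x y))) = F := by
    funext x y
    exact Bool.not_not _
  rw [e1] at h1
  exact h1

private theorem step_not {X Y : Type} {F : X → Y → Bool} {κ q : ℕ} {δ : ℝ}
    (ih : NC F → QuantumComputes F q → PP κ δ F) (hn : NC (fun x y => !(F x y)))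
    (hq : QuantumComputes (fun x y => !(F x y)) q) : PP κ δ (fun x y => !(F x y)) :=
  PP.not (ih (nc_not hn) (qc_not hq))

/-- Proof. Induction over `ReadOnce` of the statement: `Finite X`, `Finite Y`, and if `X`, `Y` are nonempty, `F` is not
constant and `QuantumComputes F q`, then `PP κ δ F` (revert everything before `induction`). Leaf: `PP.leaf` with `hL`.
`not`: `!F` not constant and `QuantumComputes (!F) q` give the same for `F` (`quantum_not`, `Bool.not_not`), then
`PP.not`. `and`: `PP.and_step`; the factors of a nonempty product are nonempty. `xor`: `PP.xor_step`.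
`or`: `F ∨ F' = !(!F ∧ !F')`: `PP.and_step` for `!F`, `!F'` (its hypotheses `ih1`, `ih2` follow from the induction
hypotheses by `quantum_not` and `PP.not`), then `PP.not`. -/
theorem ro_pp {κ q : ℕ} {δ : ℝ} (hκ : 2 ≤ κ) (hδ : 0 ≤ δ)
    (hB : ∀ (X Y : Type) (u : X → Y → Bool), Blocky u → RandE u κ δ)
    (hE : ∀ (X Y : Type) (G : X → Y → Bool), Ev G → QuantumComputes G q → RandE G κ δ)
    (𝒢 : (X Y : Type) → (X → Y → Bool) → Prop) (hfin : ∀ (X Y : Type) (g : X → Y → Bool), 𝒢 X Y g → Finite X ∧ Finite Y)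
    (hL : ∀ (X Y : Type) (g : X → Y → Bool), 𝒢 X Y g → QuantumComputes g q → RandE g κ δ)
    (X Y : Type) (F : X → Y → Bool) (h : ReadOnce 𝒢 X Y F) :
    (Finite X ∧ Finite Y) ∧ (Nonempty X → Nonempty Y → NC F → QuantumComputes F q → PP κ δ F) := by
  induction h with
  | leaf X Y g hg =>
    exact ⟨hfin X Y g hg, fun _ _ _ hq => PP.leaf (hL X Y g hg hq)⟩
  | not X Y F _ ih =>
    exact ⟨ih.1, fun hX hY hn hq => step_not (ih.2 hX hY) hn hq⟩
  | and X Y X' Y' F F' _ _ ih ih' =>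
    obtain ⟨⟨_, _⟩, p1⟩ := ih
    obtain ⟨⟨_, _⟩, p2⟩ := ih'
    refine ⟨⟨inferInstance, inferInstance⟩, fun hX hY hn hq => ?_⟩
    have hX1 : Nonempty X := hX.map Prod.fst
    have hX2 : Nonempty X' := hX.map Prod.snd
    have hY1 : Nonempty Y := hY.map Prod.fst
    have hY2 : Nonempty Y' := hY.map Prod.snd
    exact PP.and_step hκ hδ hB hE (p1 hX1 hY1) (p2 hX2 hY2) hn hq
  | or X Y X' Y' F F' _ _ ih ih' =>
    obtain ⟨⟨_, _⟩, p1⟩ := ih
    obtain ⟨⟨_, _⟩, p2⟩ := ih'
    refine ⟨⟨inferInstance, inferInstance⟩, fun hX hY hn hq => ?_⟩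
    have hX1 : Nonempty X := hX.map Prod.fst
    have hX2 : Nonempty X' := hX.map Prod.snd
    have hY1 : Nonempty Y := hY.map Prod.fst
    have hY2 : Nonempty Y' := hY.map Prod.snd
    have e1 : (fun (x : X × X') (y : Y × Y') => F x.1 y.1 || F' x.2 y.2) =
        fun (x : X × X') (y : Y × Y') =>
          !((fun (x : X) (y : Y) => !(F x y)) x.1 y.1 &&
            (fun (x : X') (y : Y') => !(F' x y)) x.2 y.2) := by
      funext x y
      show (F x.1 y.1 || F' x.2 y.2) = !(!(F x.1 y.1) && !(F' x.2 y.2))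
      cases F x.1 y.1 <;> cases F' x.2 y.2 <;> rfl
    rw [e1] at hn hq ⊢
    exact PP.not (PP.and_step hκ hδ hB hE (fun h1 h2 => step_not (p1 hX1 hY1) h1 h2)
      (fun h1 h2 => step_not (p2 hX2 hY2) h1 h2) (nc_not hn) (qc_not hq))
  | xor X Y X' Y' F F' _ _ ih ih' =>
    obtain ⟨⟨_, _⟩, p1⟩ := ih
    obtain ⟨⟨_, _⟩, p2⟩ := ih'
    refine ⟨⟨inferInstance, inferInstance⟩, fun hX hY hn hq => ?_⟩
    have hX1 : Nonempty X := hX.map Prod.fst
    have hX2 : Nonempty X' := hX.map Prod.snd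
    have hY1 : Nonempty Y := hY.map Prod.fst
    have hY2 : Nonempty Y' := hY.map Prod.snd
    exact PP.xor_step hκ hδ hB hE (p1 hX1 hY1) (p2 hX2 hY2) hn hq

end Pool.Agent.H.MP_dd1c2e_lc.RO
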