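import Mathlib

/-!
# Interpolation weights for the nodes `0, 1, 9, 36, 81, ..., 9 m²`
-/

namespace Pool.Agent.H.MP_dd1c2e_lc.RO

open Finset Polynomial

/-- The nodes `0, 1` and `9 i²`, `1 ≤ i ≤ m`. -/
def nd (m : ℕ) : Finset ℕ := {0, 1} ∪ (Finset.Icc 1 m).image (fun i => 9 * i ^ 2)

/-- The weights `∏_{r ≠ s} 1 / (s - r)`, multiplied by the sign that makes the weight of `0` positive. -/
noncomputable def om (m s : ℕ) : ℝ :=
  (-1) ^ (m + 1) * ∏ r ∈ (nd m).erase s, ((s : ℝ) - (r : ℝ))⁻¹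

/-- `nd m` has `m + 2` elements (`0`, `1`, `9 i²` are different, `i ↦ 9 i²` is injective). -/
theorem card_nd (m : ℕ) : (nd m).card = m + 2 := by
  unfold nd
  rw [Finset.card_union_of_disjoint, Finset.card_image_of_injective]
  · rw [Nat.card_Icc, Finset.card_pair (by norm_num)]
    omega
  · intro a b hab
    have h1 : a ^ 2 = b ^ 2 := by
      have : 9 * a ^ 2 = 9 * b ^ 2 := hab
      omega
    exact Nat.pow_left_injective (n := 2) (by norm_num) h1
  · rw [Finset.disjoint_left]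
    intro a ha hb
    obtain ⟨i, hi, rfl⟩ := Finset.mem_image.1 hb
    have hi1 := (Finset.mem_Icc.1 hi).1
    have h1 : 1 ≤ i ^ 2 := Nat.one_le_pow _ _ hi1
    simp only [Finset.mem_insert, Finset.mem_singleton] at ha
    omega

/-- The weights annihilate polynomials of degree at most `m`.

Proof. For a set of `n + 1` different nodes (here `n = m + 1`) and a polynomial `p` of degree less than `n`,
`∑_{s} p(s) ∏_{r ≠ s} 1 / (s - r) = 0`: by Lagrange interpolation `p = ∑_s p(s) ∏_{r ≠ s} (X - r) / (s - r)`, compare the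
coefficients of `X ^ n` (each `∏_{r ≠ s} (X - r)` is monic of degree `n`). Mathlib: `Lagrange.interpolate`,
`Lagrange.eq_interpolate_of_eval_eq`, `Lagrange.basis`, perhaps `Lagrange.sum_nodalWeight_mul_inv_sub_ne_zero` or
`Lagrange.coeff_eq_sum`. -/
theorem om_sum (m : ℕ) (p : ℝ[X]) (hp : p.natDegree ≤ m) : ∑ s ∈ nd m, om m s * p.eval (s : ℝ) = 0 := by
  have hvs : Set.InjOn (fun s : ℕ => (s : ℝ)) (nd m : Set ℕ) :=
    fun a _ b _ hab => Nat.cast_injective hab
  have hdeg : p.degree < ((nd m).card : WithBot ℕ) := by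
    rw [card_nd]
    refine lt_of_le_of_lt Polynomial.degree_le_natDegree ?_
    exact_mod_cast (by omega : p.natDegree < m + 2)
  have h := Lagrange.coeff_eq_sum hvs hdeg
  have h0 : p.coeff ((nd m).card - 1) = 0 := by
    apply Polynomial.coeff_eq_zero_of_natDegree_lt
    rw [card_nd]
    omega
  rw [h0] at h
  have h2 : ∑ s ∈ nd m, om m s * p.eval (s : ℝ) =
      (-1) ^ (m + 1) * ∑ i ∈ nd m, p.eval (i : ℝ) / ∏ j ∈ (nd m).erase i, ((i : ℝ) - (j : ℝ)) := by
    rw [Finset.mul_sum]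
    refine Finset.sum_congr rfl fun s _ => ?_
    unfold om
    rw [Finset.prod_inv_distrib, div_eq_mul_inv]
    ring
  rw [h2, ← h, mul_zero]

end Pool.Agent.H.MP_dd1c2e_lc.RO
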