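import Pool.Agent.H.MP_dd1c2e_lc.ro.Om1

/-!
# Size and sign of the weights
-/

namespace Pool.Agent.H.MP_dd1c2e_lc.RO

open Finset

private theorem sq_inj {a b : ℕ} (h : 9 * a ^ 2 = 9 * b ^ 2) : a = b := by
  have h1 : a ^ 2 = b ^ 2 := by omega
  exact Nat.pow_left_injective (n := 2) (by norm_num) h1

private theorem nd_erase_zero (m : ℕ) :
    (nd m).erase 0 = insert 1 ((Finset.Icc 1 m).image (fun i => 9 * i ^ 2)) := by
  unfold nd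
  ext a
  simp only [Finset.mem_erase, Finset.mem_union, Finset.mem_insert, Finset.mem_singleton,
    Finset.mem_image, Finset.mem_Icc]
  constructor
  · rintro ⟨h0, (h | h) | h⟩
    · exact absurd h h0
    · exact Or.inl h
    · exact Or.inr h
  · rintro (h | ⟨i, hi, h⟩)
    · exact ⟨by omega, Or.inl (Or.inr h)⟩
    · refine ⟨?_, Or.inr ⟨i, hi, h⟩⟩
      have h1 : 1 ≤ i ^ 2 := Nat.one_le_pow _ _ hi.1
      omega

private theorem nd_erase_one (m : ℕ) :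
    (nd m).erase 1 = insert 0 ((Finset.Icc 1 m).image (fun i => 9 * i ^ 2)) := by
  unfold nd
  ext a
  simp only [Finset.mem_erase, Finset.mem_union, Finset.mem_insert, Finset.mem_singleton,
    Finset.mem_image, Finset.mem_Icc]
  constructor
  · rintro ⟨h0, (h | h) | h⟩
    · exact Or.inl h
    · exact absurd h h0
    · exact Or.inr h
  · rintro (h | ⟨i, hi, h⟩)
    · exact ⟨by omega, Or.inl (Or.inl h)⟩
    · refine ⟨?_, Or.inr ⟨i, hi, h⟩⟩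
      omega

private theorem nd_erase_sq (m i : ℕ) (hi : 1 ≤ i) :
    (nd m).erase (9 * i ^ 2) =
      insert 0 (insert 1 (((Finset.Icc 1 m).erase i).image (fun i => 9 * i ^ 2))) := by
  have hi2 : 1 ≤ i ^ 2 := Nat.one_le_pow _ _ hi
  unfold nd
  ext a
  simp only [Finset.mem_erase, Finset.mem_union, Finset.mem_insert, Finset.mem_singleton,
    Finset.mem_image, Finset.mem_Icc]
  constructor
  · rintro ⟨h0, (h | h) | ⟨j, hj, h⟩⟩
    · exact Or.inl h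
    · exact Or.inr (Or.inl h)
    · refine Or.inr (Or.inr ⟨j, ⟨?_, hj⟩, h⟩)
      rintro rfl
      exact h0 h.symm
  · rintro (h | h | ⟨j, ⟨hne, hj⟩, h⟩)
    · exact ⟨by omega, Or.inl (Or.inl h)⟩
    · exact ⟨by omega, Or.inl (Or.inr h)⟩
    · refine ⟨?_, Or.inr ⟨j, hj, h⟩⟩
      rintro rfl
      exact hne (sq_inj h)

private theorem one_notMem (s : Finset ℕ) : 1 ∉ s.image (fun i => 9 * i ^ 2) := by
  rw [Finset.mem_image]
  rintro ⟨i, _, h⟩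
  omega

private theorem zero_notMem (s : Finset ℕ) (hs : ∀ i ∈ s, 1 ≤ i) :
    0 ∉ s.image (fun i => 9 * i ^ 2) := by
  rw [Finset.mem_image]
  rintro ⟨i, hi, h⟩
  have hi2 : 1 ≤ i ^ 2 := Nat.one_le_pow _ _ (hs i hi)
  omega

private theorem prod_img (s : Finset ℕ) (f : ℕ → ℝ) :
    ∏ r ∈ s.image (fun i => 9 * i ^ 2), f r = ∏ i ∈ s, f (9 * i ^ 2) :=
  Finset.prod_image fun _ _ _ _ h => sq_inj h

/-- `(nd m).erase 0 = {1} ∪ {9 i²}` has `m + 1` elements, and `∏ (0 - r)⁻¹ = (-1)^(m+1) ∏ r⁻¹`. -/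
theorem om_zero (m : ℕ) : om m 0 = ∏ i ∈ Finset.Icc 1 m, ((9 : ℝ) * (i : ℝ) ^ 2)⁻¹ := by
  unfold om
  rw [nd_erase_zero, Finset.prod_insert (one_notMem _), prod_img]
  have h1 : ∀ i ∈ Finset.Icc 1 m, (((0 : ℕ) : ℝ) - ((9 * i ^ 2 : ℕ) : ℝ))⁻¹ =
      (-1) * ((9 : ℝ) * (i : ℝ) ^ 2)⁻¹ := by
    intro i _
    push_cast
    rw [zero_sub, inv_neg, neg_one_mul]
  rw [Finset.prod_congr rfl h1, Finset.prod_mul_distrib, Finset.prod_const, Nat.card_Icc]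
  have h2 : ((((0 : ℕ) : ℝ) - ((1 : ℕ) : ℝ)))⁻¹ = -1 := by norm_num
  rw [h2, Nat.add_sub_cancel, pow_succ]
  have h3 : ((-1 : ℝ)) ^ m * (-1) ^ m = 1 := by
    rw [← mul_pow]
    norm_num
  calc (-1 : ℝ) ^ m * -1 * (-1 * ((-1) ^ m * ∏ i ∈ Finset.Icc 1 m, ((9 : ℝ) * (i : ℝ) ^ 2)⁻¹))
      = ((-1 : ℝ) ^ m * (-1) ^ m) * ∏ i ∈ Finset.Icc 1 m, ((9 : ℝ) * (i : ℝ) ^ 2)⁻¹ := by ring
    _ = ∏ i ∈ Finset.Icc 1 m, ((9 : ℝ) * (i : ℝ) ^ 2)⁻¹ := by rw [h3, one_mul]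

theorem om_zero_pos (m : ℕ) : 0 < om m 0 := by
  rw [om_zero]
  apply Finset.prod_pos
  intro i hi
  have h1 : (1 : ℝ) ≤ (i : ℝ) := by exact_mod_cast (Finset.mem_Icc.1 hi).1
  positivity

/-- `∏_{r ≠ 1} (1 - r)⁻¹ = 1 * ∏ (1 - 9 i²)⁻¹` has the sign `(-1)^m`, so `om m 1 < 0`. -/
theorem om_one_neg (m : ℕ) : om m 1 < 0 := by
  unfold om
  rw [nd_erase_one, Finset.prod_insert (zero_notMem _ fun i hi => (Finset.mem_Icc.1 hi).1), prod_img]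
  have h1 : ∀ i ∈ Finset.Icc 1 m, (((1 : ℕ) : ℝ) - ((9 * i ^ 2 : ℕ) : ℝ))⁻¹ =
      (-1) * ((9 : ℝ) * (i : ℝ) ^ 2 - 1)⁻¹ := by
    intro i _
    push_cast
    rw [neg_one_mul, ← inv_neg, neg_sub]
  rw [Finset.prod_congr rfl h1, Finset.prod_mul_distrib, Finset.prod_const, Nat.card_Icc]
  have h2 : ((((1 : ℕ) : ℝ) - ((0 : ℕ) : ℝ)))⁻¹ = 1 := by norm_num
  rw [h2, Nat.add_sub_cancel, pow_succ]
  have h3 : ((-1 : ℝ)) ^ m * (-1) ^ m = 1 := by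
    rw [← mul_pow]
    norm_num
  have h4 : 0 < ∏ i ∈ Finset.Icc 1 m, ((9 : ℝ) * (i : ℝ) ^ 2 - 1)⁻¹ := by
    apply Finset.prod_pos
    intro i hi
    have h1 : (1 : ℝ) ≤ (i : ℝ) := by exact_mod_cast (Finset.mem_Icc.1 hi).1
    have h5 : 0 < (9 : ℝ) * (i : ℝ) ^ 2 - 1 := by nlinarith
    positivity
  calc (-1 : ℝ) ^ m * -1 * (1 * ((-1) ^ m * ∏ i ∈ Finset.Icc 1 m, ((9 : ℝ) * (i : ℝ) ^ 2 - 1)⁻¹))
      = -(((-1 : ℝ) ^ m * (-1) ^ m) * ∏ i ∈ Finset.Icc 1 m, ((9 : ℝ) * (i : ℝ) ^ 2 - 1)⁻¹) := by ring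
    _ = -∏ i ∈ Finset.Icc 1 m, ((9 : ℝ) * (i : ℝ) ^ 2 - 1)⁻¹ := by rw [h3, one_mul]
    _ < 0 := by linarith

private theorem prod_Icc_range (f : ℕ → ℝ) (k : ℕ) :
    ∏ j ∈ Finset.Icc 1 k, f j = ∏ j ∈ Finset.range k, f (j + 1) := by
  induction k with
  | zero => simp
  | succ k ih => rw [Finset.prod_Icc_succ_top (by omega), ih, Finset.prod_range_succ]

private theorem base_aux (k : ℕ) :
    (∏ j ∈ Finset.Icc 1 k, (((k : ℝ) + 1) ^ 2 - (j : ℝ) ^ 2)) * ((k + 1).factorial : ℝ) =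
      (k.factorial : ℝ) * ((2 * k + 1).factorial : ℝ) := by
  rw [prod_Icc_range]
  have h1 : ∀ j ∈ Finset.range k, (((k : ℝ) + 1) ^ 2 - ((j + 1 : ℕ) : ℝ) ^ 2) =
      ((k - j : ℕ) : ℝ) * ((k + 1 + 1 + j : ℕ) : ℝ) := by
    intro j hj
    rw [Nat.cast_sub (Finset.mem_range.1 hj).le]
    push_cast
    ring
  rw [Finset.prod_congr rfl h1, Finset.prod_mul_distrib, ← Nat.cast_prod, ← Nat.cast_prod,
    ← Nat.descFactorial_eq_prod_range, ← Nat.ascFactorial_eq_prod_range, Nat.descFactorial_self]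
  have h2 := Nat.factorial_mul_ascFactorial (k + 1) k
  have h3 : k + 1 + k = 2 * k + 1 := by ring
  rw [h3] at h2
  have h4 : ((k + 1).factorial : ℝ) * ((k + 1 + 1).ascFactorial k : ℝ) =
      ((2 * k + 1).factorial : ℝ) := by exact_mod_cast h2
  rw [← h4]
  ring

private theorem sq_prod (k : ℕ) :
    ∏ j ∈ Finset.Icc 1 k, (j : ℝ) ^ 2 = (k.factorial : ℝ) ^ 2 := by
  induction k with
  | zero => simp
  | succ k ih =>
    rw [Finset.prod_Icc_succ_top (by omega), ih, Nat.factorial_succ]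
    push_cast
    ring

private theorem erase_self_Icc (k : ℕ) : (Finset.Icc 1 (k + 1)).erase (k + 1) = Finset.Icc 1 k := by
  ext a
  simp only [Finset.mem_erase, Finset.mem_Icc]
  omega

private theorem erase_succ_Icc (i m : ℕ) (h : i ≤ m) :
    (Finset.Icc 1 (m + 1)).erase i = insert (m + 1) ((Finset.Icc 1 m).erase i) := by
  ext a
  simp only [Finset.mem_erase, Finset.mem_Icc, Finset.mem_insert]
  omega

private theorem main_aux (k d : ℕ) :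
    (∏ j ∈ (Finset.Icc 1 (k + 1 + d)).erase (k + 1), (j : ℝ) ^ 2) *
      ((d.factorial : ℝ) * ((2 * (k + 1) + d).factorial : ℝ)) =
    2 * ((k + 1 + d).factorial : ℝ) ^ 2 *
      ∏ j ∈ (Finset.Icc 1 (k + 1 + d)).erase (k + 1), |((k : ℝ) + 1) ^ 2 - (j : ℝ) ^ 2| := by
  induction d with
  | zero =>
    rw [Nat.add_zero, Nat.add_zero, erase_self_Icc, sq_prod]
    have h1 : ∏ j ∈ Finset.Icc 1 k, |((k : ℝ) + 1) ^ 2 - (j : ℝ) ^ 2| =
        ∏ j ∈ Finset.Icc 1 k, (((k : ℝ) + 1) ^ 2 - (j : ℝ) ^ 2) := by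
      refine Finset.prod_congr rfl fun j hj => abs_of_nonneg ?_
      have h2 : (j : ℝ) ≤ (k : ℝ) := by exact_mod_cast (Finset.mem_Icc.1 hj).2
      have h3 : (0 : ℝ) ≤ (j : ℝ) := Nat.cast_nonneg _
      nlinarith
    rw [h1]
    have h4 := base_aux k
    have h5 : (2 * (k + 1)).factorial = (2 * k + 2) * (2 * k + 1).factorial := by
      rw [show 2 * (k + 1) = (2 * k + 1) + 1 from by ring, Nat.factorial_succ]
    rw [Nat.add_zero (2 * (k + 1)), h5, Nat.factorial_zero]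
    have h6 : ((k + 1).factorial : ℝ) = ((k : ℝ) + 1) * (k.factorial : ℝ) := by
      rw [Nat.factorial_succ]
      push_cast
      ring
    push_cast
    rw [h6] at h4 ⊢
    have h7 : (k.factorial : ℝ) ≠ 0 := by positivity
    have h8 : (∏ j ∈ Finset.Icc 1 k, (((k : ℝ) + 1) ^ 2 - (j : ℝ) ^ 2)) * ((k : ℝ) + 1) =
        ((2 * k + 1).factorial : ℝ) := by
      apply mul_left_cancel₀ h7
      rw [← h4]
      ring
    rw [← h8]
    ring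
  | succ d ih =>
    rw [show k + 1 + (d + 1) = (k + 1 + d) + 1 from by ring, erase_succ_Icc _ _ (by omega)]
    have hn : k + 1 + d + 1 ∉ (Finset.Icc 1 (k + 1 + d)).erase (k + 1) := by
      simp only [Finset.mem_erase, Finset.mem_Icc]
      omega
    rw [Finset.prod_insert hn, Finset.prod_insert hn]
    have h1 : |((k : ℝ) + 1) ^ 2 - ((k + 1 + d + 1 : ℕ) : ℝ) ^ 2| =
        ((d : ℝ) + 1) * (2 * ((k : ℝ) + 1) + (d : ℝ) + 1) := by
      have hk : (0 : ℝ) ≤ (k : ℝ) := Nat.cast_nonneg _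
      have hd : (0 : ℝ) ≤ (d : ℝ) := Nat.cast_nonneg _
      push_cast
      rw [abs_of_nonpos (by nlinarith)]
      ring
    rw [h1, Nat.factorial_succ d, show 2 * (k + 1) + (d + 1) = (2 * (k + 1) + d) + 1 from by ring,
      Nat.factorial_succ (2 * (k + 1) + d), Nat.factorial_succ (k + 1 + d)]
    have h2 : ((k + 1 + d + 1 : ℕ) : ℝ) = (k : ℝ) + 1 + (d : ℝ) + 1 := by push_cast; ring
    rw [h2]
    push_cast
    calc ((k : ℝ) + 1 + d + 1) ^ 2 * (∏ j ∈ (Finset.Icc 1 (k + 1 + d)).erase (k + 1), (j : ℝ) ^ 2) *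
          (((d : ℝ) + 1) * (d.factorial : ℝ) *
            ((2 * ((k : ℝ) + 1) + d + 1) * ((2 * (k + 1) + d).factorial : ℝ)))
        = ((k : ℝ) + 1 + d + 1) ^ 2 * ((d : ℝ) + 1) * (2 * ((k : ℝ) + 1) + d + 1) *
          ((∏ j ∈ (Finset.Icc 1 (k + 1 + d)).erase (k + 1), (j : ℝ) ^ 2) *
            ((d.factorial : ℝ) * ((2 * (k + 1) + d).factorial : ℝ))) := by ring
      _ = _ := by
        rw [ih]
        ring

private theorem fact_le (d i : ℕ) :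
    (d + i).factorial * (d + i).factorial ≤ d.factorial * (d + 2 * i).factorial := by
  induction i with
  | zero => exact le_rfl
  | succ i ih =>
    rw [show d + (i + 1) = (d + i) + 1 from by ring, Nat.factorial_succ,
      show d + 2 * (i + 1) = (d + 2 * i) + 1 + 1 from by ring, Nat.factorial_succ,
      Nat.factorial_succ]
    calc (d + i + 1) * (d + i).factorial * ((d + i + 1) * (d + i).factorial)
        = ((d + i + 1) * (d + i + 1)) * ((d + i).factorial * (d + i).factorial) := by ring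
      _ ≤ ((d + 2 * i + 1 + 1) * (d + 2 * i + 1)) * (d.factorial * (d + 2 * i).factorial) := by
        refine Nat.mul_le_mul (Nat.mul_le_mul ?_ ?_) ih <;> omega
      _ = _ := by ring

private theorem prod_le (m i : ℕ) (hi : 1 ≤ i) (him : i ≤ m) :
    ∏ j ∈ (Finset.Icc 1 m).erase i, (j : ℝ) ^ 2 ≤
      2 * ∏ j ∈ (Finset.Icc 1 m).erase i, |(i : ℝ) ^ 2 - (j : ℝ) ^ 2| := by
  obtain ⟨k, rfl⟩ : ∃ k, i = k + 1 := ⟨i - 1, by omega⟩
  obtain ⟨d, rfl⟩ : ∃ d, m = k + 1 + d := ⟨m - (k + 1), by omega⟩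
  have h := main_aux k d
  have h1 : (((k + 1 + d).factorial : ℝ)) ^ 2 ≤
      (d.factorial : ℝ) * ((2 * (k + 1) + d).factorial : ℝ) := by
    have h2 := fact_le d (k + 1)
    rw [show d + (k + 1) = k + 1 + d from by ring, show d + 2 * (k + 1) = 2 * (k + 1) + d from by ring] at h2
    rw [pow_two]
    exact_mod_cast h2
  have hF : 0 < (d.factorial : ℝ) * ((2 * (k + 1) + d).factorial : ℝ) := by positivity
  have hB : 0 ≤ ∏ j ∈ (Finset.Icc 1 (k + 1 + d)).erase (k + 1), |((k : ℝ) + 1) ^ 2 - (j : ℝ) ^ 2| :=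
    Finset.prod_nonneg fun _ _ => abs_nonneg _
  have hc : ((k + 1 : ℕ) : ℝ) = (k : ℝ) + 1 := by push_cast; ring
  rw [hc]
  refine le_of_mul_le_mul_right ?_ hF
  rw [h]
  calc 2 * ((k + 1 + d).factorial : ℝ) ^ 2 *
        ∏ j ∈ (Finset.Icc 1 (k + 1 + d)).erase (k + 1), |((k : ℝ) + 1) ^ 2 - (j : ℝ) ^ 2|
      ≤ 2 * ((d.factorial : ℝ) * ((2 * (k + 1) + d).factorial : ℝ)) *
        ∏ j ∈ (Finset.Icc 1 (k + 1 + d)).erase (k + 1), |((k : ℝ) + 1) ^ 2 - (j : ℝ) ^ 2| := by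
        gcongr
    _ = _ := by ring

/-- The ratio of the weights: `|om m (9 i²)| ≤ 2 / (9 i² - 1) * om m 0` for `1 ≤ i ≤ m`.

Proof. `|om m (9 i²)| = (9 i²)⁻¹ (9 i² - 1)⁻¹ ∏_{j ≠ i} (9 |i² - j²|)⁻¹`, so
`|om m (9 i²)| / om m 0 = (9 i² - 1)⁻¹ ∏_{1 ≤ j ≤ m, j ≠ i} j² / |i² - j²|`. The last product is at most `2`:
`∏_{j ≠ i} |i - j| = (i - 1)! (m - i)!`, `∏_{j ≠ i} (i + j) = (m + i)! / (i! * 2 i)`, hence
`∏_{j ≠ i} |i² - j²| = (m - i)! (m + i)! / (2 i²)`, and `∏_{j ≠ i} j² = (m!)² / i²`; so the product is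
`2 (m!)² / ((m - i)! (m + i)!) ≤ 2` (`(m!)² ≤ (m - i)! (m + i)!` because `(m + i)! / m! = ∏_{l ≤ i} (m + l) ≥
∏_{l ≤ i} (m - i + l) = m! / (m - i)!`). -/
theorem om_ratio (m i : ℕ) (hi : 1 ≤ i) (him : i ≤ m) :
    |om m (9 * i ^ 2)| ≤ 2 / (9 * (i : ℝ) ^ 2 - 1) * om m 0 := by
  have hi1 : (1 : ℝ) ≤ (i : ℝ) := by exact_mod_cast hi
  have hpos : 0 < 9 * (i : ℝ) ^ 2 - 1 := by nlinarith
  have hpos9 : 0 < 9 * (i : ℝ) ^ 2 := by nlinarith
  have hmem : i ∈ Finset.Icc 1 m := Finset.mem_Icc.2 ⟨hi, him⟩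
  have hge : ∀ j ∈ (Finset.Icc 1 m).erase i, 1 ≤ j := fun j hj =>
    (Finset.mem_Icc.1 (Finset.mem_erase.1 hj).2).1
  -- the absolute value of the weight
  have h1 : |om m (9 * i ^ 2)| = (9 * (i : ℝ) ^ 2)⁻¹ * ((9 * (i : ℝ) ^ 2 - 1)⁻¹ *
      ∏ j ∈ (Finset.Icc 1 m).erase i, (9 * |(i : ℝ) ^ 2 - (j : ℝ) ^ 2|)⁻¹) := by
    unfold om
    rw [abs_mul, abs_pow, abs_neg, abs_one, one_pow, one_mul, nd_erase_sq m i hi,
      Finset.prod_insert, Finset.prod_insert (one_notMem _), prod_img, abs_mul, abs_mul,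
      Finset.abs_prod]
    · congr 1
      · push_cast
        rw [sub_zero, abs_inv, abs_of_pos hpos9]
      · congr 1
        · push_cast
          rw [abs_inv, abs_of_pos hpos]
        · refine Finset.prod_congr rfl fun j _ => ?_
          push_cast
          rw [abs_inv, ← mul_sub, abs_mul, abs_of_pos (by norm_num : (0 : ℝ) < 9)]
    · rw [Finset.mem_insert, not_or]
      exact ⟨by norm_num, zero_notMem _ hge⟩
  -- the weight of zero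
  have h2 : om m 0 = (9 * (i : ℝ) ^ 2)⁻¹ *
      ∏ j ∈ (Finset.Icc 1 m).erase i, (9 * (j : ℝ) ^ 2)⁻¹ := by
    rw [om_zero, ← Finset.mul_prod_erase _ _ hmem]
  have hA : 0 < ∏ j ∈ (Finset.Icc 1 m).erase i, (9 * (j : ℝ) ^ 2) := by
    refine Finset.prod_pos fun j hj => ?_
    have h3 : (1 : ℝ) ≤ (j : ℝ) := by exact_mod_cast hge j hj
    positivity
  have hB : 0 < ∏ j ∈ (Finset.Icc 1 m).erase i, (9 * |(i : ℝ) ^ 2 - (j : ℝ) ^ 2|) := by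
    refine Finset.prod_pos fun j hj => ?_
    have h3 : (j : ℝ) ≠ (i : ℝ) := by
      exact_mod_cast (Finset.mem_erase.1 hj).1
    have h4 : (i : ℝ) ^ 2 - (j : ℝ) ^ 2 ≠ 0 := by
      intro h
      have h5 : ((i : ℝ) - j) * ((i : ℝ) + j) = 0 := by
        rw [← h]
        ring
      rcases mul_eq_zero.1 h5 with h6 | h6
      · exact h3 (by linarith)
      · have h7 : (0 : ℝ) ≤ (j : ℝ) := Nat.cast_nonneg _
        linarith
    have h5 : 0 < |(i : ℝ) ^ 2 - (j : ℝ) ^ 2| := abs_pos.2 h4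
    positivity
  have h3 : ∏ j ∈ (Finset.Icc 1 m).erase i, (9 * (j : ℝ) ^ 2) ≤
      2 * ∏ j ∈ (Finset.Icc 1 m).erase i, (9 * |(i : ℝ) ^ 2 - (j : ℝ) ^ 2|) := by
    rw [Finset.prod_mul_distrib, Finset.prod_mul_distrib]
    have h4 := prod_le m i hi him
    have h5 : 0 ≤ ∏ _j ∈ (Finset.Icc 1 m).erase i, (9 : ℝ) :=
      Finset.prod_nonneg fun _ _ => by norm_num
    calc (∏ _j ∈ (Finset.Icc 1 m).erase i, (9 : ℝ)) * ∏ j ∈ (Finset.Icc 1 m).erase i, (j : ℝ) ^ 2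
        ≤ (∏ _j ∈ (Finset.Icc 1 m).erase i, (9 : ℝ)) *
          (2 * ∏ j ∈ (Finset.Icc 1 m).erase i, |(i : ℝ) ^ 2 - (j : ℝ) ^ 2|) :=
          mul_le_mul_of_nonneg_left h4 h5
      _ = _ := by ring
  have h4 : ∏ j ∈ (Finset.Icc 1 m).erase i, (9 * |(i : ℝ) ^ 2 - (j : ℝ) ^ 2|)⁻¹ ≤
      2 * ∏ j ∈ (Finset.Icc 1 m).erase i, (9 * (j : ℝ) ^ 2)⁻¹ := by
    rw [Finset.prod_inv_distrib, Finset.prod_inv_distrib, ← div_eq_mul_inv, inv_eq_one_div,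
      div_le_div_iff₀ hB hA, one_mul]
    exact h3
  rw [h1, h2]
  have h5 : 0 ≤ (9 * (i : ℝ) ^ 2)⁻¹ * (9 * (i : ℝ) ^ 2 - 1)⁻¹ := by positivity
  calc (9 * (i : ℝ) ^ 2)⁻¹ * ((9 * (i : ℝ) ^ 2 - 1)⁻¹ *
        ∏ j ∈ (Finset.Icc 1 m).erase i, (9 * |(i : ℝ) ^ 2 - (j : ℝ) ^ 2|)⁻¹)
      = ((9 * (i : ℝ) ^ 2)⁻¹ * (9 * (i : ℝ) ^ 2 - 1)⁻¹) *
        ∏ j ∈ (Finset.Icc 1 m).erase i, (9 * |(i : ℝ) ^ 2 - (j : ℝ) ^ 2|)⁻¹ := by ring
    _ ≤ ((9 * (i : ℝ) ^ 2)⁻¹ * (9 * (i : ℝ) ^ 2 - 1)⁻¹) *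
        (2 * ∏ j ∈ (Finset.Icc 1 m).erase i, (9 * (j : ℝ) ^ 2)⁻¹) :=
        mul_le_mul_of_nonneg_left h4 h5
    _ = _ := by
      rw [div_eq_mul_inv]
      ring

end Pool.Agent.H.MP_dd1c2e_lc.RO
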