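import Pool.Agent.H.MP_dd1c2e_lc.ro.Om2

/-!
# Sums of the weights
-/

namespace Pool.Agent.H.MP_dd1c2e_lc.RO

open Finset

theorem Om3_sq_sum (m : ℕ) : ∑ i ∈ Finset.Icc 1 (m + 1), (1 : ℝ) / (i : ℝ) ^ 2 ≤ 2 - 1 / ((m : ℝ) + 1) := by
  induction m with
  | zero => norm_num
  | succ m ih =>
    rw [Finset.sum_Icc_succ_top (by omega)]
    have h0 : (0 : ℝ) ≤ (m : ℝ) := Nat.cast_nonneg m
    have h1 : (1 : ℝ) / (((m + 1 + 1 : ℕ) : ℝ)) ^ 2 ≤ 1 / ((m : ℝ) + 1) - 1 / ((m : ℝ) + 2) := by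
      push_cast
      rw [div_sub_div _ _ (by positivity) (by positivity), div_le_div_iff₀ (by positivity) (by positivity)]
      nlinarith
    push_cast at h1 ih ⊢
    have h2 : (m : ℝ) + 1 + 1 = (m : ℝ) + 2 := by ring
    rw [h2] at h1 ⊢
    linarith

theorem Om3_sq_sum' (m : ℕ) : ∑ i ∈ Finset.Icc 1 m, (1 : ℝ) / (i : ℝ) ^ 2 ≤ 2 := by
  cases m with
  | zero => norm_num
  | succ m =>
    refine (Om3_sq_sum m).trans ?_
    have h0 : (0 : ℝ) ≤ 1 / ((m : ℝ) + 1) := by positivity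
    linarith

theorem Om3_total (m : ℕ) : ∑ s ∈ nd m, om m s = 0 := by
  have h := om_sum m 1 (by simp)
  simpa using h

theorem Om3_zero_mem (m : ℕ) : 0 ∈ nd m := by
  simp [nd]

/-- The positive weights of the nodes different from `0` have a sum of at most half of the weight of `0`.

Proof. The weight of `1` is negative (`om_one_neg`), so only the nodes `9 i²` contribute; by `om_ratio` their sum is at most
`∑_{i=1}^m 2 / (9 i² - 1) om m 0 ≤ ∑ 1 / (4 i²) om m 0 ≤ 1/2 om m 0`, because `9 i² - 1 ≥ 8 i²` and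
`∑_{i=1}^m 1 / i² ≤ 2`. -/
theorem om_pos_sum (m : ℕ) : ∑ s ∈ (nd m).erase 0, max (om m s) 0 ≤ om m 0 / 2 := by
  have h0 : 0 < om m 0 := om_zero_pos m
  have hsub : (nd m).erase 0 ⊆ insert 1 ((Finset.Icc 1 m).image fun i => 9 * i ^ 2) := by
    intro s hs
    rw [Finset.mem_erase] at hs
    obtain ⟨hs0, hs⟩ := hs
    unfold nd at hs
    rcases Finset.mem_union.1 hs with h | h
    · rw [Finset.mem_insert, Finset.mem_singleton] at h
      rcases h with h | h
      · exact absurd h hs0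
      · rw [h]
        exact Finset.mem_insert_self _ _
    · exact Finset.mem_insert_of_mem h
  have h1 : (1 : ℕ) ∉ (Finset.Icc 1 m).image fun i => 9 * i ^ 2 := by
    intro h
    obtain ⟨i, _, hi⟩ := Finset.mem_image.1 h
    have : 9 * i ^ 2 = 1 := hi
    omega
  have hinj : Set.InjOn (fun i : ℕ => 9 * i ^ 2) (Finset.Icc 1 m : Finset ℕ) := by
    intro a _ b _ hab
    have h2 : 9 * a ^ 2 = 9 * b ^ 2 := hab
    have h3 : a ^ 2 = b ^ 2 := by omega
    exact Nat.pow_left_injective (n := 2) (by norm_num) h3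
  calc ∑ s ∈ (nd m).erase 0, max (om m s) 0
      ≤ ∑ s ∈ insert 1 ((Finset.Icc 1 m).image fun i => 9 * i ^ 2), max (om m s) 0 :=
        Finset.sum_le_sum_of_subset_of_nonneg hsub fun _ _ _ => le_max_right _ _
    _ = max (om m 1) 0 + ∑ s ∈ (Finset.Icc 1 m).image (fun i => 9 * i ^ 2), max (om m s) 0 :=
        Finset.sum_insert h1
    _ = ∑ i ∈ Finset.Icc 1 m, max (om m (9 * i ^ 2)) 0 := by
        rw [max_eq_right (om_one_neg m).le, zero_add, Finset.sum_image hinj]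
    _ ≤ ∑ i ∈ Finset.Icc 1 m, (om m 0 / 4) * (1 / (i : ℝ) ^ 2) := by
        refine Finset.sum_le_sum fun i hi => ?_
        obtain ⟨hi1, him⟩ := Finset.mem_Icc.1 hi
        have hi1' : (1 : ℝ) ≤ (i : ℝ) := by exact_mod_cast hi1
        have hi2 : (1 : ℝ) ≤ (i : ℝ) ^ 2 := one_le_pow₀ hi1'
        have h4 := om_ratio m i hi1 him
        have h5 : max (om m (9 * i ^ 2)) 0 ≤ |om m (9 * i ^ 2)| := max_le (le_abs_self _) (abs_nonneg _)
        refine h5.trans (h4.trans ?_)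
        have h6 : (2 : ℝ) / (9 * (i : ℝ) ^ 2 - 1) ≤ 1 / (4 * (i : ℝ) ^ 2) := by
          rw [div_le_div_iff₀ (by linarith) (by linarith)]
          linarith
        calc (2 : ℝ) / (9 * (i : ℝ) ^ 2 - 1) * om m 0 ≤ 1 / (4 * (i : ℝ) ^ 2) * om m 0 :=
              mul_le_mul_of_nonneg_right h6 h0.le
          _ = (om m 0 / 4) * (1 / (i : ℝ) ^ 2) := by
              field_simp
    _ = (om m 0 / 4) * ∑ i ∈ Finset.Icc 1 m, (1 / (i : ℝ) ^ 2) := by rw [Finset.mul_sum]
    _ ≤ (om m 0 / 4) * 2 := mul_le_mul_of_nonneg_left (Om3_sq_sum' m) (by positivity)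
    _ = om m 0 / 2 := by ring

/-- `∑ |om| ≤ 3 om m 0`. The sum of all weights is `0` (`om_sum` with `p = 1`), so the sum of the absolute values is twice the
sum of the positive weights, `2 (om m 0 + (≤ om m 0 / 2)) ≤ 3 om m 0`. -/
theorem om_abs_sum (m : ℕ) : ∑ s ∈ nd m, |om m s| ≤ 3 * om m 0 := by
  have h0 : 0 < om m 0 := om_zero_pos m
  have h1 : ∑ s ∈ nd m, |om m s| = 2 * ∑ s ∈ nd m, max (om m s) 0 - ∑ s ∈ nd m, om m s := by
    rw [Finset.mul_sum, ← Finset.sum_sub_distrib]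
    refine Finset.sum_congr rfl fun s _ => ?_
    rcases le_total 0 (om m s) with h | h
    · rw [abs_of_nonneg h, max_eq_left h]
      ring
    · rw [abs_of_nonpos h, max_eq_right h]
      ring
  have h2 : ∑ s ∈ nd m, max (om m s) 0 = max (om m 0) 0 + ∑ s ∈ (nd m).erase 0, max (om m s) 0 :=
    (Finset.add_sum_erase (nd m) (fun s => max (om m s) 0) (Om3_zero_mem m)).symm
  have h3 := om_pos_sum m
  rw [max_eq_left h0.le] at h2
  rw [h1, Om3_total, h2]
  linarith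

/-- The correlation: for numbers `P s ∈ [0, 1]` with `P 0 ≥ 2/3` and `P s ≤ 1/3` for the other nodes,
`∑ om m s * P s ≥ om m 0 / 6`.

Proof. `∑ om P ≥ (2/3) om 0 - (1/3) W` where `W` is the sum of the absolute values of the negative weights (positive weights
of nodes different from `0` contribute at least `0`). The sum of all weights is `0`, so
`W = om 0 + W⁺` with `W⁺ ≤ om 0 / 2` (`om_pos_sum`), and
`(2/3) om 0 - (1/3) (om 0 + W⁺) = (1/3) (om 0 - W⁺) ≥ om 0 / 6`. -/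
theorem om_corr (m : ℕ) (P : ℕ → ℝ) (h0 : 2 / 3 ≤ P 0) (h1 : ∀ s ∈ nd m, s ≠ 0 → 0 ≤ P s ∧ P s ≤ 1 / 3) :
    om m 0 / 6 ≤ ∑ s ∈ nd m, om m s * P s := by
  have hz : 0 < om m 0 := om_zero_pos m
  have h2 : ∑ s ∈ nd m, om m s * P s = om m 0 * P 0 + ∑ s ∈ (nd m).erase 0, om m s * P s :=
    (Finset.add_sum_erase (nd m) (fun s => om m s * P s) (Om3_zero_mem m)).symm
  have h3 : (0 : ℝ) = om m 0 + ∑ s ∈ (nd m).erase 0, om m s := by
    rw [← Om3_total m]
    exact (Finset.add_sum_erase (nd m) (fun s => om m s) (Om3_zero_mem m)).symm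
  have h4 : ∑ s ∈ (nd m).erase 0, (1 / 3 * (om m s - max (om m s) 0)) ≤
      ∑ s ∈ (nd m).erase 0, om m s * P s := by
    refine Finset.sum_le_sum fun s hs => ?_
    obtain ⟨hs0, hs⟩ := Finset.mem_erase.1 hs
    obtain ⟨hP0, hP1⟩ := h1 s hs hs0
    rcases le_total 0 (om m s) with h | h
    · rw [max_eq_left h, sub_self, mul_zero]
      exact mul_nonneg h hP0
    · rw [max_eq_right h]
      nlinarith
  rw [← Finset.mul_sum, Finset.sum_sub_distrib] at h4
  have h5 := om_pos_sum m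
  have h6 : om m 0 * (2 / 3) ≤ om m 0 * P 0 := mul_le_mul_of_nonneg_left h0 hz.le
  rw [h2]
  linarith

end Pool.Agent.H.MP_dd1c2e_lc.RO
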