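import Pool.Agent.H.MP_dd1c2e_lc.ro.Cg

/-!
# Orders of the rows with few changes: first properties
-/

namespace Pool.Agent.H.MP_dd1c2e_lc.RO

open Finset

/-- The same order, `chg_pad`. -/
theorem PO.other {X Y : Type} {G : X → Y → Bool} {e : Bool} {n : ℕ} (h : PO G e n) : PO G (!e) (n + 1) := by
  obtain ⟨l, h1, h2, h3⟩ := h
  refine ⟨l, h1, h2, fun y => ?_⟩
  have h4 := chg_pad e (l.map (fun x => G x y))
  have h5 := h3 y
  omega

/-- The same order, `chg_not`. -/
theorem PO.not {X Y : Type} {G : X → Y → Bool} {e : Bool} {n : ℕ} (h : PO G e n) :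
    PO (fun x y => !(G x y)) (!e) n := by
  obtain ⟨l, h1, h2, h3⟩ := h
  refine ⟨l, h1, h2, fun y => ?_⟩
  have h4 : (!e) :: (l.map (fun x => !(G x y)) ++ [!e]) =
      (e :: (l.map (fun x => G x y) ++ [e])).map (fun b => !b) := by
    simp [List.map_map, Function.comp_def]
  rw [h4, chg_not]
  exact h3 y

/-- Any order (`Finset.univ.toList`), `chg_const`. -/
theorem PO.const {X Y : Type} [Finite X] (b : Bool) : PO (fun (_ : X) (_ : Y) => b) b 0 := by
  classical
  obtain ⟨_⟩ := nonempty_fintype X
  refine ⟨(Finset.univ : Finset X).toList, Finset.nodup_toList _, fun x => by simp, fun y => ?_⟩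
  have h4 : chg (b :: (((Finset.univ : Finset X).toList).map (fun _ => b) ++ [b])) = 0 := by
    apply chg_const b
    intro c hc
    simp only [List.mem_cons, List.mem_append, List.mem_map, List.not_mem_nil, or_false] at hc
    rcases hc with hc | ⟨_, _, hc⟩ | hc
    · exact hc
    · exact hc.symm
    · exact hc
  exact le_of_eq h4

/-- The same order. A column `(y₁, y)` with `b y₁ = false` is constant `e`, and has no changes (`chg_const`). -/
theorem PO.gateB {X Y Y1 : Type} {G : X → Y → Bool} {e : Bool} {n : ℕ} (b : Y1 → Bool) (h : PO G e n) :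
    PO (fun (x : X) (y : Y1 × Y) => if b y.1 then G x y.2 else e) e n := by
  obtain ⟨l, h1, h2, h3⟩ := h
  refine ⟨l, h1, h2, fun y => ?_⟩
  by_cases hb : b y.1 = true
  · simp only [hb, if_true]
    exact h3 y.2
  · simp only [hb]
    rw [chg_const e]
    · exact Nat.zero_le _
    · intro c hc
      simp only [List.mem_cons, List.mem_append, List.mem_map, List.not_mem_nil, or_false] at hc
      rcases hc with hc | ⟨_, _, hc⟩ | hc
      · exact hc
      · exact hc.symm
      · exact hc

/-- The same order. A column `(y₁, y)` with `b y₁ = false` is constant `!e`, and has at most two changes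
(`chg_pad`, `chg_const`). -/
theorem PO.gateB' {X Y Y1 : Type} {G : X → Y → Bool} {e : Bool} {n : ℕ} (b : Y1 → Bool) (h : PO G e n) :
    PO (fun (x : X) (y : Y1 × Y) => if b y.1 then G x y.2 else !e) e (max n 1) := by
  obtain ⟨l, h1, h2, h3⟩ := h
  refine ⟨l, h1, h2, fun y => ?_⟩
  by_cases hb : b y.1 = true
  · simp only [hb, if_true]
    have h4 := h3 y.2
    have h5 := le_max_left n 1
    omega
  · simp only [hb]
    have h4 := chg_pad (!e) (l.map (fun _ => !e))
    rw [Bool.not_not] at h4
    have h5 : chg ((!e) :: (l.map (fun _ => !e) ++ [!e])) = 0 := by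
      apply chg_const (!e)
      intro c hc
      simp only [List.mem_cons, List.mem_append, List.mem_map, List.not_mem_nil, or_false] at hc
      rcases hc with hc | ⟨_, _, hc⟩ | hc
      · exact hc
      · exact hc.symm
      · exact hc
    have h6 := le_max_right n 1
    have h7 : chg (e :: (l.map (fun _ => !e) ++ [e])) ≤ 2 * max n 1 := by omega
    exact h7

/-- The same order. -/
theorem PO.liftY {X Y : Type} (Y1 : Type) {G : X → Y → Bool} {e : Bool} {n : ℕ} (h : PO G e n) :
    PO (fun (x : X) (y : Y1 × Y) => G x y.2) e n := by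
  obtain ⟨l, h1, h2, h3⟩ := h
  exact ⟨l, h1, h2, fun y => h3 y.2⟩

end Pool.Agent.H.MP_dd1c2e_lc.RO
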