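import Pool.Agent.H.MP_dd1c2e_lc.ro.Po1

/-!
# Orders of the rows: conjunction with a blocky matrix
-/

namespace Pool.Agent.H.MP_dd1c2e_lc.RO

open Finset

/-- The gate of a blocky matrix does not increase the number of changes with respect to the value of the gate.

Proof. Let `g x y = true ↔ α x = β y` with `α : X1 → Z`, `β : Y1 → Z` (`X1` is finite), and let `l` be the list of the rows
of `G`. Let `cl : List Z` be a duplicate free list of all values of `α` (for instance `(univ.image α).toList`), and for
`κ : Z` let `f κ` be the list of the `x₁` with `α x₁ = κ`. The list of the rows of the new matrix is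
`cl.flatMap (fun κ => l.flatMap (fun x => (f κ).map (fun x₁ => (x₁, x))))`: it is duplicate free and complete. In a column
`(y₁, y)` all entries of the segments with `κ ≠ β y₁` are `e`. If `β y₁` is not a value of `α`, the column is constant.
Otherwise `cl = cl₁ ++ β y₁ :: cl₂`, and the column, with the two end values, is
`replicate n₁ e ++ l.flatMap (fun x => replicate m (G x y)) ++ replicate n₂ e` with `n₁, n₂ ≥ 1`, `m = (f (β y₁)).length`;
this is the `flatMap` of `replicate` over the list `(n₁, e) :: l.map (fun x => (m, G x y)) ++ [(n₂, e)]`, so by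
`chg_flatMap` it has at most `chg (e :: l.map .. ++ [e]) ≤ 2 n` changes. -/
theorem PO.gate {X Y X1 Y1 : Type} [Finite X1] {G : X → Y → Bool} {g : X1 → Y1 → Bool} {e : Bool} {n : ℕ}
    (hg : Blocky g) (h : PO G e n) :
    PO (fun (x : X1 × X) (y : Y1 × Y) => if g x.1 y.1 then G x.2 y.2 else e) e n := by
  classical
  obtain ⟨Z, hZ, α, β, hαβ⟩ := hg
  obtain ⟨l, h1, h2, h3⟩ := h
  obtain ⟨_⟩ := nonempty_fintype X1
  obtain ⟨_⟩ := nonempty_fintype Z
  let f : Z → List X1 := fun κ => (Finset.univ.filter (fun x => α x = κ)).toList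
  have hf : ∀ κ x, x ∈ f κ ↔ α x = κ := by
    intro κ x
    simp [f]
  refine ⟨((Finset.univ : Finset Z).toList).flatMap
    (fun κ => l.flatMap (fun x => (f κ).map (fun x₁ => (x₁, x)))), ?_, ?_, ?_⟩
  · rw [List.nodup_flatMap]
    refine ⟨fun κ _ => ?_, ?_⟩
    · rw [List.nodup_flatMap]
      refine ⟨fun x _ => ?_, ?_⟩
      · exact (Finset.nodup_toList _).map (fun a b h => congrArg Prod.fst h)
      · refine List.Pairwise.imp ?_ h1
        intro x x' hxx p hp hp'
        obtain ⟨a, _, rfl⟩ := List.mem_map.1 hp
        obtain ⟨b, _, hb⟩ := List.mem_map.1 hp'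
        exact hxx (congrArg Prod.snd hb).symm
    · refine List.Pairwise.imp ?_ (Finset.nodup_toList (Finset.univ : Finset Z))
      intro κ κ' hκ p hp hp'
      obtain ⟨x, _, hx⟩ := List.mem_flatMap.1 hp
      obtain ⟨x', _, hx'⟩ := List.mem_flatMap.1 hp'
      obtain ⟨a, ha, rfl⟩ := List.mem_map.1 hx
      obtain ⟨b, hb, hab⟩ := List.mem_map.1 hx'
      have e1 : b = a := congrArg Prod.fst hab
      apply hκ
      rw [← (hf κ a).1 ha, ← (hf κ' b).1 hb, e1]
  · rintro ⟨x₁, x⟩
    rw [List.mem_flatMap]
    exact ⟨α x₁, Finset.mem_toList.2 (Finset.mem_univ _), List.mem_flatMap.2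
      ⟨x, h2 x, List.mem_map.2 ⟨x₁, (hf _ _).2 rfl, rfl⟩⟩⟩
  · rintro ⟨y₁, y⟩
    have hB : ∀ l₀ : List Z, β y₁ ∉ l₀ → ∀ b ∈ (l₀.flatMap
        (fun κ => l.flatMap (fun x => (f κ).map (fun x₁ => (x₁, x))))).map
        (fun x : X1 × X => if g x.1 y₁ then G x.2 y else e), b = e := by
      intro l₀ hl₀ b hb
      obtain ⟨p, hp, rfl⟩ := List.mem_map.1 hb
      obtain ⟨κ, hκ, hp⟩ := List.mem_flatMap.1 hp
      obtain ⟨x, _, hp⟩ := List.mem_flatMap.1 hp
      obtain ⟨a, ha, rfl⟩ := List.mem_map.1 hp
      have e1 : ¬ g a y₁ = true := by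
        rw [hαβ, (hf κ a).1 ha]
        rintro rfl
        exact hl₀ hκ
      simp only [e1]
      rfl
    have hA : (l.flatMap (fun x => (f (β y₁)).map (fun x₁ => (x₁, x)))).map
        (fun x : X1 × X => if g x.1 y₁ then G x.2 y else e) =
        l.flatMap (fun x => List.replicate (f (β y₁)).length (G x y)) := by
      rw [List.map_flatMap]
      congr 1
      funext x
      rw [List.map_map, List.eq_replicate_iff]
      refine ⟨by simp, ?_⟩
      intro b hb
      obtain ⟨a, ha, rfl⟩ := List.mem_map.1 hb
      have e1 : g a y₁ = true := (hαβ _ _).2 ((hf _ a).1 ha)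
      simp only [Function.comp_apply, e1]
      rfl
    obtain ⟨c1, c2, hc⟩ := List.append_of_mem
      (Finset.mem_toList.2 (Finset.mem_univ (β y₁)) : β y₁ ∈ (Finset.univ : Finset Z).toList)
    have hnd := Finset.nodup_toList (Finset.univ : Finset Z)
    rw [hc, List.nodup_middle, List.nodup_cons, List.mem_append, not_or] at hnd
    obtain ⟨⟨n1, n2⟩, _⟩ := hnd
    have r1 := List.eq_replicate_of_mem (hB c1 n1)
    have r2 := List.eq_replicate_of_mem (hB c2 n2)
    generalize ((c1.flatMap
        (fun κ => l.flatMap (fun x => (f κ).map (fun x₁ => (x₁, x))))).map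
        (fun x : X1 × X => if g x.1 y₁ then G x.2 y else e)).length = k1 at r1
    generalize ((c2.flatMap
        (fun κ => l.flatMap (fun x => (f κ).map (fun x₁ => (x₁, x))))).map
        (fun x : X1 × X => if g x.1 y₁ then G x.2 y else e)).length = k2 at r2
    have comm : ∀ (k : ℕ) (R : List Bool),
        List.replicate k e ++ e :: R = e :: (List.replicate k e ++ R) := by
      intro k R
      induction k with
      | zero => rfl
      | succ k ih => rw [List.replicate_succ, List.cons_append, ih, List.cons_append]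
    have key : e :: (((((Finset.univ : Finset Z).toList).flatMap
        (fun κ => l.flatMap (fun x => (f κ).map (fun x₁ => (x₁, x))))).map
        (fun x : X1 × X => if g x.1 y₁ then G x.2 y else e)) ++ [e]) =
        (((k1 + 1, e) :: (l.map (fun x => ((f (β y₁)).length, G x y)) ++ [(k2 + 1, e)])).flatMap
          (fun p => List.replicate p.1 p.2)) := by
      rw [hc, List.flatMap_append, List.flatMap_cons, List.map_append, List.map_append, r1, r2, hA,
        List.flatMap_cons, List.flatMap_append, List.flatMap_map]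
      simp only [List.flatMap_cons, List.flatMap_nil, List.append_nil, List.append_assoc,
        List.replicate_succ', List.cons_append]
      rw [List.nil_append, comm k1]
    have h4 := chg_flatMap ((k1 + 1, e) :: (l.map (fun x => ((f (β y₁)).length, G x y))
      ++ [(k2 + 1, e)]))
    have h5 : (((k1 + 1, e) :: (l.map (fun x => ((f (β y₁)).length, G x y))
      ++ [(k2 + 1, e)])).map Prod.snd) = e :: (l.map (fun x => G x y) ++ [e]) := by
      simp [List.map_map, Function.comp_def]
    rw [h5, ← key] at h4
    exact h4.trans (h3 y)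

end Pool.Agent.H.MP_dd1c2e_lc.RO
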