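import Pool.Agent.H.MP_dd1c2e_lc.ro.Ch1
import Pool.Agent.H.MP_dd1c2e_lc.ro.Re2
import Pool.Agent.H.MP_dd1c2e_lc.ro.Pj

/-!
# The induction statement: leaves, complement, relabelling
-/

namespace Pool.Agent.H.MP_dd1c2e_lc.RO

open Finset Pool.Agent.H.MP_dd1c2e_lc.Alt

/-- `N = a = o = z = 1`, the empty chain (`CH.nil`) on `Unit`, core `F`, `ex x = ((), x)`, `ey y = ((), y)`;
`(5 * 1 - 4) * κ = κ`, `(5 - 4) * δ = δ`. -/
theorem PP.leaf {X Y : Type} [Nonempty X] [Nonempty Y] {F : X → Y → Bool} {κ : ℕ} {δ : ℝ} (h : RandE F κ δ) :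
    PP κ δ F := by
  refine ⟨1, 1, 1, 1, le_refl _, le_refl _, Or.inl rfl, Or.inl rfl, Or.inl rfl, Unit, Unit, X, Y,
    inferInstance, inferInstance, inferInstance, inferInstance, fun _ _ => true, fun _ _ => false,
    fun _ => false, fun _ => false, F, fun x => ((), x), fun y => ((), y), ?_, ?_, CH.nil, ?_, ?_⟩
  · rintro ⟨⟨⟩, x⟩
    exact ⟨x, rfl⟩
  · rintro ⟨⟨⟩, y⟩
    exact ⟨y, rfl⟩
  · exact h.mono (by norm_num) (by norm_num)
  · intro x y
    simp

/-- The new numbers are `N, o, a, z` (`a` and `o` exchanged: `sub_OA_of_AO`, `sub_AO_of_OA`, `sub_IP_not`); the new chain is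
`(u, !v, fA, fB)` (`CH.not`) and the new core `!H` (`RandE.map`). -/
theorem PP.not {X Y : Type} {F : X → Y → Bool} {κ : ℕ} {δ : ℝ} (h : PP κ δ F) : PP κ δ (fun x y => !(F x y)) := by
  obtain ⟨N, a, o, z, hN, hle, ha, ho, hz, Xc, Yc, X', Y', i1, i2, i3, i4, u, v, fA, fB, H, ex, ey, hex, hey,
    hCH, hR, hF⟩ := h
  refine ⟨N, o, a, z, hN, by rw [mul_comm o a]; exact hle, ?_, ?_, ?_, Xc, Yc, X', Y', i1, i2, i3, i4, u,
    fun x y => !(v x y), fA, fB, fun x y => !(H x y), ex, ey, hex, hey, hCH.not, hR.map (fun b => !b), ?_⟩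
  · rcases ho with h | h
    · exact Or.inl h
    · exact Or.inr (sub_AO_of_OA h)
  · rcases ha with h | h
    · exact Or.inl h
    · exact Or.inr (sub_OA_of_AO h)
  · rcases hz with h | ⟨c, h⟩
    · exact Or.inl h
    · exact Or.inr ⟨!c, sub_IP_not h⟩
  · intro x y
    show (!(F x y)) = _
    rw [hF x y]
    by_cases hu : u (ex x).1 (ey y).1 = true
    · rw [if_pos hu, if_pos hu]
      have key : ∀ a b c : Bool, (!(Bool.xor (Bool.xor a b) c)) = Bool.xor (Bool.xor a b) (!c) := by decide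
      exact key _ _ _
    · rw [if_neg hu, if_neg hu]

/-- Relabelling by surjective maps: compose `ex` and `ey` with `p` and `p'`; `Sub (F (p ·) (p' ·)) F` by right inverses of
`p` and `p'` (`Function.surjInv`), and `Sub.trans`. -/
theorem PP.relabel {X Y X' Y' : Type} {F : X → Y → Bool} {κ : ℕ} {δ : ℝ} (h : PP κ δ F) (p : X' → X) (p' : Y' → Y)
    (hp : Function.Surjective p) (hp' : Function.Surjective p') : PP κ δ (fun x y => F (p x) (p' y)) := by
  obtain ⟨N, a, o, z, hN, hle, ha, ho, hz, Xc, Yc, Xn, Yn, i1, i2, i3, i4, u, v, fA, fB, H, ex, ey, hex, hey,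
    hCH, hR, hF⟩ := h
  have hs : Sub (fun x y => F (p x) (p' y)) F :=
    ⟨Function.surjInv hp, Function.surjInv hp', fun x y => by
      show F (p (Function.surjInv hp x)) (p' (Function.surjInv hp' y)) = F x y
      rw [Function.surjInv_eq hp, Function.surjInv_eq hp']⟩
  refine ⟨N, a, o, z, hN, hle, ?_, ?_, ?_, Xc, Yc, Xn, Yn, i1, i2, i3, i4, u, v, fA, fB, H,
    fun x => ex (p x), fun y => ey (p' y), hex.comp hp, hey.comp hp', hCH, hR, fun x y => hF (p x) (p' y)⟩
  · rcases ha with h | h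
    · exact Or.inl h
    · exact Or.inr (hs.trans h)
  · rcases ho with h | h
    · exact Or.inl h
    · exact Or.inr (hs.trans h)
  · rcases hz with h | ⟨c, h⟩
    · exact Or.inl h
    · exact Or.inr ⟨c, hs.trans h⟩

end Pool.Agent.H.MP_dd1c2e_lc.RO
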