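import Pool.Agent.H.MP_dd1c2e_lc.ro.Om3
import Pool.Agent.H.MP_dd1c2e_lc.ro.Fo

/-!
# The dual polynomial on the cube
-/

namespace Pool.Agent.H.MP_dd1c2e_lc.RO

open Finset

/-- The weight of `z` depends only on the number of its zeros. -/
noncomputable def psi (t m : ℕ) (z : Fin t → Bool) : ℝ :=
  if zc z ∈ nd m then om m (zc z) / (t.choose (zc z) : ℝ) else 0

/-- Points of the cube and subsets. -/
private def ez (t : ℕ) : (Fin t → Bool) ≃ Finset (Fin t) where
  toFun z := univ.filter fun i => z i = false
  invFun A i := decide (i ∉ A)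
  left_inv z := by
    funext i
    cases h : z i <;> simp [h]
  right_inv A := by
    ext i
    simp

private theorem card_sup (t : ℕ) (B : Finset (Fin t)) (s : ℕ) :
    (univ.filter fun z : Fin t → Bool => zc z = s ∧ ∀ i ∈ B, z i = false).card =
      ((powersetCard s (univ : Finset (Fin t))).filter fun A => B ⊆ A).card := by
  apply Finset.card_bij' (fun z _ => ez t z) (fun A _ => (ez t).symm A)
  · intro z hz
    rw [mem_filter] at hz
    rw [mem_filter, mem_powersetCard]
    refine ⟨⟨subset_univ _, hz.2.1⟩, ?_⟩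
    intro i hi
    simp only [ez, Equiv.coe_fn_mk, mem_filter, mem_univ, true_and]
    exact hz.2.2 i hi
  · intro A hA
    rw [mem_filter, mem_powersetCard] at hA
    rw [mem_filter]
    refine ⟨mem_univ _, ?_, ?_⟩
    · have h := (ez t).apply_symm_apply A
      have h2 : zc ((ez t).symm A) = (ez t ((ez t).symm A)).card := rfl
      rw [h2, h, hA.1.2]
    · intro i hi
      have h3 := hA.2 hi
      simp [ez, h3]
  · intro z _
    exact (ez t).symm_apply_apply z
  · intro A _
    exact (ez t).apply_symm_apply A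

private theorem card_super (t : ℕ) (B : Finset (Fin t)) (s : ℕ) (hb : B.card ≤ s) :
    ((powersetCard s (univ : Finset (Fin t))).filter fun A => B ⊆ A).card = (t - B.card).choose (s - B.card) := by
  have h1 : (univ \ B : Finset (Fin t)).card = t - B.card := by
    rw [card_univ_sdiff, Fintype.card_fin]
  rw [← h1, ← card_powersetCard]
  apply Finset.card_bij' (fun A _ => A \ B) (fun C _ => C ∪ B)
  · intro A hA
    rw [mem_filter, mem_powersetCard] at hA
    rw [mem_powersetCard]
    refine ⟨sdiff_subset_sdiff (subset_univ _) (Subset.refl _), ?_⟩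
    rw [card_sdiff_of_subset hA.2, hA.1.2]
  · intro C hC
    rw [mem_powersetCard] at hC
    have hd : Disjoint C B := by
      have := hC.1
      exact disjoint_of_subset_left this sdiff_disjoint
    rw [mem_filter, mem_powersetCard]
    refine ⟨⟨subset_univ _, ?_⟩, subset_union_right⟩
    rw [card_union_of_disjoint hd, hC.2]
    omega
  · intro A hA
    rw [mem_filter] at hA
    exact sdiff_union_of_subset hA.2
  · intro C hC
    rw [mem_powersetCard] at hC
    have hd : Disjoint C B := disjoint_of_subset_left hC.1 sdiff_disjoint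
    rw [union_sdiff_right]
    exact sdiff_eq_self_of_disjoint hd

private theorem nd_le (t m : ℕ) (ht : 1 ≤ t) (hm : 9 * m ^ 2 ≤ t) (s : ℕ) (hs : s ∈ nd m) : s ≤ t := by
  rw [nd, mem_union] at hs
  rcases hs with hs | hs
  · simp only [mem_insert, mem_singleton] at hs
    omega
  · rw [mem_image] at hs
    obtain ⟨i, hi, rfl⟩ := hs
    rw [mem_Icc] at hi
    have : i ^ 2 ≤ m ^ 2 := Nat.pow_le_pow_left hi.2 2
    omega

private theorem card_level (t s : ℕ) :
    (univ.filter fun z : Fin t → Bool => zc z = s).card = t.choose s := by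
  have h := card_sup t ∅ s
  simp only [notMem_empty, IsEmpty.forall_iff, implies_true, and_true, empty_subset, filter_true, card_powersetCard,
    card_univ, Fintype.card_fin] at h
  exact h

private theorem sum_psi (t m : ℕ) (f : (Fin t → Bool) → ℝ) :
    ∑ z, psi t m z * f z =
      ∑ s ∈ nd m, om m s / (t.choose s : ℝ) * ∑ z ∈ univ.filter (fun z : Fin t → Bool => zc z = s), f z := by
  have h1 : ∀ z : Fin t → Bool, psi t m z * f z =
      ∑ s ∈ nd m, if zc z = s then om m s / (t.choose s : ℝ) * f z else 0 := by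
    intro z
    rw [Finset.sum_ite_eq]
    unfold psi
    split_ifs <;> simp
  simp_rw [h1]
  rw [Finset.sum_comm]
  apply sum_congr rfl
  intro s _
  rw [← Finset.sum_filter, mul_sum]

/-- Summation over the cube by the number of zeros: there are `t.choose s` points with `zc z = s` (they correspond to the
`s`-element subsets of `Fin t`), and all nodes are at most `t` because `9 m² ≤ t` and `1 ≤ t`. -/
theorem psi_abs (t m : ℕ) (ht : 1 ≤ t) (hm : 9 * m ^ 2 ≤ t) : ∑ z, |psi t m z| = ∑ s ∈ nd m, |om m s| := by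
  have h1 : ∀ z : Fin t → Bool, |psi t m z| =
      ∑ s ∈ nd m, if zc z = s then |om m s| / (t.choose s : ℝ) else 0 := by
    intro z
    rw [Finset.sum_ite_eq]
    unfold psi
    split_ifs
    · rw [abs_div, Nat.abs_cast]
    · simp
  simp_rw [h1]
  rw [Finset.sum_comm]
  apply sum_congr rfl
  intro s hs
  have hst := nd_le t m ht hm s hs
  have hc : (0 : ℝ) < (t.choose s : ℝ) := by
    exact_mod_cast Nat.choose_pos hst
  rw [← Finset.sum_filter, sum_const, card_level, nsmul_eq_mul]
  field_simp

/-- For `|B| = b` the average of `[B ⊆ zeros of z]` over the `z` with `zc z = s` is `s (s-1) ... (s-b+1) / (t (t-1) ...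
(t-b+1))`: the number of such `z` is `(t-b).choose (s-b)` (if `b ≤ s`), and
`t.choose s * s.descFactorial b = (t-b).choose (s-b) * t.descFactorial b`. -/
theorem avg_subset (t : ℕ) (B : Finset (Fin t)) (s : ℕ) (hs : s ≤ t) :
    ((univ.filter fun z : Fin t → Bool => zc z = s ∧ ∀ i ∈ B, z i = false).card : ℝ) * (t.descFactorial B.card : ℝ) =
      (t.choose s : ℝ) * (s.descFactorial B.card : ℝ) := by
  rw [card_sup]
  by_cases hb : B.card ≤ s
  · rw [card_super t B s hb]
    have h := Nat.choose_mul (n := t) (k := s) (s := B.card) hb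
    rw [Nat.descFactorial_eq_factorial_mul_choose, Nat.descFactorial_eq_factorial_mul_choose]
    have h' : ((t.choose s : ℝ)) * (s.choose B.card : ℝ) = (t.choose B.card : ℝ) * ((t - B.card).choose (s - B.card) : ℝ) := by
      exact_mod_cast h
    push_cast
    calc (((t - B.card).choose (s - B.card) : ℕ) : ℝ) * ((B.card.factorial : ℝ) * (t.choose B.card : ℝ))
        = (B.card.factorial : ℝ) * ((t.choose B.card : ℝ) * ((t - B.card).choose (s - B.card) : ℝ)) := by ring
      _ = (B.card.factorial : ℝ) * ((t.choose s : ℝ) * (s.choose B.card : ℝ)) := by rw [h']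
      _ = _ := by ring
  · push Not at hb
    have h0 : s.descFactorial B.card = 0 := Nat.descFactorial_eq_zero_iff_lt.mpr hb
    have h1 : ((powersetCard s (univ : Finset (Fin t))).filter fun A => B ⊆ A) = ∅ := by
      rw [filter_eq_empty_iff]
      intro A hA hBA
      rw [mem_powersetCard] at hA
      have := card_le_card hBA
      omega
    rw [h0, h1]
    simp

private theorem chi_expand {t : ℕ} (S : Finset (Fin t)) (z : Fin t → Bool) :
    chi S z = ∑ B ∈ S.powerset, (2 ^ B.card * (-1) ^ (S \ B).card) * (if ∀ i ∈ B, z i = false then 1 else 0) := by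
  unfold chi
  have h : ∀ i ∈ S, sgn (z i) = 2 * (if z i = false then 1 else 0) + (-1) := by
    intro i _
    cases h : z i
    · simp [sgn]; norm_num
    · simp [sgn]
  rw [prod_congr rfl h, Finset.prod_add]
  apply sum_congr rfl
  intro B _
  rw [prod_mul_distrib, prod_const, prod_const]
  have h2 : (∏ i ∈ B, (if z i = false then (1 : ℝ) else 0)) = if ∀ i ∈ B, z i = false then 1 else 0 := by
    split_ifs with hB
    · apply prod_eq_one
      intro i hi
      rw [if_pos (hB i hi)]
    · push Not at hB
      obtain ⟨i, hi, hz⟩ := hB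
      apply prod_eq_zero hi
      rw [if_neg hz]
  rw [h2]
  ring

/-- The Fourier coefficients of `psi` of level at most `m` vanish.

Proof. `χ_S(z) = ∏_{i ∈ S} (-1 + 2 [z i = false]) = ∑_{B ⊆ S} (-1)^(|S| - |B|) 2^|B| [B ⊆ zeros of z]`
(`Finset.prod_add`). So by `avg_subset`, summing over `z` by `s = zc z`,
`∑_z psi z χ_S(z) = ∑_{B ⊆ S} (-1)^(|S|-|B|) 2^|B| / (t)_{|B|} ∑_{s ∈ nd m} om m s (s)_{|B|}` where `(s)_b` is the falling
factorial, the value at `s` of the polynomial `descPochhammer ℝ b` of degree `b ≤ m` (`descPochhammer_eval_eq_descFactorial`),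
and `om_sum` gives `0`. (`|B| ≤ |S| ≤ m ≤ t`, so `(t)_b ≠ 0`; if `m = 0` then `B = ∅`.) -/
theorem psi_hat (t m : ℕ) (ht : 1 ≤ t) (hm : 9 * m ^ 2 ≤ t) (S : Finset (Fin t)) (hS : S.card ≤ m) :
    hat (psi t m) S = 0 := by
  unfold hat
  have hmt : m ≤ t := by
    have : m ≤ m ^ 2 := by
      rcases Nat.eq_zero_or_pos m with h | h
      · subst h; simp
      · exact Nat.le_self_pow (by norm_num) m
    omega
  have key : ∀ B ∈ S.powerset, ∑ z, psi t m z * (if ∀ i ∈ B, z i = false then (1 : ℝ) else 0) = 0 := by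
    intro B hB
    rw [mem_powerset] at hB
    have hBm : B.card ≤ m := (card_le_card hB).trans hS
    have hdt : (t.descFactorial B.card : ℝ) ≠ 0 := by
      have : t.descFactorial B.card ≠ 0 := by
        intro h
        rw [Nat.descFactorial_eq_zero_iff_lt] at h
        omega
      exact_mod_cast this
    rw [sum_psi]
    have h1 : ∀ s ∈ nd m, om m s / (t.choose s : ℝ) *
        ∑ z ∈ univ.filter (fun z : Fin t → Bool => zc z = s), (if ∀ i ∈ B, z i = false then (1 : ℝ) else 0) =
        (t.descFactorial B.card : ℝ)⁻¹ * (om m s * (descPochhammer ℝ B.card).eval (s : ℝ)) := by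
      intro s hs
      have hst := nd_le t m ht hm s hs
      have hc : (t.choose s : ℝ) ≠ 0 := by
        have := Nat.choose_pos hst
        exact_mod_cast this.ne'
      rw [descPochhammer_eval_eq_descFactorial, Finset.sum_ite, sum_const_zero, add_zero, sum_const, nsmul_eq_mul,
        mul_one, filter_filter]
      have h2 := avg_subset t B s hst
      have h3 : ((univ.filter fun z : Fin t → Bool => zc z = s ∧ ∀ i ∈ B, z i = false).card : ℝ) =
          (t.choose s : ℝ) * (s.descFactorial B.card : ℝ) / (t.descFactorial B.card : ℝ) := by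
        rw [eq_div_iff hdt]
        exact h2
      rw [h3]
      field_simp
    rw [sum_congr rfl h1, ← mul_sum, om_sum, mul_zero]
    have hd : (descPochhammer ℝ B.card).natDegree = B.card := descPochhammer_natDegree ℝ B.card
    omega
  have h4 : ∑ z, psi t m z * chi S z = 0 := by
    have h5 : ∀ z : Fin t → Bool, psi t m z * chi S z =
        ∑ B ∈ S.powerset, (2 ^ B.card * (-1) ^ (S \ B).card) *
          (psi t m z * (if ∀ i ∈ B, z i = false then (1 : ℝ) else 0)) := by
      intro z
      rw [chi_expand, mul_sum]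
      apply sum_congr rfl
      intro B _
      ring
    simp_rw [h5]
    rw [Finset.sum_comm]
    apply sum_eq_zero
    intro B hB
    rw [← mul_sum, key B hB, mul_zero]
  rw [h4, zero_div]

/-- The correlation with an average that separates: if `Pb z ∈ [0,1]`, `Pb z ≥ 2/3` for the point without zeros and
`Pb z ≤ 1/3` for all other points, then `∑ psi z * Pb z ≥ om m 0 / 6`. Apply `om_corr` to the averages of `Pb` over the `z`
with `zc z = s` (for `s ∈ nd m`; `t.choose s` is positive because `s ≤ t`). -/
theorem psi_corr (t m : ℕ) (ht : 1 ≤ t) (hm : 9 * m ^ 2 ≤ t) (Pb : (Fin t → Bool) → ℝ)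
    (h0 : ∀ z, zc z = 0 → 2 / 3 ≤ Pb z) (h1 : ∀ z, zc z ≠ 0 → 0 ≤ Pb z ∧ Pb z ≤ 1 / 3) :
    om m 0 / 6 ≤ ∑ z, psi t m z * Pb z := by
  rw [sum_psi]
  have hav : ∀ (s : ℕ), s ≤ t → ∀ (a b : ℝ), (∀ z : Fin t → Bool, zc z = s → a ≤ Pb z) →
      (∀ z : Fin t → Bool, zc z = s → Pb z ≤ b) →
      a ≤ (∑ z ∈ univ.filter (fun z : Fin t → Bool => zc z = s), Pb z) / (t.choose s : ℝ) ∧
      (∑ z ∈ univ.filter (fun z : Fin t → Bool => zc z = s), Pb z) / (t.choose s : ℝ) ≤ b := by
    intro s hs a b ha hb
    have hc : (0 : ℝ) < (t.choose s : ℝ) := by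
      exact_mod_cast Nat.choose_pos hs
    constructor
    · rw [le_div_iff₀ hc, mul_comm, ← card_level t s, ← nsmul_eq_mul]
      apply card_nsmul_le_sum
      intro z hz
      exact ha z (mem_filter.mp hz).2
    · rw [div_le_iff₀ hc, mul_comm, ← card_level t s, ← nsmul_eq_mul]
      apply sum_le_card_nsmul
      intro z hz
      exact hb z (mem_filter.mp hz).2
  have h2 := om_corr m (fun s => (∑ z ∈ univ.filter (fun z : Fin t → Bool => zc z = s), Pb z) / (t.choose s : ℝ))
    (by
      have hz0 : (0 : ℕ) ≤ t := Nat.zero_le t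
      have hc : (0 : ℝ) < (t.choose 0 : ℝ) := by
        exact_mod_cast Nat.choose_pos hz0
      show 2 / 3 ≤ (∑ z ∈ univ.filter (fun z : Fin t → Bool => zc z = 0), Pb z) / (t.choose 0 : ℝ)
      rw [le_div_iff₀ hc, mul_comm, ← card_level t 0, ← nsmul_eq_mul]
      apply card_nsmul_le_sum
      intro z hz
      exact h0 z (mem_filter.mp hz).2)
    (by
      intro s hs hs0
      have hst := nd_le t m ht hm s hs
      exact hav s hst 0 (1 / 3) (fun z hz => (h1 z (by rw [hz]; exact hs0)).1)
        (fun z hz => (h1 z (by rw [hz]; exact hs0)).2))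
  refine h2.trans (le_of_eq ?_)
  apply sum_congr rfl
  intro s _
  ring

end Pool.Agent.H.MP_dd1c2e_lc.RO
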