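import Pool.Agent.H.MP_dd1c2e_lc.ro.Fo

/-!
# Partial selectors and their characters
-/

namespace Pool.Agent.H.MP_dd1c2e_lc.RO

open Finset

/-- The character of the partial selector `T`: the product of `sgn (x i b)` over all `i` with `T i = some b`. -/
def chT {t : ℕ} (T : Fin t → Option Bool) (x : Fin t → Bool → Bool) : ℝ :=
  ∏ i, (match T i with
    | none => 1
    | some b => sgn (x i b))

/-- One factor of `chT`. -/
def ch1 (o : Option Bool) (u : Bool → Bool) : ℝ :=
  match o with
    | none => 1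
    | some b => sgn (u b)

theorem ch1_orth (o o' : Option Bool) :
    ∑ u : Bool → Bool, ch1 o u * ch1 o' u = if o = o' then (4 : ℝ) else 0 := by
  rw [← (Equiv.boolArrowEquivProd Bool).symm.sum_comp, Fintype.sum_prod_type]
  rcases o with _ | b <;> rcases o' with _ | b'
  · simp [ch1]
    norm_num
  · cases b' <;> simp [ch1, sgn, Equiv.boolArrowEquivProd]
  · cases b <;> simp [ch1, sgn, Equiv.boolArrowEquivProd]
  · cases b <;> cases b' <;> simp [ch1, sgn, Equiv.boolArrowEquivProd] <;> norm_num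

/-- Orthogonality: `∑ x, chT T x * chT T' x = 4^t [T = T']`.

Proof. The product over `i` of functions of `x i : Bool → Bool` (4 possibilities); `∑_x ∏_i f i (x i) = ∏_i ∑_{u} f i u`
(`Finset.prod_univ_sum`, `Fintype.piFinset_univ`). For `T i = T' i` the factor is `4` (`sgn_sq`), for `T i ≠ T' i` it is `0`:
the sum over all `u : Bool → Bool` of `sgn (u b)`, or of `sgn (u b) * sgn (u b')` with `b ≠ b'`, is `0` (check by `decide` or
`simp [Fintype.sum_pow]`, or use `Fintype.sum_equiv` with `Bool → Bool ≃ Bool × Bool`). -/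
theorem chT_orth {t : ℕ} (T T' : Fin t → Option Bool) :
    ∑ x : Fin t → Bool → Bool, chT T x * chT T' x = if T = T' then (4 : ℝ) ^ t else 0 := by
  have h1 : ∑ x : Fin t → Bool → Bool, chT T x * chT T' x =
      ∏ i : Fin t, ∑ u : Bool → Bool, ch1 (T i) u * ch1 (T' i) u := by
    rw [Finset.prod_univ_sum, Fintype.piFinset_univ]
    refine Finset.sum_congr rfl (fun x _ => ?_)
    unfold chT
    rw [← Finset.prod_mul_distrib]
    rfl
  rw [h1]
  simp only [ch1_orth]
  by_cases h : T = T'
  · rw [if_pos h, h]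
    simp
  · rw [if_neg h]
    obtain ⟨i, hi⟩ : ∃ i, T i ≠ T' i := by
      by_contra hc
      push Not at hc
      exact h (funext hc)
    refine Finset.prod_eq_zero (mem_univ i) ?_
    rw [if_neg hi]

/-- Parseval: `∑ x ‖∑ T, b T * chT T x‖² = 4^t ∑ T ‖b T‖²`, by `chT_orth`. -/
theorem chT_parseval {t : ℕ} (b : (Fin t → Option Bool) → ℂ) :
    ∑ x : Fin t → Bool → Bool, ‖∑ T, b T * (chT T x : ℂ)‖ ^ 2 = 4 ^ t * ∑ T, ‖b T‖ ^ 2 := by
  have h := par_gen (fun (x : Fin t → Bool → Bool) (T : Fin t → Option Bool) => chT T x) (4 ^ t)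
    (fun T T' => chT_orth T T') b
  rw [← h]
  refine Finset.sum_congr rfl (fun x _ => ?_)
  simp only [mul_comm]

end Pool.Agent.H.MP_dd1c2e_lc.RO
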