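import Pool.Agent.H.MP_dd1c2e_lc.ro.Pt1

/-!
# Expansion of the pattern matrix
-/

namespace Pool.Agent.H.MP_dd1c2e_lc.RO

open Finset

/-- The point `z i = x i (V i) ⊕ w i` of the cube, for a table `x` of Alice and a pair `p = (V, w)` of Bob. -/
def pt {t : ℕ} (x : Fin t → Bool → Bool) (p : (Fin t → Bool) × (Fin t → Bool)) : Fin t → Bool :=
  fun i => Bool.xor (x i (p.1 i)) (p.2 i)

/-- The domain of the partial selector `T`. -/
def dm {t : ℕ} (T : Fin t → Option Bool) : Finset (Fin t) := univ.filter fun i => (T i).isSome = true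

/-- `V` extends the partial selector `T`. -/
def Ext {t : ℕ} (T : Fin t → Option Bool) (V : Fin t → Bool) : Prop := ∀ i b, T i = some b → V i = b

instance {t : ℕ} (T : Fin t → Option Bool) (V : Fin t → Bool) : Decidable (Ext T V) := by
  unfold Ext; infer_instance

/-- The restriction of `V` to `S`. -/
def rst {t : ℕ} (S : Finset (Fin t)) (V : Fin t → Bool) : Fin t → Option Bool :=
  fun i => if i ∈ S then some (V i) else none

/-- `c S V = ∑ w, χ_S(w) v(V, w)`. -/
noncomputable def cS {t : ℕ} (v : (Fin t → Bool) × (Fin t → Bool) → ℂ) (S : Finset (Fin t)) (V : Fin t → Bool) : ℂ :=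
  ∑ w, (chi S w : ℂ) * v (V, w)

/-- `χ_S(x_V) = chT (rst S V) x`. -/
theorem chi_rst {t : ℕ} (S : Finset (Fin t)) (V : Fin t → Bool) (x : Fin t → Bool → Bool) :
    chi S (fun i => x i (V i)) = chT (rst S V) x := by
  unfold chi chT rst
  have h1 : ∏ i ∈ S, sgn (x i (V i)) = ∏ i ∈ univ ∩ S, sgn (x i (V i)) := by
    rw [Finset.univ_inter]
  rw [h1, ← Finset.prod_ite_mem]
  refine Finset.prod_congr rfl (fun i _ => ?_)
  by_cases h : i ∈ S
  · simp [h]
  · simp [h]

/-- For every `T` and `V`: `Ext T V` if and only if `rst (dm T) V = T`. And `dm (rst S V) = S`. -/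
theorem ext_iff_rst {t : ℕ} (T : Fin t → Option Bool) (V : Fin t → Bool) : Ext T V ↔ rst (dm T) V = T := by
  constructor
  · intro h
    funext i
    cases hT : T i with
    | none => simp [rst, dm, hT]
    | some b => simp [rst, dm, hT, h i b hT]
  · intro h i b hb
    have h1 := congrFun h i
    simp only [rst, dm, mem_filter, mem_univ, true_and, hb, Option.isSome_some, if_true, Option.some.injEq] at h1
    exact h1

theorem dm_rst {t : ℕ} (S : Finset (Fin t)) (V : Fin t → Bool) : dm (rst S V) = S := by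
  ext i
  by_cases h : i ∈ S <;> simp [dm, rst, h]

/-- The expansion of the pattern matrix of `ψ` applied to `v`.

Proof. `hat_inv` and `chi_xor`: `ψ(pt x (V, w)) = ∑_S hat ψ S χ_S(x_V) χ_S(w)`, so the left side is
`∑_S hat ψ S ∑_V χ_S(x_V) c S V = ∑_S ∑_V hat ψ S * cS v S V * chT (rst S V) x`. Collect the pairs `(S, V)` with
`rst S V = T`: by `dm_rst` and `ext_iff_rst` these are the pairs `(dm T, V)` with `Ext T V`. -/
theorem pat_expand {t : ℕ} (ψ : (Fin t → Bool) → ℝ) (v : (Fin t → Bool) × (Fin t → Bool) → ℂ)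
    (x : Fin t → Bool → Bool) :
    ∑ p, (ψ (pt x p) : ℂ) * v p =
      ∑ T : Fin t → Option Bool, ((hat ψ (dm T) : ℂ) * ∑ V ∈ univ.filter (fun V => Ext T V), cS v (dm T) V) *
        (chT T x : ℂ) := by
  have h1 : ∑ p, (ψ (pt x p) : ℂ) * v p =
      ∑ V : Fin t → Bool, ∑ S : Finset (Fin t), (hat ψ S : ℂ) * cS v S V * (chT (rst S V) x : ℂ) := by
    rw [Fintype.sum_prod_type]
    refine Finset.sum_congr rfl (fun V _ => ?_)
    have h2 : ∀ w : Fin t → Bool, (ψ (pt x (V, w)) : ℂ) * v (V, w) =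
        ∑ S : Finset (Fin t), (hat ψ S : ℂ) * ((chi S w : ℂ) * v (V, w)) * (chT (rst S V) x : ℂ) := by
      intro w
      rw [hat_inv ψ (pt x (V, w))]
      push_cast
      rw [Finset.sum_mul]
      refine Finset.sum_congr rfl (fun S _ => ?_)
      have h3 : chi S (pt x (V, w)) = chT (rst S V) x * chi S w := by
        rw [← chi_rst]
        exact chi_xor S (fun i => x i (V i)) w
      rw [h3]
      push_cast
      ring
    rw [Finset.sum_congr rfl (fun w _ => h2 w), Finset.sum_comm]
    refine Finset.sum_congr rfl (fun S _ => ?_)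
    rw [← Finset.sum_mul, ← Finset.mul_sum]
    rfl
  have h4 : ∑ T : Fin t → Option Bool, ((hat ψ (dm T) : ℂ) * ∑ V ∈ univ.filter (fun V => Ext T V), cS v (dm T) V) *
        (chT T x : ℂ) =
      ∑ V : Fin t → Bool, ∑ T ∈ univ.filter (fun T : Fin t → Option Bool => Ext T V),
        (hat ψ (dm T) : ℂ) * cS v (dm T) V * (chT T x : ℂ) := by
    simp only [Finset.mul_sum, Finset.sum_mul, Finset.sum_filter]
    rw [Finset.sum_comm]
    refine Finset.sum_congr rfl (fun V _ => Finset.sum_congr rfl (fun T _ => ?_))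
    by_cases hE : Ext T V
    · simp [hE]
    · simp [hE]
  rw [h1, h4]
  refine Finset.sum_congr rfl (fun V _ => ?_)
  refine Finset.sum_nbij' (fun S => rst S V) (fun T => dm T) ?_ ?_ ?_ ?_ ?_
  · intro S _
    rw [mem_filter]
    refine ⟨mem_univ _, ?_⟩
    rw [ext_iff_rst, dm_rst]
  · intro T _
    exact mem_univ _
  · intro S _
    exact dm_rst S V
  · intro T hT
    rw [mem_filter] at hT
    exact (ext_iff_rst T V).1 hT.2
  · intro S _
    simp only [dm_rst]

end Pool.Agent.H.MP_dd1c2e_lc.RO
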