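import Pool.Agent.H.MP_dd1c2e_lc.ro.E

/-!
# Randomized protocols with error `δ`: elementary operations
-/

namespace Pool.Agent.H.MP_dd1c2e_lc.RO

open Finset Pool.Agent.H.MP_dd1c2e_lc.Alt

theorem RandE.mono {X Y : Type} {F : X → Y → Bool} {k k' : ℕ} {δ δ' : ℝ} (h : RandE F k δ) (hk : k ≤ k')
    (hδ : δ ≤ δ') : RandE F k' δ' := by
  obtain ⟨Ω, inst, r, P, h1, h2, h3⟩ := h
  refine ⟨Ω, inst, r, P, h1, fun ω => (h2 ω).trans hk, fun x y => (h3 x y).trans ?_⟩
  exact mul_le_mul_of_nonneg_right hδ (Nat.cast_nonneg _)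

/-- The pulled back protocol. -/
private def re1_pull {X Y X' Y' : Type} (α : X' → X) (β : Y' → Y) : DProt X Y → DProt X' Y'
  | .leaf b => .leaf b
  | .alice f P Q => .alice (fun x => f (α x)) (re1_pull α β P) (re1_pull α β Q)
  | .bob f P Q => .bob (fun y => f (β y)) (re1_pull α β P) (re1_pull α β Q)

private theorem re1_pull_depth {X Y X' Y' : Type} (α : X' → X) (β : Y' → Y) (P : DProt X Y) :
    (re1_pull α β P).depth = P.depth := by
  induction P with
  | leaf b => rfl
  | alice f P Q ihP ihQ =>
    show max (re1_pull α β P).depth (re1_pull α β Q).depth + 1 = max P.depth Q.depth + 1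
    rw [ihP, ihQ]
  | bob f P Q ihP ihQ =>
    show max (re1_pull α β P).depth (re1_pull α β Q).depth + 1 = max P.depth Q.depth + 1
    rw [ihP, ihQ]

private theorem re1_pull_run {X Y X' Y' : Type} (α : X' → X) (β : Y' → Y) (P : DProt X Y) (x : X') (y : Y') :
    (re1_pull α β P).run x y = P.run (α x) (β y) := by
  induction P with
  | leaf b => rfl
  | alice f P Q ihP ihQ =>
    show (if f (α x) then (re1_pull α β P).run x y else (re1_pull α β Q).run x y) =
      if f (α x) then P.run (α x) (β y) else Q.run (α x) (β y)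
    rw [ihP, ihQ]
  | bob f P Q ihP ihQ =>
    show (if f (β y) then (re1_pull α β P).run x y else (re1_pull α β Q).run x y) =
      if f (β y) then P.run (α x) (β y) else Q.run (α x) (β y)
    rw [ihP, ihQ]

/-- Replace all functions of Alice (Bob) in the protocol by their compositions with `α` (`β`): define the pulled back
protocol by recursion (same depth, `run` commutes). -/
theorem RandE.pull {X Y X' Y' : Type} {F : X → Y → Bool} {k : ℕ} {δ : ℝ} (h : RandE F k δ) (α : X' → X)
    (β : Y' → Y) : RandE (fun x y => F (α x) (β y)) k δ := by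
  obtain ⟨Ω, inst, r, P, h1, h2, h3⟩ := h
  refine ⟨Ω, inst, r, fun ω => re1_pull α β (P ω), h1, fun ω => ?_, fun x y => ?_⟩
  · rw [re1_pull_depth]
    exact h2 ω
  · simp only [re1_pull_run]
    exact h3 (α x) (β y)

/-- Apply `f` to the outputs. -/
private def re1_map {X Y : Type} (g : Bool → Bool) : DProt X Y → DProt X Y
  | .leaf b => .leaf (g b)
  | .alice f P Q => .alice f (re1_map g P) (re1_map g Q)
  | .bob f P Q => .bob f (re1_map g P) (re1_map g Q)

private theorem re1_map_depth {X Y : Type} (g : Bool → Bool) (P : DProt X Y) :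
    (re1_map g P).depth = P.depth := by
  induction P with
  | leaf b => rfl
  | alice f P Q ihP ihQ =>
    show max (re1_map g P).depth (re1_map g Q).depth + 1 = max P.depth Q.depth + 1
    rw [ihP, ihQ]
  | bob f P Q ihP ihQ =>
    show max (re1_map g P).depth (re1_map g Q).depth + 1 = max P.depth Q.depth + 1
    rw [ihP, ihQ]

private theorem re1_map_run {X Y : Type} (g : Bool → Bool) (P : DProt X Y) (x : X) (y : Y) :
    (re1_map g P).run x y = g (P.run x y) := by
  induction P with
  | leaf b => rfl
  | alice f P Q ihP ihQ =>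
    show (if f x then (re1_map g P).run x y else (re1_map g Q).run x y) =
      g (if f x then P.run x y else Q.run x y)
    rw [ihP, ihQ]
    cases f x <;> rfl
  | bob f P Q ihP ihQ =>
    show (if f y then (re1_map g P).run x y else (re1_map g Q).run x y) =
      g (if f y then P.run x y else Q.run x y)
    rw [ihP, ihQ]
    cases f y <;> rfl

/-- Apply `f` to the outputs: replace `leaf b` by `leaf (f b)`. If the run is right for `F` it is right for `f ∘ F`. -/
theorem RandE.map {X Y : Type} {F : X → Y → Bool} {k : ℕ} {δ : ℝ} (f : Bool → Bool) (h : RandE F k δ) :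
    RandE (fun x y => f (F x y)) k δ := by
  obtain ⟨Ω, inst, r, P, h1, h2, h3⟩ := h
  refine ⟨Ω, inst, r, fun ω => re1_map f (P ω), h1, fun ω => ?_, fun x y => ?_⟩
  · rw [re1_map_depth]
    exact h2 ω
  · refine le_trans ?_ (h3 x y)
    have h4 : (univ.filter fun ω => (re1_map f (P ω)).run x y ≠ f (F x y)) ⊆
        univ.filter fun ω => (P ω).run x y ≠ F x y := by
      intro ω hω
      rw [Finset.mem_filter] at hω ⊢
      refine ⟨hω.1, fun h => hω.2 ?_⟩
      rw [re1_map_run, h]
    exact_mod_cast Finset.card_le_card h4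

/-- No communication; `Ω = Unit`, `r = 0`. -/
theorem RandE.const {X Y : Type} (b : Bool) : RandE (fun (_ : X) (_ : Y) => b) 0 0 := by
  refine ⟨Unit, inferInstance, 0, fun _ => .leaf b, rfl, fun _ => le_rfl, fun x y => ?_⟩
  have h : (univ.filter fun _ : Unit => (DProt.leaf b : DProt X Y).run x y ≠ b) = ∅ := by
    rw [Finset.filter_eq_empty_iff]
    intro ω _ h
    exact h rfl
  rw [h]
  simp

/-- Alice sends the bit. -/
theorem RandE.ofA {X Y : Type} (a : X → Bool) : RandE (fun x (_ : Y) => a x) 1 0 := by
  refine ⟨Unit, inferInstance, 0, fun _ => .alice a (.leaf true) (.leaf false), rfl, fun _ => le_rfl,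
    fun x y => ?_⟩
  have h : (univ.filter fun _ : Unit =>
      (DProt.alice a (.leaf true) (.leaf false) : DProt X Y).run x y ≠ a x) = ∅ := by
    rw [Finset.filter_eq_empty_iff]
    intro ω _ h
    apply h
    show (if a x then true else false) = a x
    cases a x <;> rfl
  rw [h]
  simp

theorem RandE.ofB {X Y : Type} (b : Y → Bool) : RandE (fun (_ : X) y => b y) 1 0 := by
  refine ⟨Unit, inferInstance, 0, fun _ => .bob b (.leaf true) (.leaf false), rfl, fun _ => le_rfl,
    fun x y => ?_⟩
  have h : (univ.filter fun _ : Unit =>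
      (DProt.bob b (.leaf true) (.leaf false) : DProt X Y).run x y ≠ b y) = ∅ := by
    rw [Finset.filter_eq_empty_iff]
    intro ω _ h
    apply h
    show (if b y then true else false) = b y
    cases b y <;> rfl
  rw [h]
  simp

end Pool.Agent.H.MP_dd1c2e_lc.RO
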